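import Pool.Agent.Lib.helper60.PT

/-!
Polynomial-time operations on booleans, naturals (unary) and lists.
-/

set_option autoImplicit false

namespace Pool.Agent.Lib.helper60

open Function

section

variable {α β γ δ ι σ : Type} [DEnc α] [DEnc β] [DEnc γ] [DEnc δ] [DEnc ι] [DEnc σ]

/-! ### booleans -/

lemma PT.bnot {f : α → Bool} (hf : PT f) : PT (fun a => !f a) :=
  (PT.cond hf (PT.const false) (PT.const true)).congr fun a => by cases f a <;> rfl

lemma PT.band {f g : α → Bool} (hf : PT f) (hg : PT g) : PT (fun a => f a && g a) :=
  (PT.cond hf hg (PT.const false)).congr fun a => by cases f a <;> rfl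

lemma PT.bor {f g : α → Bool} (hf : PT f) (hg : PT g) : PT (fun a => f a || g a) :=
  (PT.cond hf (PT.const true) hg).congr fun a => by cases f a <;> rfl

lemma PT.dnot {p : α → Prop} [DecidablePred p] (hp : PT (fun a => decide (p a))) :
    PT (fun a => decide (¬ p a)) :=
  (PT.bnot hp).congr fun a => by simp

lemma PT.dand {p q : α → Prop} [DecidablePred p] [DecidablePred q]
    (hp : PT (fun a => decide (p a))) (hq : PT (fun a => decide (q a))) :
    PT (fun a => decide (p a ∧ q a)) :=
  (PT.band hp hq).congr fun a => by simp

lemma PT.dor {p q : α → Prop} [DecidablePred p] [DecidablePred q]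
    (hp : PT (fun a => decide (p a))) (hq : PT (fun a => decide (q a))) :
    PT (fun a => decide (p a ∨ q a)) :=
  (PT.bor hp hq).congr fun a => by simp

/-! ### projections -/

lemma PT.p1 {f : α → β × γ} (hf : PT f) : PT (fun a => (f a).1) := PT.fst.comp hf
lemma PT.p2 {f : α → β × γ} (hf : PT f) : PT (fun a => (f a).2) := PT.snd.comp hf

/-! ### naturals -/

lemma PT.pred : PT (fun n : ℕ => n - 1) :=
  (PT.natCases (l := fun n : ℕ => n) (f := fun _ => 0) (g := fun x : ℕ × ℕ => x.2) PT.id
    (PT.const 0) PT.snd).congr fun n => by cases n <;> simp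

lemma PT.nsucc {f : α → ℕ} (hf : PT f) : PT (fun a => f a + 1) := PT.succ.comp hf

lemma PT.npred {f : α → ℕ} (hf : PT f) : PT (fun a => f a - 1) := PT.pred.comp hf

lemma iterate_succ_nat (n m : ℕ) : (fun n : ℕ => n + 1)^[n] m = m + n := by
  induction n generalizing m with
  | zero => rfl
  | succ n ih => rw [iterate_succ_apply, ih]; ring

lemma iterate_pred_nat (n m : ℕ) : (fun n : ℕ => n - 1)^[n] m = m - n := by
  induction n generalizing m with
  | zero => rfl
  | succ n ih => rw [iterate_succ_apply, ih]; omega

lemma PT.nadd {f g : α → ℕ} (hf : PT f) (hg : PT g) : PT (fun a => f a + g a) := by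
  have h := PT.iterateNat (count := g) (init := f) hg hf PT.succ
    ⟨fun x => tsize (f x) + tsize (g x), hf.size.add hg.size, by
      intro x i hi
      rw [iterate_succ_nat]
      simp only [tsize_nat]
      omega⟩
  refine h.congr fun a => ?_
  rw [iterate_succ_nat]

lemma PT.nsub {f g : α → ℕ} (hf : PT f) (hg : PT g) : PT (fun a => f a - g a) := by
  have h := PT.iterateNat (count := g) (init := f) hg hf PT.pred
    ⟨fun x => tsize (f x), hf.size, by
      intro x i hi
      rw [iterate_pred_nat]
      simp only [tsize_nat]
      omega⟩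
  refine h.congr fun a => ?_
  rw [iterate_pred_nat]

lemma PT.nmul {f g : α → ℕ} (hf : PT f) (hg : PT g) : PT (fun a => f a * g a) := by
  have hstep : PT (fun s : ℕ × ℕ => (s.1, s.2 + s.1)) := PT.pair PT.fst (PT.nadd PT.snd PT.fst)
  have hit : ∀ (i m n : ℕ), (fun s : ℕ × ℕ => (s.1, s.2 + s.1))^[i] (m, n) = (m, n + m * i) := by
    intro i
    induction i with
    | zero => intro m n; rfl
    | succ i ih => intro m n; rw [iterate_succ_apply, ih]; simp; ring
  have h := PT.iterateNat (count := g) (init := fun a => (f a, 0)) hg (PT.pair hf (PT.const 0))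
    hstep ⟨fun x => tsize (f x) + tsize (f x) * tsize (g x) + tsize (g x) + 1,
      (((hf.size.add (hf.size.mul hg.size)).add hg.size).add (PB.const 1)), by
      intro x i hi
      rw [hit]
      simp only [tsize_nat, tsize_pair]
      have : f x * i ≤ f x * g x := Nat.mul_le_mul_left _ hi
      nlinarith⟩
  refine (PT.snd.comp h).congr fun a => ?_
  rw [hit]
  simp

lemma PT.isZero {f : α → ℕ} (hf : PT f) : PT (fun a => decide (f a = 0)) :=
  (PT.natCases hf (f := fun _ => true) (g := fun _ : α × ℕ => false) (PT.const _)
    (PT.const _)).congr fun a => by cases f a <;> simp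

lemma PT.nle {f g : α → ℕ} (hf : PT f) (hg : PT g) : PT (fun a => decide (f a ≤ g a)) :=
  (PT.isZero (PT.nsub hf hg)).congr fun a => by simp [Nat.sub_eq_zero_iff_le]

lemma PT.nlt {f g : α → ℕ} (hf : PT f) (hg : PT g) : PT (fun a => decide (f a < g a)) :=
  (PT.nle (PT.nsucc hf) hg).congr fun a => by simp

lemma PT.neq {f g : α → ℕ} (hf : PT f) (hg : PT g) : PT (fun a => decide (f a = g a)) :=
  (PT.band (PT.nle hf hg) (PT.nle hg hf)).congr fun a => by
    rw [← Bool.decide_and]
    congr 1
    exact propext ⟨fun h => le_antisymm h.1 h.2, fun h => ⟨h.le, h.ge⟩⟩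

lemma PT.beq {f g : α → Bool} (hf : PT f) (hg : PT g) : PT (fun a => decide (f a = g a)) :=
  (PT.cond hf hg (PT.bnot hg)).congr fun a => by cases f a <;> cases g a <;> simp

/-! ### sizes of lists -/

lemma tsize_append (l₁ l₂ : List α) : tsize (l₁ ++ l₂) + 1 = tsize l₁ + tsize l₂ := by
  induction l₁ with
  | nil => simp; omega
  | cons x xs ih => simp only [List.cons_append, tsize_cons]; omega

lemma tsize_reverse (l : List α) : tsize l.reverse = tsize l := by
  induction l with
  | nil => rfl
  | cons x xs ih =>
    have := tsize_append xs.reverse [x]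
    simp only [List.reverse_cons, tsize_cons, tsize_nil] at this ⊢
    omega

lemma tsize_mem_lt {x : α} {l : List α} (h : x ∈ l) : tsize x < tsize l := by
  induction l with
  | nil => simp at h
  | cons y ys ih =>
    simp only [tsize_cons]
    rcases List.mem_cons.1 h with h | h
    · subst h
      have := tsize_pos ys
      omega
    · have := ih h
      omega

lemma length_lt_tsize (l : List α) : l.length < tsize l := by
  induction l with
  | nil => simp
  | cons b w ih => simp only [tsize_cons, List.length_cons]; omega

lemma tsize_le_of_forall {l : List α} {B : ℕ} (h : ∀ x ∈ l, tsize x ≤ B) :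
    tsize l ≤ l.length * (B + 1) + 1 := by
  induction l with
  | nil => simp
  | cons x xs ih =>
    have h1 := ih (fun y hy => h y (List.mem_cons_of_mem _ hy))
    have h2 := h x List.mem_cons_self
    simp only [tsize_cons, List.length_cons]
    have : (xs.length + 1) * (B + 1) = xs.length * (B + 1) + B + 1 := by ring
    omega

/-! ### lists -/

lemma PT.reverse {l : ι → List β} (hl : PT l) : PT (fun x => (l x).reverse) := by
  have h := PT.foldl (init := fun _ => ([] : List β)) (g := fun y : ι × List β × β => y.2.2 :: y.2.1)
    hl (PT.const []) (PT.cons (PT.snd.comp PT.snd) (PT.fst.comp PT.snd))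
    ⟨fun x => tsize (l x), hl.size, by
      intro x l₁ l₂ h
      have e : l₁.foldl (fun s b => b :: s) ([] : List β) = l₁.reverse := by simp
      simp only [e, tsize_reverse]
      have := tsize_append l₁ l₂
      rw [h] at this
      have := tsize_pos l₂
      omega⟩
  refine h.congr fun x => ?_
  simp

lemma PT.append {l₁ l₂ : ι → List β} (h₁ : PT l₁) (h₂ : PT l₂) : PT (fun x => l₁ x ++ l₂ x) := by
  have h := PT.foldl (init := l₂) (g := fun y : ι × List β × β => y.2.2 :: y.2.1)
    (PT.reverse h₁) h₂ (PT.cons (PT.snd.comp PT.snd) (PT.fst.comp PT.snd))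
    ⟨fun x => tsize (l₁ x) + tsize (l₂ x), h₁.size.add h₂.size, by
      intro x l l' h
      have e : ∀ (u v : List β), u.foldl (fun s b => b :: s) v = u.reverse ++ v := by
        intro u
        induction u with
        | nil => intro v; rfl
        | cons b u ih => intro v; simp [ih]
      rw [e]
      have h3 := tsize_append l.reverse (l₂ x)
      have h4 := tsize_append l l'
      rw [h, tsize_reverse] at h4
      rw [tsize_reverse] at h3
      have := tsize_pos l'
      beta_reduce
      omega⟩
  refine h.congr fun x => ?_
  have e : ∀ (u v : List β), u.foldl (fun s b => b :: s) v = u.reverse ++ v := by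
    intro u
    induction u with
    | nil => intro v; rfl
    | cons b u ih => intro v; simp [ih]
  rw [e]
  simp

/-- bounds for a parametrised function on the members of a list -/
lemma PB.member {l : ι → List β} (hl : PT l) {t : ι × β → ℕ} (ht : PB t) :
    ∃ T : ι → ℕ, PB T ∧ ∀ x, ∀ b ∈ l x, t (x, b) ≤ T x := by
  obtain ⟨P, hP⟩ := ht
  refine ⟨fun x => P.eval (Lib.helper60.tsize x + Lib.helper60.tsize (l x) + 1), ?_, ?_⟩
  · obtain ⟨Q, hQ⟩ := (PB.tsize.add hl.size).add (PB.const 1)
    exact ⟨P.comp Q, fun a => by rw [Polynomial.eval_comp]; exact evalMono P (hQ a)⟩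
  · intro x b hb
    refine (hP _).trans (evalMono P ?_)
    have := tsize_mem_lt hb
    simp only [tsize_pair]
    omega

lemma PT.map {l : ι → List β} {g : ι × β → γ} (hl : PT l) (hg : PT g) :
    PT (fun x => (l x).map (fun b => g (x, b))) := by
  obtain ⟨T, hT, hTb⟩ := PB.member hl hg.size
  have e : ∀ (x : ι) (u : List β) (v : List γ),
      u.foldl (fun s b => g (x, b) :: s) v = (u.map (fun b => g (x, b))).reverse ++ v := by
    intro x u
    induction u with
    | nil => intro v; rfl
    | cons b u ih => intro v; simp [ih]
  have h := PT.foldl (init := fun _ => ([] : List γ))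
    (g := fun y : ι × List γ × β => g (y.1, y.2.2) :: y.2.1)
    hl (PT.const []) (PT.cons (hg.comp (PT.pair PT.fst (PT.snd.comp PT.snd))) (PT.fst.comp PT.snd))
    ⟨fun x => tsize (l x) * (T x + 1) + 1, (hl.size.mul (hT.add (PB.const 1))).add (PB.const 1), by
      intro x l₁ l₂ h
      rw [e, List.append_nil, tsize_reverse]
      have h1 : ∀ y ∈ l₁.map (fun b => g (x, b)), tsize y ≤ T x := by
        intro y hy
        obtain ⟨b, hb, rfl⟩ := List.mem_map.1 hy
        exact hTb x b (by rw [← h]; exact List.mem_append_left _ hb)
      have h2 := tsize_le_of_forall h1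
      have h3 : l₁.length ≤ tsize (l x) := by
        have := length_lt_tsize (l x)
        rw [← h] at this ⊢
        simp at this
        omega
      rw [List.length_map] at h2
      have h4 : l₁.length * (T x + 1) ≤ tsize (l x) * (T x + 1) := Nat.mul_le_mul_right _ h3
      beta_reduce
      omega⟩
  refine (PT.reverse h).congr fun x => ?_
  rw [e]
  simp

lemma tsize_flatten_le (l : List (List β)) : tsize l.flatten ≤ tsize l := by
  induction l with
  | nil => simp
  | cons x xs ih =>
    have := tsize_append x xs.flatten
    simp only [List.flatten_cons, tsize_cons]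
    omega

lemma PT.flatten {l : ι → List (List β)} (hl : PT l) : PT (fun x => (l x).flatten) := by
  have e : ∀ (u : List (List β)) (v : List β),
      u.foldl (fun s b => b ++ s) v = u.reverse.flatten ++ v := by
    intro u
    induction u with
    | nil => intro v; rfl
    | cons b u ih => intro v; simp [ih]
  have h := PT.foldl (init := fun _ => ([] : List β))
    (g := fun y : ι × List β × List β => y.2.2 ++ y.2.1)
    (PT.reverse hl) (PT.const []) (PT.append (PT.snd.comp PT.snd) (PT.fst.comp PT.snd))
    ⟨fun x => tsize (l x), hl.size, by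
      intro x l₁ l₂ h
      rw [e, List.append_nil]
      refine (tsize_flatten_le _).trans ?_
      rw [tsize_reverse]
      have := tsize_append l₁ l₂
      rw [h, tsize_reverse] at this
      have := tsize_pos l₂
      beta_reduce
      omega⟩
  refine h.congr fun x => ?_
  rw [e]
  simp

lemma PT.flatMap {l : ι → List β} {g : ι × β → List γ} (hl : PT l) (hg : PT g) :
    PT (fun x => (l x).flatMap (fun b => g (x, b))) :=
  (PT.flatten (PT.map hl hg)).congr fun x => by rw [List.flatMap_def]

lemma PT.filter {l : ι → List β} {p : ι × β → Bool} (hl : PT l) (hp : PT p) :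
    PT (fun x => (l x).filter (fun b => p (x, b))) := by
  have h := PT.flatMap hl (g := fun y : ι × β => bif p y then [y.2] else [])
    (PT.cond hp (PT.cons PT.snd (PT.const [])) (PT.const []))
  refine h.congr fun x => ?_
  induction l x with
  | nil => rfl
  | cons b u ih =>
    rw [List.flatMap_cons, ih, List.filter_cons]
    cases p (x, b) <;> simp

lemma PT.all {l : ι → List β} {p : ι × β → Bool} (hl : PT l) (hp : PT p) :
    PT (fun x => (l x).all (fun b => p (x, b))) := by
  have h := PT.foldl (init := fun _ => true)
    (g := fun y : ι × Bool × β => y.2.1 && p (y.1, y.2.2)) hl (PT.const true)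
    (PT.band (PT.fst.comp PT.snd) (hp.comp (PT.pair PT.fst (PT.snd.comp PT.snd))))
    ⟨fun _ => 3, PB.const 3, fun x l₁ l₂ _ => tsize_bool_le _⟩
  refine h.congr fun x => ?_
  have e : ∀ (u : List β) (v : Bool),
      u.foldl (fun s b => s && p (x, b)) v = (v && u.all (fun b => p (x, b))) := by
    intro u
    induction u with
    | nil => intro v; simp
    | cons b u ih => intro v; simp [ih, Bool.and_assoc]
  rw [e]
  simp

lemma PT.any {l : ι → List β} {p : ι × β → Bool} (hl : PT l) (hp : PT p) :
    PT (fun x => (l x).any (fun b => p (x, b))) := by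
  have h := PT.bnot (PT.all hl (PT.bnot hp))
  refine h.congr fun x => ?_
  rw [List.not_all_eq_any_not]
  simp

lemma PT.length {l : ι → List β} (hl : PT l) : PT (fun x => (l x).length) := by
  have h := PT.iterateList (count := l) (init := fun _ => 0) hl (PT.const 0) PT.succ
    ⟨fun x => 2 * tsize (l x) + 1, ((PB.const 2).mul hl.size).add (PB.const 1), by
      intro x i hi
      rw [iterate_succ_nat]
      have := length_lt_tsize (l x)
      simp only [tsize_nat]
      omega⟩
  refine h.congr fun x => ?_
  rw [iterate_succ_nat]
  simp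

lemma PT.tail {l : ι → List β} (hl : PT l) : PT (fun x => (l x).tail) :=
  (PT.listCases hl (f := fun _ => []) (g := fun y : ι × β × List β => y.2.2) (PT.const [])
    (PT.snd.comp PT.snd)).congr fun x => by cases l x <;> rfl

omit [DEnc β] in
lemma iterate_tail (n : ℕ) (l : List β) : (fun l : List β => l.tail)^[n] l = l.drop n := by
  induction n generalizing l with
  | zero => rfl
  | succ n ih =>
    rw [iterate_succ_apply, ih]
    cases l <;> simp

lemma tsize_drop_le (l : List β) (n : ℕ) : tsize (l.drop n) ≤ tsize l := by
  have h := tsize_append (l.take n) (l.drop n)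
  rw [List.take_append_drop] at h
  have := tsize_pos (l.take n)
  omega

lemma PT.drop {l : ι → List β} {n : ι → ℕ} (hn : PT n) (hl : PT l) :
    PT (fun x => (l x).drop (n x)) := by
  have h := PT.iterateNat (count := n) (init := l) hn hl (PT.tail PT.id)
    ⟨fun x => tsize (l x), hl.size, by
      intro x i hi
      rw [iterate_tail]
      exact tsize_drop_le _ _⟩
  refine h.congr fun x => ?_
  rw [iterate_tail]

lemma PT.headD {l : ι → List β} {d : ι → β} (hl : PT l) (hd : PT d) :
    PT (fun x => (l x).headD (d x)) :=
  (PT.listCases hl (f := d) (g := fun y : ι × β × List β => y.2.1) hd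
    (PT.fst.comp PT.snd)).congr fun x => by cases l x <;> rfl

lemma PT.getD {l : ι → List β} {n : ι → ℕ} {d : ι → β} (hl : PT l) (hn : PT n) (hd : PT d) :
    PT (fun x => (l x).getD (n x) (d x)) := by
  refine (PT.headD (PT.drop hn hl) hd).congr fun x => ?_
  rw [List.headD_eq_head?_getD, List.head?_drop, List.getD_eq_getElem?_getD]

/-- folding with a step that increases sizes by at most a constant -/
theorem PT.foldl_lin {l : ι → List β} {init : ι → σ} {g : ι × σ × β → σ} (hl : PT l)
    (hi : PT init) (hg : PT g) (K : ℕ) (hK : ∀ x s b, tsize (g (x, s, b)) ≤ tsize s + K) :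
    PT (fun x => (l x).foldl (fun s b => g (x, s, b)) (init x)) := by
  refine PT.foldl hl hi hg ⟨fun x => tsize (init x) + K * tsize (l x),
    hi.size.add ((PB.const K).mul hl.size), ?_⟩
  intro x l₁ l₂ h
  have h1 : ∀ (u : List β) (s : σ), tsize (u.foldl (fun s b => g (x, s, b)) s) ≤
      tsize s + K * u.length := by
    intro u
    induction u with
    | nil => intro s; simp
    | cons b u ih =>
      intro s
      have h2 := ih (g (x, s, b))
      have h3 := hK x s b
      simp only [List.foldl_cons, List.length_cons]
      have : K * (u.length + 1) = K * u.length + K := by ring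
      omega
  refine (h1 l₁ (init x)).trans ?_
  have h4 : l₁.length ≤ tsize (l x) := by
    have := length_lt_tsize (l x)
    rw [← h] at this ⊢
    simp at this
    omega
  have := Nat.mul_le_mul_left K h4
  beta_reduce
  omega

/-- `List.range` -/
lemma PT.range {n : ι → ℕ} (hn : PT n) : PT (fun x => List.range (n x)) := by
  have hstep : PT (fun s : ℕ × List ℕ => (s.1 - 1, (s.1 - 1) :: s.2)) :=
    PT.pair (PT.npred PT.fst) (PT.cons (PT.npred PT.fst) PT.snd)
  have hit : ∀ (i m : ℕ) (l : List ℕ), i ≤ m →
      (fun s : ℕ × List ℕ => (s.1 - 1, (s.1 - 1) :: s.2))^[i] (m, l) =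
        (m - i, (List.range' (m - i) i) ++ l) := by
    intro i
    induction i with
    | zero => intro m l _; simp
    | succ i ih =>
      intro m l h
      rw [iterate_succ_apply, ih (m - 1) _ (by omega)]
      have e1 : m - 1 - i = m - (i + 1) := by omega
      rw [e1, List.range'_concat]
      have e2 : m - (i + 1) + 1 * i = m - 1 := by omega
      rw [e2]
      simp
  have h := PT.iterateNat (count := n) (init := fun x => (n x, ([] : List ℕ))) hn
    (PT.pair hn (PT.const [])) hstep
    ⟨fun x => tsize (n x) + (tsize (n x) * (tsize (n x) + 1) + 1) + 1,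
      ((hn.size.add ((hn.size.mul (hn.size.add (PB.const 1))).add (PB.const 1))).add (PB.const 1)),
      by
        intro x i hi
        rw [hit i (n x) [] hi]
        have h1 : ∀ y ∈ List.range' (n x - i) i, tsize y ≤ tsize (n x) := by
          intro y hy
          rw [List.mem_range'] at hy
          obtain ⟨j, hj, rfl⟩ := hy
          simp only [tsize_nat]
          omega
        have h2 := tsize_le_of_forall h1
        rw [List.length_range'] at h2
        have h3 : i * (tsize (n x) + 1) ≤ tsize (n x) * (tsize (n x) + 1) := by
          apply Nat.mul_le_mul_right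
          simp only [tsize_nat]
          omega
        have h4 : tsize (n x - i) ≤ tsize (n x) := by
          simp only [tsize_nat]
          omega
        simp only [tsize_pair, List.append_nil]
        omega⟩
  refine (PT.snd.comp h).congr fun x => ?_
  rw [hit (n x) (n x) [] le_rfl]
  simp [List.range_eq_range']

lemma PT.replicate {n : ι → ℕ} {b : ι → β} (hn : PT n) (hb : PT b) :
    PT (fun x => List.replicate (n x) (b x)) := by
  have h := PT.map (PT.range hn) (g := fun y : ι × ℕ => b y.1) (hb.comp PT.fst)
  refine h.congr fun x => ?_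
  simp

end

end Pool.Agent.Lib.helper60
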