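import Pool.Agent.Lib.helper60.PT

/-!
Composition of polynomial-time Turing machines (`Turing.TM2ComputableInPolyTime`).
-/

set_option autoImplicit false

namespace Pool.Agent.Lib.helper60

open Turing StateTransition Function

/-! ### stack lengths -/

section bound

variable {K : Type} [DecidableEq K] {Γ : K → Type} {Λ σ : Type}

/-- number of elementary operations in a statement -/
def stmtSize : TM2.Stmt Γ Λ σ → ℕ
  | .push _ _ q => stmtSize q + 1
  | .peek _ _ q => stmtSize q + 1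
  | .pop _ _ q => stmtSize q + 1
  | .load _ q => stmtSize q + 1
  | .branch _ q₁ q₂ => stmtSize q₁ + stmtSize q₂ + 1
  | .goto _ => 1
  | .halt => 1

lemma stepAux_length (q : TM2.Stmt Γ Λ σ) : ∀ (v : σ) (S : ∀ k, List (Γ k)) (k : K),
    ((TM2.stepAux q v S).stk k).length ≤ (S k).length + stmtSize q := by
  induction q with
  | push k' f q ih =>
    intro v S k
    have := ih v (update S k' (f v :: S k')) k
    simp only [TM2.stepAux, stmtSize]
    by_cases hk : k = k'
    · subst hk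
      simp only [update_self, List.length_cons] at this
      omega
    · rw [update_of_ne hk] at this
      omega
  | peek k' f q ih =>
    intro v S k
    have := ih (f v (S k').head?) S k
    simp only [TM2.stepAux, stmtSize]
    omega
  | pop k' f q ih =>
    intro v S k
    have := ih (f v (S k').head?) (update S k' (S k').tail) k
    simp only [TM2.stepAux, stmtSize]
    by_cases hk : k = k'
    · subst hk
      simp only [update_self, List.length_tail] at this
      omega
    · rw [update_of_ne hk] at this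
      omega
  | load f q ih =>
    intro v S k
    have := ih (f v) S k
    simp only [TM2.stepAux, stmtSize]
    omega
  | branch f q₁ q₂ ih₁ ih₂ =>
    intro v S k
    have h1 := ih₁ v S k
    have h2 := ih₂ v S k
    simp only [TM2.stepAux, stmtSize]
    cases f v
    · simp only [cond_false]; omega
    · simp only [cond_true]; omega
  | goto f => intro v S k; simp [TM2.stepAux]
  | halt => intro v S k; simp [TM2.stepAux]

/-- bound on the growth of stacks in one step -/
noncomputable def growth [Fintype Λ] (M : Λ → TM2.Stmt Γ Λ σ) : ℕ :=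
  Finset.univ.sup (fun l => stmtSize (M l))

lemma step_length [Fintype Λ] (M : Λ → TM2.Stmt Γ Λ σ) {c c' : TM2.Cfg Γ Λ σ}
    (h : TM2.step M c = some c') (k : K) :
    (c'.stk k).length ≤ (c.stk k).length + growth M := by
  obtain ⟨l, v, S⟩ := c
  cases l with
  | none => simp [TM2.step] at h
  | some l =>
    simp only [TM2.step, Option.some.injEq] at h
    rw [← h]
    refine (stepAux_length (M l) v S k).trans ?_
    have : stmtSize (M l) ≤ growth M := Finset.le_sup (f := fun l => stmtSize (M l))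
      (Finset.mem_univ l)
    simp only
    omega

lemma stepsN_length [Fintype Λ] (M : Λ → TM2.Stmt Γ Λ σ) (n : ℕ) : ∀ {c c' : TM2.Cfg Γ Λ σ}
    (_ : stepsN (TM2.step M) n c c') (k : K),
    (c'.stk k).length ≤ (c.stk k).length + growth M * n := by
  induction n with
  | zero =>
    intro c c' h k
    simp only [stepsN, iterate_zero, id_eq, Option.some.injEq] at h
    rw [h]
    simp
  | succ n ih =>
    intro c c' h k
    have h1 : (flip bind (TM2.step M))^[n] (TM2.step M c) = some c' := h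
    cases hc : TM2.step M c with
    | none =>
      rw [hc] at h1
      exfalso
      have : ∀ m, (flip bind (TM2.step M))^[m] none = none := by
        intro m
        induction m with
        | zero => rfl
        | succ m ihm => rw [iterate_succ_apply]; exact ihm
      rw [this] at h1
      exact absurd h1 (by simp)
    | some d =>
      rw [hc] at h1
      have h2 := ih (c := d) (c' := c') h1 k
      have h3 := step_length M hc k
      have : growth M * (n + 1) = growth M * n + growth M := by ring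
      omega

end bound

/-- transport of runs along an embedding of configurations -/
lemma stepsN_map {α β : Type} {f : α → Option α} {g : β → Option β} (e : α → β)
    (h : ∀ a b, f a = some b → g (e a) = some (e b)) (n : ℕ) : ∀ {a b : α},
    stepsN f n a b → stepsN g n (e a) (e b) := by
  induction n with
  | zero =>
    intro a b hab
    simp only [stepsN, iterate_zero, id_eq, Option.some.injEq] at hab
    rw [hab]
    exact stepsN_zero _ _
  | succ n ih =>
    intro a b hab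
    have h1 : (flip bind f)^[n] (f a) = some b := hab
    cases hc : f a with
    | none =>
      rw [hc] at h1
      exfalso
      have : ∀ m, (flip bind f)^[m] none = none := by
        intro m
        induction m with
        | zero => rfl
        | succ m ihm => rw [iterate_succ_apply]; exact ihm
      rw [this] at h1
      exact absurd h1 (by simp)
    | some d =>
      rw [hc] at h1
      exact stepsN_succ (h a d hc) (ih h1)

/-! ### the composed machine -/

section compose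

variable (M₁ M₂ : FinTM2) (conv : M₁.Γ M₁.k₁ → M₂.Γ M₂.k₀)

/-- stack alphabets of the composed machine -/
abbrev cΓ : M₁.K ⊕ (M₂.K ⊕ Unit) → Type :=
  Sum.elim M₁.Γ (Sum.elim M₂.Γ (fun _ => M₂.Γ M₂.k₀))

/-- labels of the composed machine -/
abbrev cΛ : Type := M₁.Λ ⊕ (M₂.Λ ⊕ Bool)

/-- states of the composed machine -/
abbrev cσ : Type := M₁.σ × M₂.σ × Option (M₂.Γ M₂.k₀)

/-- statements of the first machine inside the composed machine -/
def map₁ : TM2.Stmt M₁.Γ M₁.Λ M₁.σ → TM2.Stmt (cΓ M₁ M₂) (cΛ M₁ M₂) (cσ M₁ M₂)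
  | .push k f q => .push (Sum.inl k) (fun s => f s.1) (map₁ q)
  | .peek k f q => .peek (Sum.inl k) (fun s x => (f s.1 x, s.2)) (map₁ q)
  | .pop k f q => .pop (Sum.inl k) (fun s x => (f s.1 x, s.2)) (map₁ q)
  | .load f q => .load (fun s => (f s.1, s.2)) (map₁ q)
  | .branch f q r => .branch (fun s => f s.1) (map₁ q) (map₁ r)
  | .goto f => .goto (fun s => Sum.inl (f s.1))
  | .halt => .goto (fun _ => Sum.inr (Sum.inr false))

/-- statements of the second machine inside the composed machine -/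
def map₂ : TM2.Stmt M₂.Γ M₂.Λ M₂.σ → TM2.Stmt (cΓ M₁ M₂) (cΛ M₁ M₂) (cσ M₁ M₂)
  | .push k f q => .push (Sum.inr (Sum.inl k)) (fun s => f s.2.1) (map₂ q)
  | .peek k f q => .peek (Sum.inr (Sum.inl k)) (fun s x => (s.1, f s.2.1 x, s.2.2)) (map₂ q)
  | .pop k f q => .pop (Sum.inr (Sum.inl k)) (fun s x => (s.1, f s.2.1 x, s.2.2)) (map₂ q)
  | .load f q => .load (fun s => (s.1, f s.2.1, s.2.2)) (map₂ q)
  | .branch f q r => .branch (fun s => f s.2.1) (map₂ q) (map₂ r)
  | .goto f => .goto (fun s => Sum.inr (Sum.inl (f s.2.1)))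
  | .halt => .halt

open Classical in
/-- push the content of the register -/
noncomputable def pushReg (k : M₁.K ⊕ (M₂.K ⊕ Unit)) (hk : cΓ M₁ M₂ k = M₂.Γ M₂.k₀)
    (q : TM2.Stmt (cΓ M₁ M₂) (cΛ M₁ M₂) (cσ M₁ M₂)) :
    TM2.Stmt (cΓ M₁ M₂) (cΛ M₁ M₂) (cσ M₁ M₂) :=
  if h : Nonempty (M₂.Γ M₂.k₀) then .push k (fun s => cast hk.symm (s.2.2.getD h.some)) q else q

/-- the program of the composed machine -/
noncomputable def cM : cΛ M₁ M₂ → TM2.Stmt (cΓ M₁ M₂) (cΛ M₁ M₂) (cσ M₁ M₂)
  | Sum.inl l => map₁ M₁ M₂ (M₁.m l)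
  | Sum.inr (Sum.inl l) => map₂ M₁ M₂ (M₂.m l)
  | Sum.inr (Sum.inr false) =>
      .pop (Sum.inl M₁.k₁) (fun s x => (s.1, s.2.1, Option.map conv x)) <|
        .branch (fun s => s.2.2.isNone) (.goto (fun _ => Sum.inr (Sum.inr true))) <|
          pushReg M₁ M₂ (Sum.inr (Sum.inr ())) rfl <|
            .load (fun s => (s.1, s.2.1, none)) (.goto (fun _ => Sum.inr (Sum.inr false)))
  | Sum.inr (Sum.inr true) =>
      .pop (Sum.inr (Sum.inr ())) (fun s x => (s.1, s.2.1, x)) <|
        .branch (fun s => s.2.2.isNone) (.goto (fun _ => Sum.inr (Sum.inl M₂.main))) <|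
          pushReg M₁ M₂ (Sum.inr (Sum.inl M₂.k₀)) rfl <|
            .load (fun s => (s.1, s.2.1, none)) (.goto (fun _ => Sum.inr (Sum.inr true)))

/-- stacks of the composed machine -/
def cS (S₁ : ∀ k, List (M₁.Γ k)) (S₂ : ∀ k, List (M₂.Γ k)) (A : List (M₂.Γ M₂.k₀)) :
    ∀ k, List (cΓ M₁ M₂ k)
  | Sum.inl k => S₁ k
  | Sum.inr (Sum.inl k) => S₂ k
  | Sum.inr (Sum.inr _) => A

lemma cS_update₁ (S₁ : ∀ k, List (M₁.Γ k)) (S₂ : ∀ k, List (M₂.Γ k)) (A : List (M₂.Γ M₂.k₀))
    (k : M₁.K) (x : List (M₁.Γ k)) :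
    update (cS M₁ M₂ S₁ S₂ A) (Sum.inl k) x = cS M₁ M₂ (update S₁ k x) S₂ A := by
  funext j
  rcases j with j | j | j
  · by_cases h : j = k
    · subst h
      exact (update_self (f := cS M₁ M₂ S₁ S₂ A) (Sum.inl j) x).trans
        (update_self (f := S₁) j x).symm
    · exact (update_of_ne (f := cS M₁ M₂ S₁ S₂ A) (fun e => h (Sum.inl.inj e)) x).trans
        (update_of_ne (f := S₁) h x).symm
  · exact update_of_ne (f := cS M₁ M₂ S₁ S₂ A) (a := Sum.inr (Sum.inl j)) (a' := Sum.inl k)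
      (by simp) x
  · exact update_of_ne (f := cS M₁ M₂ S₁ S₂ A) (a := Sum.inr (Sum.inr j)) (a' := Sum.inl k)
      (by simp) x

lemma cS_update₂ (S₁ : ∀ k, List (M₁.Γ k)) (S₂ : ∀ k, List (M₂.Γ k)) (A : List (M₂.Γ M₂.k₀))
    (k : M₂.K) (x : List (M₂.Γ k)) :
    update (cS M₁ M₂ S₁ S₂ A) (Sum.inr (Sum.inl k)) x = cS M₁ M₂ S₁ (update S₂ k x) A := by
  funext j
  rcases j with j | j | j
  · exact update_of_ne (f := cS M₁ M₂ S₁ S₂ A) (a := Sum.inl j) (a' := Sum.inr (Sum.inl k))
      (by simp) x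
  · by_cases h : j = k
    · subst h
      exact (update_self (f := cS M₁ M₂ S₁ S₂ A) (Sum.inr (Sum.inl j)) x).trans
        (update_self (f := S₂) j x).symm
    · exact (update_of_ne (f := cS M₁ M₂ S₁ S₂ A)
        (fun e => h (Sum.inl.inj (Sum.inr.inj e))) x).trans
        (update_of_ne (f := S₂) h x).symm
  · exact update_of_ne (f := cS M₁ M₂ S₁ S₂ A) (a := Sum.inr (Sum.inr j))
      (a' := Sum.inr (Sum.inl k)) (by simp) x

lemma cS_update₃ (S₁ : ∀ k, List (M₁.Γ k)) (S₂ : ∀ k, List (M₂.Γ k)) (A x : List (M₂.Γ M₂.k₀)) :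
    update (cS M₁ M₂ S₁ S₂ A) (Sum.inr (Sum.inr ())) x = cS M₁ M₂ S₁ S₂ x := by
  funext j
  rcases j with j | j | j
  · exact update_of_ne (f := cS M₁ M₂ S₁ S₂ A) (a := Sum.inl j) (a' := Sum.inr (Sum.inr ()))
      (by simp) x
  · exact update_of_ne (f := cS M₁ M₂ S₁ S₂ A) (a := Sum.inr (Sum.inl j))
      (a' := Sum.inr (Sum.inr ())) (by simp) x
  · cases j
    exact update_self (f := cS M₁ M₂ S₁ S₂ A) (Sum.inr (Sum.inr ())) x

/-- configurations during the first phase -/
def emb₁ (w : M₂.σ) (c : TM2.Cfg M₁.Γ M₁.Λ M₁.σ) :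
    TM2.Cfg (cΓ M₁ M₂) (cΛ M₁ M₂) (cσ M₁ M₂) :=
  ⟨some (match c.l with | some l => Sum.inl l | none => Sum.inr (Sum.inr false)),
    (c.var, w, none), cS M₁ M₂ c.stk (fun _ => []) []⟩

/-- configurations during the last phase -/
def emb₂ (w : M₁.σ) (c : TM2.Cfg M₂.Γ M₂.Λ M₂.σ) :
    TM2.Cfg (cΓ M₁ M₂) (cΛ M₁ M₂) (cσ M₁ M₂) :=
  ⟨c.l.map (fun l => Sum.inr (Sum.inl l)), (w, c.var, none), cS M₁ M₂ (fun _ => []) c.stk []⟩

lemma stepAux₁ (w : M₂.σ) (q : TM2.Stmt M₁.Γ M₁.Λ M₁.σ) : ∀ (v : M₁.σ)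
    (S : ∀ k, List (M₁.Γ k)),
    TM2.stepAux (map₁ M₁ M₂ q) (v, w, none) (cS M₁ M₂ S (fun _ => []) []) =
      emb₁ M₁ M₂ w (TM2.stepAux q v S) := by
  induction q with
  | push k f q ih =>
    intro v S
    exact Eq.trans (congrArg (TM2.stepAux (map₁ M₁ M₂ q) (v, w, none))
      (cS_update₁ M₁ M₂ S (fun _ => []) [] k (f v :: S k))) (ih v _)
  | peek k f q ih =>
    intro v S
    exact ih _ _
  | pop k f q ih =>
    intro v S
    exact Eq.trans (congrArg (TM2.stepAux (map₁ M₁ M₂ q) (f v (S k).head?, w, none))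
      (cS_update₁ M₁ M₂ S (fun _ => []) [] k (S k).tail)) (ih _ _)
  | load f q ih =>
    intro v S
    exact ih _ _
  | branch f q r ih₁ ih₂ =>
    intro v S
    simp only [map₁, TM2.stepAux]
    cases f v
    · exact ih₂ _ _
    · exact ih₁ _ _
  | goto f => intro v S; simp [map₁, TM2.stepAux, emb₁]
  | halt => intro v S; simp [map₁, TM2.stepAux, emb₁]

lemma stepAux₂ (w : M₁.σ) (q : TM2.Stmt M₂.Γ M₂.Λ M₂.σ) : ∀ (v : M₂.σ)
    (S : ∀ k, List (M₂.Γ k)),
    TM2.stepAux (map₂ M₁ M₂ q) (w, v, none) (cS M₁ M₂ (fun _ => []) S []) =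
      emb₂ M₁ M₂ w (TM2.stepAux q v S) := by
  induction q with
  | push k f q ih =>
    intro v S
    exact Eq.trans (congrArg (TM2.stepAux (map₂ M₁ M₂ q) (w, v, none))
      (cS_update₂ M₁ M₂ (fun _ => []) S [] k (f v :: S k))) (ih v _)
  | peek k f q ih =>
    intro v S
    exact ih _ _
  | pop k f q ih =>
    intro v S
    exact Eq.trans (congrArg (TM2.stepAux (map₂ M₁ M₂ q) (w, f v (S k).head?, none))
      (cS_update₂ M₁ M₂ (fun _ => []) S [] k (S k).tail)) (ih _ _)
  | load f q ih =>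
    intro v S
    exact ih _ _
  | branch f q r ih₁ ih₂ =>
    intro v S
    simp only [map₂, TM2.stepAux]
    cases f v
    · exact ih₂ _ _
    · exact ih₁ _ _
  | goto f => intro v S; simp [map₂, TM2.stepAux, emb₂]
  | halt => intro v S; simp [map₂, TM2.stepAux, emb₂]

lemma step₁ (w : M₂.σ) {c c' : TM2.Cfg M₁.Γ M₁.Λ M₁.σ} (h : TM2.step M₁.m c = some c') :
    TM2.step (cM M₁ M₂ conv) (emb₁ M₁ M₂ w c) = some (emb₁ M₁ M₂ w c') := by
  obtain ⟨l, v, S⟩ := c
  cases l with
  | none => simp [TM2.step] at h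
  | some l =>
    simp only [TM2.step, Option.some.injEq] at h
    rw [← h]
    exact congrArg some (stepAux₁ M₁ M₂ w (M₁.m l) v S)

lemma step₂ (w : M₁.σ) {c c' : TM2.Cfg M₂.Γ M₂.Λ M₂.σ} (h : TM2.step M₂.m c = some c') :
    TM2.step (cM M₁ M₂ conv) (emb₂ M₁ M₂ w c) = some (emb₂ M₁ M₂ w c') := by
  obtain ⟨l, v, S⟩ := c
  cases l with
  | none => simp [TM2.step] at h
  | some l =>
    simp only [TM2.step, Option.some.injEq] at h
    rw [← h]
    exact congrArg some (stepAux₂ M₁ M₂ w (M₂.m l) v S)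

/-- the stacks with a single nonempty stack -/
def single (M : FinTM2) (k : M.K) (x : List (M.Γ k)) : ∀ j, List (M.Γ j) :=
  update (fun _ => []) k x

lemma single_self (M : FinTM2) (k : M.K) (x : List (M.Γ k)) : single M k x k = x := by
  unfold single
  exact update_self (β := fun j => List (M.Γ j)) k x (fun _ => [])

lemma single_length_le (M : FinTM2) (k j : M.K) (x : List (M.Γ k)) :
    (single M k x j).length ≤ x.length := by
  by_cases h : j = k
  · subst h
    rw [single_self]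
  · have : single M k x j = [] := by
      unfold single
      exact update_of_ne (β := fun j => List (M.Γ j)) h x (fun _ => [])
    rw [this]
    simp

lemma single_update (M : FinTM2) (k : M.K) (x y : List (M.Γ k)) :
    update (single M k x) k y = single M k y := by
  unfold single
  exact update_idem _ _ _

lemma single_nil (M : FinTM2) (k : M.K) : single M k [] = (fun _ => []) := by
  unfold single
  exact update_eq_self (β := fun j => List (M.Γ j)) k (fun _ => [])

lemma pushReg_step (k : M₁.K ⊕ (M₂.K ⊕ Unit)) (hk : cΓ M₁ M₂ k = M₂.Γ M₂.k₀)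
    (q : TM2.Stmt (cΓ M₁ M₂) (cΛ M₁ M₂) (cσ M₁ M₂)) (v : M₁.σ) (w : M₂.σ) (y : M₂.Γ M₂.k₀)
    (S : ∀ k, List (cΓ M₁ M₂ k)) :
    TM2.stepAux (pushReg M₁ M₂ k hk q) (v, w, some y) S =
      TM2.stepAux q (v, w, some y) (update S k (cast hk.symm y :: S k)) := by
  unfold pushReg
  rw [dif_pos ⟨y⟩]
  rfl

/-- the body executed in the first move after the pop -/
noncomputable def body₁ : TM2.Stmt (cΓ M₁ M₂) (cΛ M₁ M₂) (cσ M₁ M₂) :=
  .branch (fun s => s.2.2.isNone) (.goto (fun _ => Sum.inr (Sum.inr true))) <|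
    pushReg M₁ M₂ (Sum.inr (Sum.inr ())) rfl <|
      .load (fun s => (s.1, s.2.1, none)) (.goto (fun _ => Sum.inr (Sum.inr false)))

/-- the body executed in the second move after the pop -/
noncomputable def body₂ : TM2.Stmt (cΓ M₁ M₂) (cΛ M₁ M₂) (cσ M₁ M₂) :=
  .branch (fun s => s.2.2.isNone) (.goto (fun _ => Sum.inr (Sum.inl M₂.main))) <|
    pushReg M₁ M₂ (Sum.inr (Sum.inl M₂.k₀)) rfl <|
      .load (fun s => (s.1, s.2.1, none)) (.goto (fun _ => Sum.inr (Sum.inr true)))

lemma body₁_none (v : M₁.σ) (w : M₂.σ) (S : ∀ k, List (cΓ M₁ M₂ k)) :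
    TM2.stepAux (body₁ M₁ M₂) (v, w, none) S = ⟨some (Sum.inr (Sum.inr true)), (v, w, none), S⟩ :=
  rfl

lemma body₂_none (v : M₁.σ) (w : M₂.σ) (S : ∀ k, List (cΓ M₁ M₂ k)) :
    TM2.stepAux (body₂ M₁ M₂) (v, w, none) S =
      ⟨some (Sum.inr (Sum.inl M₂.main)), (v, w, none), S⟩ :=
  rfl

lemma body₁_some (v : M₁.σ) (w : M₂.σ) (y : M₂.Γ M₂.k₀) (S : ∀ k, List (cΓ M₁ M₂ k)) :
    TM2.stepAux (body₁ M₁ M₂) (v, w, some y) S =
      ⟨some (Sum.inr (Sum.inr false)), (v, w, none),
        update S (Sum.inr (Sum.inr ())) (y :: S (Sum.inr (Sum.inr ())))⟩ :=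
  Eq.trans (b := TM2.stepAux (pushReg M₁ M₂ (Sum.inr (Sum.inr ())) rfl <|
      .load (fun s => (s.1, s.2.1, none)) (.goto (fun _ => Sum.inr (Sum.inr false))))
      (v, w, some y) S) rfl
    ((pushReg_step M₁ M₂ (Sum.inr (Sum.inr ())) rfl _ v w y S).trans rfl)

lemma body₂_some (v : M₁.σ) (w : M₂.σ) (y : M₂.Γ M₂.k₀) (S : ∀ k, List (cΓ M₁ M₂ k)) :
    TM2.stepAux (body₂ M₁ M₂) (v, w, some y) S =
      ⟨some (Sum.inr (Sum.inr true)), (v, w, none),
        update S (Sum.inr (Sum.inl M₂.k₀)) (y :: S (Sum.inr (Sum.inl M₂.k₀)))⟩ :=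
  Eq.trans (b := TM2.stepAux (pushReg M₁ M₂ (Sum.inr (Sum.inl M₂.k₀)) rfl <|
      .load (fun s => (s.1, s.2.1, none)) (.goto (fun _ => Sum.inr (Sum.inr true))))
      (v, w, some y) S) rfl
    ((pushReg_step M₁ M₂ (Sum.inr (Sum.inl M₂.k₀)) rfl _ v w y S).trans rfl)

lemma move₁_step (v : M₁.σ) (w : M₂.σ) (S₁ : ∀ k, List (M₁.Γ k)) (S₂ : ∀ k, List (M₂.Γ k))
    (A : List (M₂.Γ M₂.k₀)) :
    TM2.step (cM M₁ M₂ conv)
      ⟨some (Sum.inr (Sum.inr false)), (v, w, none), cS M₁ M₂ S₁ S₂ A⟩ =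
      some (TM2.stepAux (body₁ M₁ M₂) (v, w, Option.map conv (S₁ M₁.k₁).head?)
        (cS M₁ M₂ (update S₁ M₁.k₁ (S₁ M₁.k₁).tail) S₂ A)) :=
  congrArg some (congrArg (TM2.stepAux (body₁ M₁ M₂) (v, w, Option.map conv (S₁ M₁.k₁).head?))
    (cS_update₁ M₁ M₂ S₁ S₂ A M₁.k₁ (S₁ M₁.k₁).tail))

lemma move₂_step (v : M₁.σ) (w : M₂.σ) (S₁ : ∀ k, List (M₁.Γ k)) (S₂ : ∀ k, List (M₂.Γ k))
    (A : List (M₂.Γ M₂.k₀)) :
    TM2.step (cM M₁ M₂ conv)
      ⟨some (Sum.inr (Sum.inr true)), (v, w, none), cS M₁ M₂ S₁ S₂ A⟩ =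
      some (TM2.stepAux (body₂ M₁ M₂) (v, w, A.head?) (cS M₁ M₂ S₁ S₂ A.tail)) :=
  congrArg some (congrArg (TM2.stepAux (body₂ M₁ M₂) (v, w, A.head?))
    (cS_update₃ M₁ M₂ S₁ S₂ A A.tail))

lemma move₁ (v : M₁.σ) (w : M₂.σ) (x : List (M₁.Γ M₁.k₁)) : ∀ (A : List (M₂.Γ M₂.k₀)),
    stepsN (TM2.step (cM M₁ M₂ conv)) (x.length + 1)
      ⟨some (Sum.inr (Sum.inr false)), (v, w, none), cS M₁ M₂ (single M₁ M₁.k₁ x) (fun _ => []) A⟩
      ⟨some (Sum.inr (Sum.inr true)), (v, w, none),
        cS M₁ M₂ (fun _ => []) (fun _ => []) ((x.map conv).reverse ++ A)⟩ := by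
  induction x with
  | nil =>
    intro A
    apply stepsN_one
    refine (move₁_step M₁ M₂ conv v w _ _ A).trans ?_
    rw [single_self, single_update]
    refine (congrArg some (body₁_none M₁ M₂ v w _)).trans ?_
    simp only [List.map_nil, List.reverse_nil, List.nil_append, List.tail_nil]
    rw [single_nil]
  | cons y x ih =>
    intro A
    have h1 := ih (conv y :: A)
    have e : ((y :: x).map conv).reverse ++ A = (x.map conv).reverse ++ (conv y :: A) := by simp
    rw [e]
    refine stepsN_succ ?_ h1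
    refine (move₁_step M₁ M₂ conv v w _ _ A).trans ?_
    rw [single_self, single_update]
    refine (congrArg some (body₁_some M₁ M₂ v w (conv y) _)).trans ?_
    exact congrArg (fun T => some (⟨some (Sum.inr (Sum.inr false)), (v, w, none), T⟩ :
      TM2.Cfg (cΓ M₁ M₂) (cΛ M₁ M₂) (cσ M₁ M₂)))
      (cS_update₃ M₁ M₂ (single M₁ M₁.k₁ x) (fun _ => []) A (conv y :: A))

lemma move₂ (v : M₁.σ) (w : M₂.σ) (x : List (M₂.Γ M₂.k₀)) : ∀ (B : List (M₂.Γ M₂.k₀)),
    stepsN (TM2.step (cM M₁ M₂ conv)) (x.length + 1)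
      ⟨some (Sum.inr (Sum.inr true)), (v, w, none), cS M₁ M₂ (fun _ => []) (single M₂ M₂.k₀ B) x⟩
      ⟨some (Sum.inr (Sum.inl M₂.main)), (v, w, none),
        cS M₁ M₂ (fun _ => []) (single M₂ M₂.k₀ (x.reverse ++ B)) []⟩ := by
  induction x with
  | nil =>
    intro B
    apply stepsN_one
    exact (move₂_step M₁ M₂ conv v w _ _ []).trans (congrArg some (body₂_none M₁ M₂ v w _))
  | cons y x ih =>
    intro B
    have h1 := ih (y :: B)
    have e : (y :: x).reverse ++ B = x.reverse ++ (y :: B) := by simp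
    rw [e]
    refine stepsN_succ ?_ h1
    refine (move₂_step M₁ M₂ conv v w _ _ (y :: x)).trans ?_
    refine (congrArg some (body₂_some M₁ M₂ v w y _)).trans ?_
    refine (congrArg (fun T => some (⟨some (Sum.inr (Sum.inr true)), (v, w, none), T⟩ :
      TM2.Cfg (cΓ M₁ M₂) (cΛ M₁ M₂) (cσ M₁ M₂)))
      (cS_update₂ M₁ M₂ (fun _ => []) (single M₂ M₂.k₀ B) x M₂.k₀
        (y :: single M₂ M₂.k₀ B M₂.k₀))).trans ?_
    rw [single_self, single_update]

/-- the composed machine -/
noncomputable def composeTM : FinTM2 :=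
  letI := M₁.kFin
  letI := M₂.kFin
  letI := M₁.ΛFin
  letI := M₂.ΛFin
  letI := M₁.σFin
  letI := M₂.σFin
  letI := M₁.Γk₀Fin
  letI := M₂.Γk₀Fin
  letI : Fintype (cΓ M₁ M₂ (Sum.inl M₁.k₀)) := M₁.Γk₀Fin
  { K := M₁.K ⊕ (M₂.K ⊕ Unit)
    k₀ := Sum.inl M₁.k₀
    k₁ := Sum.inr (Sum.inl M₂.k₁)
    Γ := cΓ M₁ M₂
    Λ := cΛ M₁ M₂
    main := Sum.inl M₁.main
    σ := cσ M₁ M₂
    initialState := (M₁.initialState, M₂.initialState, none)
    m := cM M₁ M₂ conv }

lemma initList_eq (M : FinTM2) (w : List (M.Γ M.k₀)) :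
    initList M w = ⟨some M.main, M.initialState, single M M.k₀ w⟩ := by
  unfold initList single
  congr 1
  funext k
  by_cases h : k = M.k₀
  · subst h
    rw [dif_pos rfl]
    exact (update_self (β := fun j => List (M.Γ j)) M.k₀ w (fun _ => [])).symm
  · rw [dif_neg h]
    exact (update_of_ne (β := fun j => List (M.Γ j)) h w (fun _ => [])).symm

lemma haltList_eq (M : FinTM2) (w : List (M.Γ M.k₁)) :
    haltList M w = ⟨none, M.initialState, single M M.k₁ w⟩ := by
  unfold haltList single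
  congr 1
  funext k
  by_cases h : k = M.k₁
  · subst h
    rw [dif_pos rfl]
    exact (update_self (β := fun j => List (M.Γ j)) M.k₁ w (fun _ => [])).symm
  · rw [dif_neg h]
    exact (update_of_ne (β := fun j => List (M.Γ j)) h w (fun _ => [])).symm

lemma compose_init (w : List (M₁.Γ M₁.k₀)) :
    initList (composeTM M₁ M₂ conv) w = emb₁ M₁ M₂ M₂.initialState (initList M₁ w) := by
  refine (initList_eq (composeTM M₁ M₂ conv) w).trans ?_
  rw [initList_eq M₁ w]
  have h := cS_update₁ M₁ M₂ (fun _ => []) (fun _ => []) [] M₁.k₀ w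
  have e : single (composeTM M₁ M₂ conv) (Sum.inl M₁.k₀) w =
      cS M₁ M₂ (single M₁ M₁.k₀ w) (fun _ => []) [] := by
    refine Eq.trans ?_ h
    unfold single
    have e0 : (fun _ => [] : ∀ k, List (cΓ M₁ M₂ k)) = cS M₁ M₂ (fun _ => []) (fun _ => []) [] := by
      funext j
      rcases j with j | j | j <;> rfl
    exact congrArg (fun T => update T (Sum.inl M₁.k₀) w) e0
  exact congrArg (fun T => (⟨some (Sum.inl M₁.main), (M₁.initialState, M₂.initialState, none), T⟩ :
      TM2.Cfg (cΓ M₁ M₂) (cΛ M₁ M₂) (cσ M₁ M₂))) e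

lemma compose_halt (w : List (M₂.Γ M₂.k₁)) :
    haltList (composeTM M₁ M₂ conv) w = emb₂ M₁ M₂ M₁.initialState (haltList M₂ w) := by
  refine (haltList_eq (composeTM M₁ M₂ conv) w).trans ?_
  rw [haltList_eq M₂ w]
  have h := cS_update₂ M₁ M₂ (fun _ => []) (fun _ => []) [] M₂.k₁ w
  have e : single (composeTM M₁ M₂ conv) (Sum.inr (Sum.inl M₂.k₁)) w =
      cS M₁ M₂ (fun _ => []) (single M₂ M₂.k₁ w) [] := by
    refine Eq.trans ?_ h
    unfold single
    have e0 : (fun _ => [] : ∀ k, List (cΓ M₁ M₂ k)) = cS M₁ M₂ (fun _ => []) (fun _ => []) [] := by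
      funext j
      rcases j with j | j | j <;> rfl
    exact congrArg (fun T => update T (Sum.inr (Sum.inl M₂.k₁)) w) e0
  exact congrArg (fun T => (⟨none, (M₁.initialState, M₂.initialState, none), T⟩ :
      TM2.Cfg (cΓ M₁ M₂) (cΛ M₁ M₂) (cσ M₁ M₂))) e

/-- a run of the composed machine -/
theorem compose_run {x : List (M₁.Γ M₁.k₀)} {y : List (M₁.Γ M₁.k₁)} {z : List (M₂.Γ M₂.k₁)}
    {t₁ t₂ : ℕ}
    (h₁ : stepsN (TM2.step M₁.m) t₁ (initList M₁ x) (haltList M₁ y))
    (h₂ : stepsN (TM2.step M₂.m) t₂ (initList M₂ (y.map conv)) (haltList M₂ z)) :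
    stepsN (TM2.step (cM M₁ M₂ conv)) (t₁ + ((y.length + 1) + ((y.length + 1) + t₂)))
      (initList (composeTM M₁ M₂ conv) x) (haltList (composeTM M₁ M₂ conv) z) := by
  rw [compose_init, compose_halt]
  have a1 := stepsN_map (emb₁ M₁ M₂ M₂.initialState)
    (fun a b hab => step₁ M₁ M₂ conv M₂.initialState hab) t₁ h₁
  have a4 := stepsN_map (emb₂ M₁ M₂ M₁.initialState)
    (fun a b hab => step₂ M₁ M₂ conv M₁.initialState hab) t₂ h₂
  have a2 := move₁ M₁ M₂ conv M₁.initialState M₂.initialState y []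
  have a3 := move₂ M₁ M₂ conv M₁.initialState M₂.initialState (y.map conv).reverse []
  simp only [List.append_nil, List.length_reverse, List.length_map, List.reverse_reverse] at a2 a3
  have e1 : emb₁ M₁ M₂ M₂.initialState (haltList M₁ y) =
      ⟨some (Sum.inr (Sum.inr false)), (M₁.initialState, M₂.initialState, none),
        cS M₁ M₂ (single M₁ M₁.k₁ y) (fun _ => []) []⟩ := by
    rw [haltList_eq]
    rfl
  have e2 : emb₂ M₁ M₂ M₁.initialState (initList M₂ (y.map conv)) =
      ⟨some (Sum.inr (Sum.inl M₂.main)), (M₁.initialState, M₂.initialState, none),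
        cS M₁ M₂ (fun _ => []) (single M₂ M₂.k₀ (y.map conv)) []⟩ := by
    rw [initList_eq]
    rfl
  rw [e1] at a1
  rw [e2] at a4
  have e3 : single M₂ M₂.k₀ ([] : List (M₂.Γ M₂.k₀)) = fun _ => [] := single_nil M₂ M₂.k₀
  rw [e3] at a3
  exact stepsN_trans a1 (stepsN_trans a2 (stepsN_trans a3 a4))

end compose

/-- Polynomial-time computable functions are closed under composition. -/
theorem TM2_comp {α β γ αΓ βΓ γΓ : Type} {eα : α → List αΓ} {eβ : β → List βΓ}
    {eγ : γ → List γΓ} {f : α → β} {g : β → γ} (h1 : TM2ComputableInPolyTime eα eβ f)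
    (h2 : TM2ComputableInPolyTime eβ eγ g) :
    Nonempty (TM2ComputableInPolyTime eα eγ (g ∘ f)) := by
  let M₁ := h1.tm
  let M₂ := h2.tm
  let conv : M₁.Γ M₁.k₁ → M₂.Γ M₂.k₀ := fun x => h2.inputAlphabet.symm (h1.outputAlphabet x)
  let iF : Fintype M₁.Λ := M₁.ΛFin
  let G : Polynomial ℕ := Polynomial.C (growth M₁.m)
  refine ⟨{ tm := composeTM M₁ M₂ conv
            inputAlphabet := h1.inputAlphabet
            outputAlphabet := h2.outputAlphabet
            time := h1.time + (2 * (Polynomial.X + G * h1.time + 1) +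
              h2.time.comp (Polynomial.X + G * h1.time))
            outputsFun := fun a => ?_ }⟩
  have r1 := h1.outputsFun a
  have r2 := h2.outputsFun (f a)
  obtain ⟨⟨t1, s1⟩, b1⟩ := r1
  obtain ⟨⟨t2, s2⟩, b2⟩ := r2
  have c1 : stepsN (TM2.step M₁.m) t1 (initList M₁ (List.map h1.inputAlphabet.invFun (eα a)))
      (haltList M₁ (List.map h1.outputAlphabet.invFun (eβ (f a)))) := s1
  have c2 : stepsN (TM2.step M₂.m) t2 (initList M₂ (List.map h2.inputAlphabet.invFun (eβ (f a))))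
      (haltList M₂ (List.map h2.outputAlphabet.invFun (eγ (g (f a))))) := s2
  have e : (List.map h1.outputAlphabet.invFun (eβ (f a))).map conv =
      List.map h2.inputAlphabet.invFun (eβ (f a)) := by
    rw [List.map_map]
    apply List.map_congr_left
    intro x _
    simp [conv]
  rw [← e] at c2
  have c := compose_run M₁ M₂ conv c1 c2
  have hlen : (eβ (f a)).length ≤ (eα a).length + growth M₁.m * h1.time.eval (eα a).length := by
    have h3 := stepsN_length M₁.m t1 c1 M₁.k₁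
    have h4 : (haltList M₁ (List.map h1.outputAlphabet.invFun (eβ (f a)))).stk M₁.k₁ =
        List.map h1.outputAlphabet.invFun (eβ (f a)) := by
      rw [haltList_eq]
      exact single_self _ _ _
    have h5 : ((initList M₁ (List.map h1.inputAlphabet.invFun (eα a))).stk M₁.k₁).length ≤
        (eα a).length := by
      rw [initList_eq]
      exact (single_length_le M₁ M₁.k₀ M₁.k₁ _).trans (by simp)
    rw [h4] at h3
    have h6 : growth M₁.m * t1 ≤ growth M₁.m * h1.time.eval (eα a).length :=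
      Nat.mul_le_mul_left _ b1
    simp only [List.length_map] at h3
    omega
  simp only [List.length_map] at c
  have b2' : t2 ≤ h2.time.eval ((eα a).length + growth M₁.m * h1.time.eval (eα a).length) :=
    le_trans b2 (evalMono h2.time hlen)
  refine ⟨⟨_, c⟩, ?_⟩
  have b1' : t1 ≤ h1.time.eval (eα a).length := b1
  simp only [G, Polynomial.eval_add, Polynomial.eval_mul, Polynomial.eval_comp, Polynomial.eval_X,
    Polynomial.eval_C, Polynomial.eval_one, Polynomial.eval_ofNat]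
  omega

end Pool.Agent.Lib.helper60
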