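import Pool.Agent.Lib.helper60.PT

/-!
From polynomial-time functions on encoded data to `Turing.TM2ComputableInPolyTime`.
-/

set_option autoImplicit false

namespace Pool.Agent.Lib.helper60

open Function Turing

/-- conversion of a raw bit string into the code of the corresponding list -/
def convIn : Prog R :=
  transfer .m .a ++ (.push .m false ++
    .loop .a (.push .m false ++ .push .m true)
      (.push .m false ++ (.push .m false ++ (.push .m true ++ .push .m true))))

lemma convIn_loop (w : List Bool) : ∀ (v : List Bool),
    Runs (.loop .a (.push .m false ++ .push .m true)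
      (.push .m false ++ (.push .m false ++ (.push .m true ++ .push .m true))))
      (st (toD v).enc w [] []) (5 * w.length + 1) (st (toD (w.reverse ++ v)).enc [] [] []) := by
  induction w with
  | nil => intro v; exact Runs.loopN rfl
  | cons b w ih =>
    intro v
    have h1 := ih (b :: v)
    cases b with
    | false =>
      have h2 : Runs (.push R.m false ++ .push R.m true) (st (toD v).enc w [] []) 2
          (st (toD (false :: v)).enc w [] []) := by
        have := (Runs.push R.m false (st (toD v).enc w [] [])).seq (Runs.push R.m true _)
        simpa [D.enc] using this
      have h3 := Runs.loopF (k := R.a) (S := st (toD v).enc (false :: w) [] [])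
        (pT := (.push R.m false ++ (.push R.m false ++ (.push R.m true ++ .push R.m true))))
        (l := w) rfl (by simpa using h2) h1
      refine Runs.mono (t := _) (by simpa using h3) ?_
      simp
      omega
    | true =>
      have h2 : Runs (.push R.m false ++ (.push R.m false ++ (.push R.m true ++ .push R.m true)))
          (st (toD v).enc w [] []) 4 (st (toD (true :: v)).enc w [] []) := by
        have := (Runs.push R.m false (st (toD v).enc w [] [])).seq
          ((Runs.push R.m false _).seq ((Runs.push R.m true _).seq (Runs.push R.m true _)))
        simpa [D.enc] using this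
      have h3 := Runs.loopT (k := R.a) (S := st (toD v).enc (true :: w) [] [])
        (pF := (.push R.m false ++ .push R.m true))
        (l := w) rfl (by simpa using h2) h1
      refine Runs.mono (t := _) (by simpa using h3) ?_
      simp
      omega

lemma convIn_runs (w : List Bool) :
    Runs convIn (st w [] [] []) (7 * w.length + 3) (st (toD w).enc [] [] []) := by
  have h1 := transfer_runs .m .a (by decide) w (st w [] [] []) rfl
  have h2 := Runs.push R.m false (st [] w.reverse [] [])
  have h3 := convIn_loop w.reverse []
  have h4 := h1.seq (t' := _) (S'' := _) ((by simpa [D.enc] using h2 :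
    Runs (.push R.m false) (update (update (st w [] [] []) R.m []) R.a
      (w.reverse ++ (st w [] [] []) R.a)) 1 (st (toD ([] : List Bool)).enc w.reverse [] [])).seq h3)
  refine Runs.mono (by simpa [convIn] using h4) ?_
  omega

/-- body of the output conversion -/
def convOutBody : Prog R :=
  .popCase .m .skip .skip
    (.push .b true ++ .popCase .m .skip (.push .a false)
      (.popCase .m .skip (.popCase .m .skip (.push .a true) .skip) .skip))

/-- conversion of the code of a list of bits into the raw bit string -/
def convOut : Prog R :=
  .push .b true ++ (.loop .b .skip convOutBody ++ transfer .a .m)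

lemma convOut_loop : ∀ (w a : List Bool),
    Runs (.loop .b .skip convOutBody) (st (toD w).enc a [true] []) (7 * w.length + 4)
      (st [] (w.reverse ++ a) [] [])
  | [], a => by
    have h1 : Runs convOutBody (st (toD ([] : List Bool)).enc a [] []) 2 (st [] a [] []) :=
      Runs.popF (k := R.m) (l := []) rfl (by simpa using Runs.skip _)
    have h2 := Runs.loopT (k := R.b) (pF := .skip) (S := st (toD ([] : List Bool)).enc a [true] [])
      (l := []) rfl (by simpa using h1) (Runs.loopN rfl)
    exact h2
  | false :: w, a => by
    have h0 := convOut_loop w (false :: a)
    have h1 := Runs.push R.b true (st (false :: (toD w).enc) a [] [])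
    have h2 : Runs (.popCase .m .skip (.push .a false)
      (.popCase .m .skip (.popCase .m .skip (.push .a true) .skip) .skip))
      (st (false :: (toD w).enc) a [true] []) 2 (st (toD w).enc (false :: a) [true] []) :=
      Runs.popF (k := R.m) (l := (toD w).enc) rfl
        (by simpa using Runs.push R.a false (st (toD w).enc a [true] []))
    have h3 : Runs convOutBody (st (toD (false :: w)).enc a [] []) 4
        (st (toD w).enc (false :: a) [true] []) :=
      Runs.popT (k := R.m) (l := false :: (toD w).enc) (by simp [D.enc])
        (by simpa using h1.seq (t' := 2) (by simpa using h2))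
    have h4 := Runs.loopT (k := R.b) (pF := .skip) (S := st (toD (false :: w)).enc a [true] [])
      (l := []) rfl (by simpa using h3) h0
    refine Runs.mono (t := _) (by simpa using h4) ?_
    simp
    omega
  | true :: w, a => by
    have h0 := convOut_loop w (true :: a)
    have h1 := Runs.push R.b true (st (true :: false :: false :: (toD w).enc) a [] [])
    have h2 : Runs (.popCase .m .skip (.push .a true) .skip)
      (st (false :: (toD w).enc) a [true] []) 2 (st (toD w).enc (true :: a) [true] []) :=
      Runs.popF (k := R.m) (l := (toD w).enc) rfl
        (by simpa using Runs.push R.a true (st (toD w).enc a [true] []))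
    have h2' : Runs (.popCase .m .skip (.popCase .m .skip (.push .a true) .skip) .skip)
      (st (false :: false :: (toD w).enc) a [true] []) 3 (st (toD w).enc (true :: a) [true] []) :=
      Runs.popF (k := R.m) (l := false :: (toD w).enc) rfl (by simpa using h2)
    have h2'' : Runs (.popCase .m .skip (.push .a false)
      (.popCase .m .skip (.popCase .m .skip (.push .a true) .skip) .skip))
      (st (true :: false :: false :: (toD w).enc) a [true] []) 4
        (st (toD w).enc (true :: a) [true] []) :=
      Runs.popT (k := R.m) (l := false :: false :: (toD w).enc) rfl (by simpa using h2')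
    have h3 : Runs convOutBody (st (toD (true :: w)).enc a [] []) 6
        (st (toD w).enc (true :: a) [true] []) :=
      Runs.popT (k := R.m) (l := true :: false :: false :: (toD w).enc) (by simp [D.enc])
        (by simpa using h1.seq (t' := 4) (by simpa using h2''))
    have h4 := Runs.loopT (k := R.b) (pF := .skip) (S := st (toD (true :: w)).enc a [true] [])
      (l := []) rfl (by simpa using h3) h0
    refine Runs.mono (t := _) (by simpa using h4) ?_
    simp
    omega

lemma convOut_runs (w : List Bool) :
    Runs convOut (st (toD w).enc [] [] []) (9 * w.length + 6) (st w [] [] []) := by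
  have h1 := Runs.push R.b true (st (toD w).enc [] [] [])
  have h2 := convOut_loop w []
  have h3 := transfer_am (w.reverse ++ []) [] [] []
  have h4 := h1.seq (t' := _) (S'' := _) ((by simpa using h2 :
    Runs (.loop .b .skip convOutBody) (update (st (toD w).enc [] [] []) R.b
      (true :: (st (toD w).enc [] [] []) R.b)) _ (st [] (w.reverse ++ []) [] [])).seq h3)
  refine Runs.mono (by simpa [convOut] using h4) ?_
  omega

lemma tsize_bits_le (w : List Bool) : tsize w ≤ 4 * w.length + 1 := by
  induction w with
  | nil => simp
  | cons b w ih =>
    have := tsize_bool_le b
    simp only [tsize_cons, List.length_cons]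
    omega

lemma length_le_tsize {α : Type} [DEnc α] (w : List α) : w.length ≤ tsize w := by
  induction w with
  | nil => simp
  | cons b w ih => simp only [tsize_cons, List.length_cons]; omega

/-- **Polynomial-time functions on bit strings are computed by Turing machines in polynomial
time** (Mathlib's `Turing.TM2ComputableInPolyTime`). -/
theorem PT.toTM2 {α β : Type} {ea : α → List Bool} {eb : β → List Bool} {f : α → β}
    {F : List Bool → List Bool} (hF : PT F) (h : ∀ a, F (ea a) = eb (f a)) :
    Nonempty (TM2ComputableInPolyTime ea eb f) := by
  have hsz := hF.size
  obtain ⟨p, t, ⟨P, hP⟩, hp⟩ := hF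
  obtain ⟨Q, hQ⟩ := hsz
  -- total time
  let lin : Polynomial ℕ := 4 * Polynomial.X + 1
  let T : Polynomial ℕ := (7 * Polynomial.X + 3) + (P.comp lin + (9 * Q.comp lin + 6)) + 1
  have key : ∀ a, Nonempty (TM2OutputsInTime (machine R.m R.m (convIn ++ (p ++ convOut)))
      (ea a) (some (eb (f a))) (T.eval (ea a).length)) := by
    intro a
    have h1 := convIn_runs (ea a)
    have h2 := hp (ea a) []
    have h3 := convOut_runs (F (ea a))
    simp only [List.append_nil] at h2
    have h4 := h1.seq (h2.seq h3)
    rw [h a] at h4
    have hlin : tsize (ea a) ≤ lin.eval (ea a).length := by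
      simpa [lin] using tsize_bits_le (ea a)
    have h5 : t (ea a) ≤ (P.comp lin).eval (ea a).length := by
      rw [Polynomial.eval_comp]
      exact (hP _).trans (evalMono P hlin)
    have h6 : (eb (f a)).length ≤ (Q.comp lin).eval (ea a).length := by
      rw [Polynomial.eval_comp, ← h a]
      exact (length_le_tsize _).trans ((hQ _).trans (evalMono Q hlin))
    have h7 : Runs (convIn ++ (p ++ convOut)) (only R.m (ea a))
        ((7 * (ea a).length + 3) + ((P.comp lin).eval (ea a).length +
          (9 * (Q.comp lin).eval (ea a).length + 6))) (only R.m (eb (f a))) := by
      rw [← st_only, ← st_only]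
      exact h4.mono (by omega)
    have h8 := machine_runs R.m R.m _ h7
    have h9 : T.eval (ea a).length = ((7 * (ea a).length + 3) + ((P.comp lin).eval (ea a).length +
          (9 * (Q.comp lin).eval (ea a).length + 6))) + 1 := by
      simp [T]
    rw [h9]
    exact h8
  have key2 : ∀ (a : α) (u v : List Bool), u = ea a → v = eb (f a) →
      Nonempty (TM2OutputsInTime (machine R.m R.m (convIn ++ (p ++ convOut)))
        u (some v) (T.eval (ea a).length)) := by
    rintro a u v rfl rfl
    exact key a
  exact ⟨{ tm := machine R.m R.m (convIn ++ (p ++ convOut))
           inputAlphabet := Equiv.refl Bool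
           outputAlphabet := Equiv.refl Bool
           time := T
           outputsFun := fun a => (key2 a _ _ (List.map_id _) (List.map_id _)).some }⟩

end Pool.Agent.Lib.helper60
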