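import Pool.Agent.Lib.helper60.PNP
import Pool.Agent.Lib.helper60.PTLib
import Pool.Agent.Lib.helper60.ToTM2
import Pool.Agent.Lib.helper60.Compose

/-!
Tools for membership in NP, and the inclusion of P in NP.
-/

set_option autoImplicit false

namespace Pool.Agent.Lib.helper60

open Turing Computability

/-! ### decoding pairs -/

/-- state of the pair parser: mode, stored bit, two outputs (reversed) -/
abbrev UState := ℕ × Bool × List Bool × List Bool

/-- one step of the pair parser -/
def ustep (s : UState) (b : Bool) : UState :=
  if s.1 = 0 then (1, b, s.2.2.1, s.2.2.2)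
  else if s.1 = 1 then (bif s.2.1 then (0, false, true :: s.2.2.1, s.2.2.2)
    else (bif b then (2, false, s.2.2.1, s.2.2.2) else (0, false, false :: s.2.2.1, s.2.2.2)))
  else (2, false, s.2.2.1, b :: s.2.2.2)

/-- the pair parser -/
def unpair (w : List Bool) : List Bool × List Bool :=
  ((w.foldl ustep (0, false, [], [])).2.2.1.reverse,
    (w.foldl ustep (0, false, [], [])).2.2.2.reverse)

lemma unpair_aux2 (c : List Bool) : ∀ (x y : List Bool),
    c.foldl ustep (2, false, x, y) = (2, false, x, c.reverse ++ y) := by
  induction c with
  | nil => intro x y; rfl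
  | cons b c ih =>
    intro x y
    have h : ustep (2, false, x, y) b = (2, false, x, b :: y) := by simp [ustep]
    rw [List.foldl_cons, h, ih]
    simp

lemma unpair_aux1 (w c : List Bool) : ∀ (x : List Bool),
    (w.flatMap (fun b => [b, b]) ++ ([false, true] ++ c)).foldl ustep (0, false, x, []) =
      (2, false, w.reverse ++ x, c.reverse) := by
  induction w with
  | nil =>
    intro x
    have h1 : ustep (0, false, x, []) false = (1, false, x, []) := by simp [ustep]
    have h2 : ustep (1, false, x, []) true = (2, false, x, []) := by simp [ustep]
    simp only [List.flatMap_nil, List.nil_append, List.cons_append, List.foldl_cons, h1, h2,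
      List.reverse_nil]
    rw [unpair_aux2]
    simp
  | cons b w ih =>
    intro x
    have h1 : ustep (0, false, x, []) b = (1, b, x, []) := by simp [ustep]
    have h2 : ustep (1, b, x, []) b = (0, false, b :: x, []) := by cases b <;> simp [ustep]
    rw [List.flatMap_cons]
    simp only [List.cons_append, List.nil_append, List.foldl_cons, h1, h2]
    simp only [List.cons_append, List.nil_append] at ih
    rw [ih]
    simp

lemma unpair_enc (p : List Bool × List Bool) : unpair (encPair p) = p := by
  obtain ⟨w, c⟩ := p
  unfold unpair encPair
  rw [unpair_aux1]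
  simp

theorem PT_unpair : PT unpair := by
  unfold unpair
  have hs : PT (fun z : List Bool × UState × Bool => ustep z.2.1 z.2.2) := by
    unfold ustep
    have s : PT (fun z : List Bool × UState × Bool => z.2.1) := PT.snd.p1
    have b : PT (fun z : List Bool × UState × Bool => z.2.2) := PT.snd.p2
    refine PT.ite (PT.neq s.p1 (PT.const 0)) ?_ (PT.ite (PT.neq s.p1 (PT.const 1)) ?_ ?_)
    · exact PT.pair (PT.const 1) (PT.pair b s.p2.p2)
    · refine PT.cond s.p2.p1 ?_ (PT.cond b ?_ ?_)
      · exact PT.pair (PT.const 0) (PT.pair (PT.const false) (PT.pair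
          (PT.cons (PT.const true) s.p2.p2.p1) s.p2.p2.p2))
      · exact PT.pair (PT.const 2) (PT.pair (PT.const false) s.p2.p2)
      · exact PT.pair (PT.const 0) (PT.pair (PT.const false) (PT.pair
          (PT.cons (PT.const false) s.p2.p2.p1) s.p2.p2.p2))
    · exact PT.pair (PT.const 2) (PT.pair (PT.const false) (PT.pair s.p2.p2.p1
        (PT.cons b s.p2.p2.p2)))
  have hf := PT.foldl_lin (init := fun _ : List Bool => ((0, false, [], []) : UState)) PT.id
    (PT.const _) hs 12 (by
      rintro x ⟨mode, bit, u, v⟩ b
      have hb := tsize_bool_le b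
      have hb1 := tsize_pos bit
      have hb2 := tsize_pos b
      have e1 : tsize true = 3 := rfl
      have e2 : tsize false = 1 := rfl
      unfold ustep
      simp only [tsize_pair, tsize_nat]
      split_ifs
      · simp only [tsize_pair, tsize_nat]
        omega
      · cases bit
        · cases b
          · simp only [cond_false, tsize_pair, tsize_nat, tsize_cons, e2]
            omega
          · simp only [cond_true, cond_false, tsize_pair, tsize_nat, e2]
            omega
        · simp only [cond_true, tsize_pair, tsize_nat, tsize_cons, e1, e2]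
          omega
      · simp only [tsize_pair, tsize_nat, tsize_cons, e2]
        omega)
  exact PT.pair (PT.reverse hf.p2.p2.p1) (PT.reverse hf.p2.p2.p2)

/-! ### machines for predicates -/

lemma tsize_encodeBool (b : Bool) : encodeBool b = [b] := rfl

/-- a polynomial-time predicate on raw strings -/
theorem PT.decider {α : Type} {ea : α → List Bool} {f : α → Bool} {F : List Bool → Bool}
    (hF : PT F) (h : ∀ a, F (ea a) = f a) :
    Nonempty (TM2ComputableInPolyTime ea encodeBool f) :=
  PT.toTM2 (F := fun w => [F w]) (PT.cons hF (PT.const [])) (fun a => by rw [h a]; rfl)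

/-- a verifier given by a polynomial-time function of the pair -/
theorem PT.verifier {V : List Bool × List Bool → Bool} (hV : PT V) :
    Nonempty (TM2ComputableInPolyTime encPair encodeBool V) :=
  PT.decider (F := fun w => V (unpair w)) (hV.comp PT_unpair) (fun p => by rw [unpair_enc])

/-- a machine on raw strings yields a machine on encoded objects -/
def TM2_precomp {α β αΓ βΓ : Type} {ea : α → List αΓ} {eb : β → List βΓ} {f : List αΓ → β}
    (h : TM2ComputableInPolyTime (fun w : List αΓ => w) eb f) :
    TM2ComputableInPolyTime ea eb (fun a => f (ea a)) where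
  toTM2ComputableAux := h.toTM2ComputableAux
  time := h.time
  outputsFun := fun a => h.outputsFun (ea a)

/-- P is contained in NP -/
theorem InP.inNP {L : Set (List Bool)} (h : InP L) : InNP L := by
  obtain ⟨d, ⟨hd⟩, hL⟩ := h
  refine ⟨fun p => d p.1, 0, ?_, ?_⟩
  · have h1 : Nonempty (TM2ComputableInPolyTime encPair (fun w : List Bool => w)
        (fun p : List Bool × List Bool => p.1)) :=
      PT.toTM2 (F := fun w => (unpair w).1) PT_unpair.p1 (fun p => by rw [unpair_enc])
    obtain ⟨h1⟩ := h1
    exact TM2_comp h1 hd
  · intro w
    rw [hL w]
    constructor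
    · intro h
      exact ⟨[], by simp, h⟩
    · rintro ⟨c, _, h⟩
      exact h

end Pool.Agent.Lib.helper60
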