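import Pool.Agent.Lib.helper60.NPLib

/-!
Reading numbers and matrices from bit strings.
-/

set_option autoImplicit false

namespace Pool.Agent.Lib.helper60

open Turing Computability

/-! ### leading ones -/

/-- step of the counter of leading ones -/
def onesStep (s : Bool × ℕ) (b : Bool) : Bool × ℕ :=
  bif s.1 && b then (true, s.2 + 1) else (false, s.2)

/-- number of leading ones -/
def ones (w : List Bool) : ℕ := (w.foldl onesStep (true, 0)).2

lemma ones_aux_false (w : List Bool) : ∀ n, w.foldl onesStep (false, n) = (false, n) := by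
  induction w with
  | nil => intro n; rfl
  | cons b w ih => intro n; simp [onesStep, ih]

lemma ones_aux (k : ℕ) (w : List Bool) : ∀ n,
    (List.replicate k true ++ false :: w).foldl onesStep (true, n) = (false, n + k) := by
  induction k with
  | zero => intro n; simp [onesStep, ones_aux_false]
  | succ k ih =>
    intro n
    have h : onesStep (true, n) true = (true, n + 1) := by simp [onesStep]
    rw [List.replicate_succ, List.cons_append, List.foldl_cons, h, ih]
    simp only [Prod.mk.injEq, true_and]
    omega

lemma ones_replicate (k : ℕ) (w : List Bool) :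
    ones (List.replicate k true ++ false :: w) = k := by
  unfold ones
  rw [ones_aux]
  simp

lemma drop_ones (k : ℕ) (w : List Bool) :
    (List.replicate k true ++ false :: w).drop (k + 1) = w := by
  have h : (List.replicate k true ++ false :: w) = (List.replicate k true ++ [false]) ++ w := by
    simp
  rw [h]
  exact List.drop_left' (by simp)

theorem PT_ones {α : Type} [DEnc α] {f : α → List Bool} (hf : PT f) :
    PT (fun a => ones (f a)) := by
  unfold ones
  have hs : PT (fun z : α × (Bool × ℕ) × Bool => onesStep z.2.1 z.2.2) := by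
    unfold onesStep
    exact PT.cond (PT.band PT.snd.p1.p1 PT.snd.p2) (PT.pair (PT.const true) (PT.nsucc PT.snd.p1.p2))
      (PT.pair (PT.const false) PT.snd.p1.p2)
  have h := PT.foldl_lin (init := fun _ : α => ((true, 0) : Bool × ℕ)) hf (PT.const _) hs 5 (by
    rintro x ⟨s, n⟩ b
    have h1 := tsize_pos s
    have e1 : tsize true = 3 := rfl
    have e2 : tsize false = 1 := rfl
    unfold onesStep
    simp only
    cases (s && b)
    · simp only [cond_false, tsize_pair, tsize_nat, e2]
      omega
    · simp only [cond_true, tsize_pair, tsize_nat, e1]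
      omega)
  exact h.p2

/-! ### matrices of bits -/

/-- square matrix of bits, row by row -/
def bitMat (n : ℕ) (f : Fin n → Fin n → Bool) : List Bool :=
  (List.ofFn fun i : Fin n => List.ofFn fun j : Fin n => f i j).flatten

lemma bitMat_eq (n : ℕ) (f : Fin n → Fin n → Bool) :
    bitMat n f = List.ofFn (fun t : Fin (n * n) => f t.divNat t.modNat) := by
  unfold bitMat
  rw [List.ofFn_mul]
  congr 1
  congr 1
  funext i
  congr 1
  funext j
  have hn : 0 < n := lt_of_le_of_lt (Nat.zero_le _) i.isLt
  congr 1
  · apply Fin.ext
    simp only [Fin.coe_divNat]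
    rw [mul_comm, Nat.mul_add_div hn, Nat.div_eq_of_lt j.isLt, add_zero]
  · apply Fin.ext
    simp only [Fin.coe_modNat]
    rw [mul_comm, Nat.mul_add_mod, Nat.mod_eq_of_lt j.isLt]

lemma bitMat_length (n : ℕ) (f : Fin n → Fin n → Bool) : (bitMat n f).length = n * n := by
  rw [bitMat_eq]
  simp

lemma bitMat_getD (n : ℕ) (f : Fin n → Fin n → Bool) (i j : Fin n) (w : List Bool) :
    (bitMat n f ++ w).getD (n * i.val + j.val) false = f i j := by
  have hlt : n * i.val + j.val < n * n := by
    have h1 := i.isLt
    have h2 := j.isLt
    nlinarith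
  have h1 : (bitMat n f ++ w).getD (n * i.val + j.val) false =
      (bitMat n f).getD (n * i.val + j.val) false := by
    rw [List.getD_append _ _ _ _ (by rw [bitMat_length]; exact hlt)]
  rw [h1]
  have hn : 0 < n := lt_of_le_of_lt (Nat.zero_le _) i.isLt
  rw [bitMat_eq, List.getD_eq_getElem _ _ (by simpa using hlt), List.getElem_ofFn]
  have e1 : (⟨n * i.val + j.val, hlt⟩ : Fin (n * n)).divNat = i := by
    apply Fin.ext
    simp only [Fin.coe_divNat]
    rw [Nat.mul_add_div hn, Nat.div_eq_of_lt j.isLt, add_zero]
  have e2 : (⟨n * i.val + j.val, hlt⟩ : Fin (n * n)).modNat = j := by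
    apply Fin.ext
    simp only [Fin.coe_modNat]
    rw [Nat.mul_add_mod, Nat.mod_eq_of_lt j.isLt]
  rw [e1, e2]

lemma bitMat_getD' (n : ℕ) (f : Fin n → Fin n → Bool) (i j : Fin n) :
    (bitMat n f).getD (n * i.val + j.val) false = f i j := by
  have := bitMat_getD n f i j []
  rwa [List.append_nil] at this

lemma append_getD_right (l w : List Bool) (n k : ℕ) (h : l.length = n) :
    (l ++ w).getD (n + k) false = w.getD k false := by
  rw [List.getD_append_right _ _ _ _ (by omega), h]
  congr 1
  omega

lemma ofFn_getD {n : ℕ} (f : Fin n → Bool) (i : Fin n) (w : List Bool) :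
    (List.ofFn f ++ w).getD i.val false = f i := by
  rw [List.getD_append _ _ _ _ (by simp), List.getD_eq_getElem _ _ (by simp), List.getElem_ofFn]

lemma ofFn_getD' {n : ℕ} (f : Fin n → Bool) (i : Fin n) :
    (List.ofFn f).getD i.val false = f i := by
  rw [List.getD_eq_getElem _ _ (by simp), List.getElem_ofFn]

/-! ### elimination of quantifiers under P = NP -/

/-- negation of a decider -/
theorem TM2_not {α : Type} {ea : α → List Bool} {d : α → Bool}
    (hd : Nonempty (TM2ComputableInPolyTime ea encodeBool d)) :
    Nonempty (TM2ComputableInPolyTime ea encodeBool (fun a => !d a)) := by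
  obtain ⟨hd⟩ := hd
  have h1 : Nonempty (TM2ComputableInPolyTime encodeBool encodeBool (fun b : Bool => !b)) :=
    PT.decider (F := fun w : List Bool => !(w.getD 0 false))
      (PT.bnot (PT.getD PT.id (PT.const 0) (PT.const false))) (fun b => by cases b <;> rfl)
  obtain ⟨h1⟩ := h1
  exact TM2_comp hd h1

/-- Under P = NP, a quantifier in front of a decidable predicate can be eliminated. -/
theorem exists_elim (h : ∀ L : Set (List Bool), InNP L → InP L) (R : List Bool × List Bool → Bool)
    (p : Polynomial ℕ) (hR : Nonempty (TM2ComputableInPolyTime encPair encodeBool R)) :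
    ∃ d : List Bool → Bool,
      Nonempty (TM2ComputableInPolyTime (fun w : List Bool => w) encodeBool d) ∧
      ∀ w, d w = true ↔ ∃ c : List Bool, c.length ≤ p.eval w.length ∧ R (w, c) = true := by
  obtain ⟨d, hd, hdL⟩ := h {w | ∃ c : List Bool, c.length ≤ p.eval w.length ∧ R (w, c) = true}
    ⟨R, p, hR, fun w => Iff.rfl⟩
  exact ⟨d, hd, fun w => (hdL w).symm⟩

/-- Under P = NP, a negated decider on pairs can be used as a verifier. -/
theorem verifier_of_not {d : List Bool → Bool}
    (hd : Nonempty (TM2ComputableInPolyTime (fun w : List Bool => w) encodeBool d)) :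
    Nonempty (TM2ComputableInPolyTime encPair encodeBool (fun p => !d (encPair p))) := by
  obtain ⟨hd⟩ := hd
  exact TM2_not ⟨TM2_precomp (ea := encPair) hd⟩

end Pool.Agent.Lib.helper60
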