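import Pool.Agent.Lib.helper60.CNF
import Pool.Agent.Lib.helper60.PTLib

/-!
Parsing the code of a formula in polynomial time.
-/

set_option autoImplicit false

namespace Pool.Agent.Lib.helper60

/-! ### parsing -/

/-- parser state: mode, unary counter, literals of the current clause, finished clauses -/
abbrev PState := ℕ × ℕ × List Lit × CNF

/-- one step of the parser -/
def pstep (s : PState) (b : Bool) : PState :=
  if s.1 = 0 then (bif b then (1, 0, s.2.2.1, s.2.2.2) else (0, 0, [], s.2.2.1.reverse :: s.2.2.2))
  else if s.1 = 1 then (bif b then (1, s.2.1 + 1, s.2.2.1, s.2.2.2)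
    else (2, s.2.1, s.2.2.1, s.2.2.2))
  else (0, 0, (s.2.1, b) :: s.2.2.1, s.2.2.2)

/-- the parser -/
def parse (w : List Bool) : CNF := (w.foldl pstep (0, 0, [], [])).2.2.2.reverse

lemma parse_unary (k : ℕ) : ∀ (i : ℕ) (cur : List Lit) (don : CNF) (w : List Bool),
    (List.replicate k true ++ w).foldl pstep (1, i, cur, don) =
      w.foldl pstep (1, i + k, cur, don) := by
  induction k with
  | zero => intro i cur don w; rfl
  | succ k ih =>
    intro i cur don w
    rw [List.replicate_succ, List.cons_append, List.foldl_cons]
    have : pstep (1, i, cur, don) true = (1, i + 1, cur, don) := by simp [pstep]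
    rw [this, ih, show i + 1 + k = i + (k + 1) by ring]

lemma parse_lits (c : List Lit) : ∀ (cur : List Lit) (don : CNF) (w : List Bool),
    (c.flatMap (fun l => true :: (List.replicate l.1 true ++ [false, l.2])) ++ w).foldl pstep
      (0, 0, cur, don) = w.foldl pstep (0, 0, c.reverse ++ cur, don) := by
  induction c with
  | nil => intro cur don w; rfl
  | cons l c ih =>
    intro cur don w
    simp only [List.flatMap_cons, List.cons_append, List.append_assoc, List.foldl_cons]
    have h1 : pstep (0, 0, cur, don) true = (1, 0, cur, don) := by simp [pstep]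
    rw [h1, parse_unary]
    simp only [List.nil_append, List.foldl_cons, zero_add]
    have h2 : pstep (1, l.1, cur, don) false = (2, l.1, cur, don) := by simp [pstep]
    have h3 : pstep (2, l.1, cur, don) l.2 = (0, 0, l :: cur, don) := by simp [pstep]
    rw [h2, h3, ih]
    simp

lemma parse_enc_aux (φ : CNF) : ∀ (don : CNF),
    (encCNF φ).foldl pstep (0, 0, [], don) = (0, 0, [], φ.reverse ++ don) := by
  induction φ with
  | nil => intro don; rfl
  | cons c φ ih =>
    intro don
    have h1 : encCNF (c :: φ) = c.flatMap (fun l => true :: (List.replicate l.1 true ++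
        [false, l.2])) ++ (false :: encCNF φ) := by
      simp [encCNF, encClause]
    rw [h1, parse_lits, List.foldl_cons]
    have h2 : pstep (0, 0, c.reverse ++ [], don) false = (0, 0, [], c :: don) := by simp [pstep]
    rw [h2, ih]
    simp

theorem parse_enc (φ : CNF) : parse (encCNF φ) = φ := by
  unfold parse
  rw [parse_enc_aux]
  simp

theorem encCNF_injective : Function.Injective encCNF :=
  Function.LeftInverse.injective parse_enc

theorem PT_parse : PT parse := by
  unfold parse
  have hs : PT (fun z : List Bool × PState × Bool => pstep z.2.1 z.2.2) := by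
    unfold pstep
    have s : PT (fun z : List Bool × PState × Bool => z.2.1) := PT.snd.p1
    have b : PT (fun z : List Bool × PState × Bool => z.2.2) := PT.snd.p2
    refine PT.ite (PT.neq s.p1 (PT.const 0)) ?_ (PT.ite (PT.neq s.p1 (PT.const 1)) ?_ ?_)
    · refine PT.cond b ?_ ?_
      · exact PT.pair (PT.const 1) (PT.pair (PT.const 0) s.p2.p2)
      · exact PT.pair (PT.const 0) (PT.pair (PT.const 0) (PT.pair (PT.const [])
          (PT.cons (PT.reverse s.p2.p2.p1) s.p2.p2.p2)))
    · refine PT.cond b ?_ ?_
      · exact PT.pair (PT.const 1) (PT.pair (PT.nsucc s.p2.p1) s.p2.p2)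
      · exact PT.pair (PT.const 2) s.p2
    · exact PT.pair (PT.const 0) (PT.pair (PT.const 0) (PT.pair
        (PT.cons (PT.pair s.p2.p1 b) s.p2.p2.p1) s.p2.p2.p2))
  have hf := PT.foldl_lin (init := fun _ : List Bool => ((0, 0, [], []) : PState)) PT.id
    (PT.const _) hs 12 (by
      rintro x ⟨mode, idx, cur, don⟩ b
      have hb := tsize_bool_le b
      unfold pstep
      simp only [tsize_pair, tsize_nat]
      split_ifs
      · cases b
        · simp only [cond_false, tsize_pair, tsize_nat, tsize_cons, tsize_reverse, tsize_nil]
          omega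
        · simp only [cond_true, tsize_pair, tsize_nat]
          omega
      · cases b
        · simp only [cond_false, tsize_pair, tsize_nat]
          omega
        · simp only [cond_true, tsize_pair, tsize_nat]
          omega
      · simp only [tsize_pair, tsize_nat, tsize_cons]
        omega)
  exact PT.reverse hf.p2.p2.p2

end Pool.Agent.Lib.helper60
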