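import Pool.Agent.Lib.helper60.PairCode
import Pool.Agent.Lib.helper60.ParseCNF

/-!
Bridge between the two poly-time libraries, and NP-hardness of satisfiability for the coding
`encCNF`.
-/

set_option autoImplicit false

namespace Pool.Agent.Lib.helper60

open Turing Computability Function

/-- A polynomial-time function whose input is given by its tree code. -/
theorem PT.toTM2_code {α β : Type} [DEnc α] {eb : β → List Bool} {f : α → β}
    {F : α → List Bool} (hF : PT F) (h : ∀ a, F a = eb (f a)) :
    Nonempty (TM2ComputableInPolyTime (fun a : α => (toD a).enc) eb f) := by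
  have hsz := hF.size
  obtain ⟨p, t, ⟨P, hP⟩, hp⟩ := hF
  obtain ⟨Q, hQ⟩ := hsz
  let T : Polynomial ℕ := (P + (9 * Q + 6)) + 1
  have key : ∀ a, Nonempty (TM2OutputsInTime (machine R.m R.m (p ++ convOut))
      (toD a).enc (some (eb (f a))) (T.eval (toD a).enc.length)) := by
    intro a
    have h2 := hp a []
    have h3 := convOut_runs (F a)
    simp only [List.append_nil] at h2
    have h4 := h2.seq h3
    rw [h a] at h4
    have h5 : t a ≤ P.eval (toD a).enc.length := hP a
    have h6 : (eb (f a)).length ≤ Q.eval (toD a).enc.length := by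
      rw [← h a]
      exact (length_le_tsize _).trans (hQ _)
    have h7 : Runs (p ++ convOut) (only R.m (toD a).enc)
        (P.eval (toD a).enc.length + (9 * Q.eval (toD a).enc.length + 6))
        (only R.m (eb (f a))) := by
      rw [← st_only, ← st_only]
      exact h4.mono (by omega)
    have h8 := machine_runs R.m R.m _ h7
    have h9 : T.eval (toD a).enc.length =
        (P.eval (toD a).enc.length + (9 * Q.eval (toD a).enc.length + 6)) + 1 := by
      simp [T]
    rw [h9]
    exact h8
  have key2 : ∀ (a : α) (u v : List Bool), u = (toD a).enc → v = eb (f a) →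
      Nonempty (TM2OutputsInTime (machine R.m R.m (p ++ convOut))
        u (some v) (T.eval (toD a).enc.length)) := by
    rintro a u v rfl rfl
    exact key a
  exact ⟨{ tm := machine R.m R.m (p ++ convOut)
           inputAlphabet := Equiv.refl Bool
           outputAlphabet := Equiv.refl Bool
           time := T
           outputsFun := fun a => (key2 a _ _ (List.map_id _) (List.map_id _)).some }⟩

/-- the two libraries code the type in the same way -/
def Same (α : Type) [H66.Enc α] [DEnc α] : Prop := ∀ a : α, H66.enc a = (toD a).enc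

lemma Same.bool : Same Bool := by intro b; cases b <;> rfl

lemma Same.nat : Same ℕ := by
  intro n
  induction n with
  | zero => rfl
  | succ n ih => rw [H66.enc_succ, ih]; rfl

lemma Same.prod {α β : Type} [H66.Enc α] [DEnc α] [H66.Enc β] [DEnc β] (ha : Same α)
    (hb : Same β) : Same (α × β) := by
  rintro ⟨a, b⟩
  rw [H66.enc_pair, ha a, hb b]
  rfl

lemma Same.list {α : Type} [H66.Enc α] [DEnc α] (ha : Same α) : Same (List α) := by
  intro l
  induction l with
  | nil => rfl
  | cons a l ih => rw [H66.enc_cons, ha a, ih]; rfl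

/-! ### from lists of three-literal clauses to formulas -/

/-- change of representation -/
def toCNF (φ : List H66.Cl) : CNF :=
  φ.map (fun c => [(c.1.2, c.1.1), (c.2.1.2, c.2.1.1), (c.2.2.2, c.2.2.1)])

lemma toCNF_sat (φ : List H66.Cl) : Satisfiable (toCNF φ) ↔ H66.Sat3 φ := by
  unfold Satisfiable H66.Sat3 toCNF
  refine exists_congr fun τ => ?_
  constructor
  · intro h c hc
    obtain ⟨l, hl, hv⟩ := h _ (List.mem_map.2 ⟨c, hc, rfl⟩)
    simp only [List.mem_cons, List.not_mem_nil, or_false] at hl
    rcases hl with rfl | rfl | rfl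
    · exact Or.inl hv
    · exact Or.inr (Or.inl hv)
    · exact Or.inr (Or.inr hv)
  · intro h c hc
    obtain ⟨d, hd, rfl⟩ := List.mem_map.1 hc
    rcases h d hd with hv | hv | hv
    · exact ⟨_, List.mem_cons_self, hv⟩
    · exact ⟨_, List.mem_cons_of_mem _ List.mem_cons_self, hv⟩
    · exact ⟨_, List.mem_cons_of_mem _ (List.mem_cons_of_mem _ List.mem_cons_self), hv⟩

lemma PT_toCNF : PT toCNF := by
  unfold toCNF
  refine PT.map (g := fun z : List H66.Cl × H66.Cl =>
    [(z.2.1.2, z.2.1.1), (z.2.2.1.2, z.2.2.1.1), (z.2.2.2.2, z.2.2.2.1)]) PT.id ?_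
  exact PT.cons (PT.pair PT.snd.p1.p2 PT.snd.p1.p1) (PT.cons (PT.pair PT.snd.p2.p1.p2
    PT.snd.p2.p1.p1) (PT.cons (PT.pair PT.snd.p2.p2.p2 PT.snd.p2.p2.p1) (PT.const [])))

lemma PT_encCNF : PT encCNF := by
  unfold encCNF encClause
  refine PT.flatMap (g := fun z : CNF × List Lit =>
    z.2.flatMap (fun l => true :: (List.replicate l.1 true ++ [false, l.2])) ++ [false]) PT.id ?_
  refine PT.append ?_ (PT.const [false])
  refine PT.flatMap (g := fun y : (CNF × List Lit) × Lit =>
    true :: (List.replicate y.2.1 true ++ [false, y.2.2])) PT.snd ?_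
  exact PT.cons (PT.const true) (PT.append (PT.replicate PT.snd.p1 (PT.const true))
    (PT.cons (PT.const false) (PT.cons PT.snd.p2 (PT.const []))))

/-- **Satisfiability of formulas in conjunctive normal form is NP-hard** (Cook, Levin). -/
theorem sat_hard {L : Set (List Bool)} (hL : InNP L) : ∃ f : List Bool → CNF,
    Nonempty (TM2ComputableInPolyTime (fun w : List Bool => w) encCNF f) ∧
    ∀ w, w ∈ L ↔ Satisfiable (f w) := by
  obtain ⟨f, hf, hfL⟩ := H66.cook_levin hL.toH66
  obtain ⟨h1⟩ := hf.tm2_raw
  have h2 : Nonempty (TM2ComputableInPolyTime (fun φ : List H66.Cl => (toD φ).enc) encCNF toCNF) :=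
    PT.toTM2_code (PT_encCNF.comp PT_toCNF) (fun _ => rfl)
  have e : (H66.enc : List H66.Cl → List Bool) = (fun φ : List H66.Cl => (toD φ).enc) := by
    funext φ
    exact ((Same.bool.prod Same.nat).prod ((Same.bool.prod Same.nat).prod
      (Same.bool.prod Same.nat))).list φ
  rw [← e] at h2
  obtain ⟨h2⟩ := h2
  refine ⟨toCNF ∘ f, TM2_comp h1 h2, ?_⟩
  intro w
  rw [hfL w]
  exact (toCNF_sat (f w)).symm

end Pool.Agent.Lib.helper60
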