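import Mathlib

/-!
Propositional formulas in conjunctive normal form and their binary code.
-/

set_option autoImplicit false

namespace Pool.Agent.Lib.helper60

/-- literals: variable index and sign -/
abbrev Lit := ℕ × Bool

/-- formulas in conjunctive normal form: lists of clauses, a clause being a list of literals -/
abbrev CNF := List (List Lit)

/-- some assignment makes a literal of each clause true -/
def Satisfiable (φ : CNF) : Prop :=
  ∃ val : ℕ → Bool, ∀ c ∈ φ, ∃ l ∈ c, val l.1 = l.2

/-- code of a clause: each literal `(i, b)` is written `1 1^i 0 b`, and the clause ends with `0` -/
def encClause (c : List Lit) : List Bool :=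
  c.flatMap (fun l => true :: (List.replicate l.1 true ++ [false, l.2])) ++ [false]

/-- code of a formula: the codes of its clauses, one after the other -/
def encCNF (φ : CNF) : List Bool := φ.flatMap encClause

end Pool.Agent.Lib.helper60
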