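import Pool.Agent.Lib.helper60.StackProg

/-!
Binary trees, their prefix code, and basic stack programs acting on the top term of the main stack.
-/

set_option autoImplicit false

namespace Pool.Agent.Lib.helper60

open Function

/-- binary trees: the universal data type -/
inductive D : Type where
  | nil : D
  | node : D → D → D
  deriving DecidableEq, Inhabited

namespace D

/-- prefix code -/
def enc : D → List Bool
  | nil => [false]
  | node a b => true :: (a.enc ++ b.enc)

/-- size: the length of the code -/
def size (x : D) : ℕ := x.enc.length

@[simp] lemma size_nil : size nil = 1 := rfl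

@[simp] lemma size_node (a b : D) : size (node a b) = a.size + b.size + 1 := by
  simp [size, enc]

lemma size_pos (x : D) : 0 < x.size := by cases x <;> simp

lemma enc_injective_aux : ∀ (x y : D) (r s : List Bool), x.enc ++ r = y.enc ++ s → x = y ∧ r = s
  | nil, nil, r, s, h => by simpa [enc] using h
  | nil, node a b, r, s, h => by simp [enc] at h
  | node a b, nil, r, s, h => by simp [enc] at h
  | node a b, node c d, r, s, h => by
    simp only [enc, List.cons_append, List.append_assoc, List.cons.injEq, true_and] at h
    obtain ⟨h1, h2⟩ := enc_injective_aux a c _ _ h
    obtain ⟨h3, h4⟩ := enc_injective_aux b d _ _ h2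
    exact ⟨by rw [h1, h3], h4⟩

lemma enc_injective : Injective enc := by
  intro x y h
  exact (enc_injective_aux x y [] [] (by simpa using h)).1

end D

/-- the four stacks -/
inductive R : Type where
  | m | a | b | c
  deriving DecidableEq

instance : Fintype R where
  elems := {R.m, R.a, R.b, R.c}
  complete := by intro x; cases x <;> decide

/-- stacks given by their contents -/
def st (m a b c : List Bool) : Stk R
  | .m => m
  | .a => a
  | .b => b
  | .c => c

@[simp] lemma st_m (m a b c : List Bool) : st m a b c R.m = m := rfl
@[simp] lemma st_a (m a b c : List Bool) : st m a b c R.a = a := rfl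
@[simp] lemma st_b (m a b c : List Bool) : st m a b c R.b = b := rfl
@[simp] lemma st_c (m a b c : List Bool) : st m a b c R.c = c := rfl

@[simp] lemma update_st_m (m a b c x : List Bool) : update (st m a b c) R.m x = st x a b c := by
  funext k; cases k <;> simp [update]

@[simp] lemma update_st_a (m a b c x : List Bool) : update (st m a b c) R.a x = st m x b c := by
  funext k; cases k <;> simp [update]

@[simp] lemma update_st_b (m a b c x : List Bool) : update (st m a b c) R.b x = st m a x c := by
  funext k; cases k <;> simp [update]

@[simp] lemma update_st_c (m a b c x : List Bool) : update (st m a b c) R.c x = st m a b x := by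
  funext k; cases k <;> simp [update]

lemma st_only (w : List Bool) : st w [] [] [] = only R.m w := by
  funext k; cases k <;> simp [only]

lemma total_st (m a b c : List Bool) :
    total (st m a b c) = m.length + a.length + b.length + c.length := by
  have h : (Finset.univ : Finset R) = {R.m, R.a, R.b, R.c} := by rfl
  unfold total
  rw [h]
  simp [st]
  ring

section basics

/-- move the contents of stack `s` onto stack `d` (reversing the order) -/
def transfer (s d : R) : Prog R := .loop s (.push d false) (.push d true)

lemma transfer_runs (s d : R) (hsd : s ≠ d) (w : List Bool) : ∀ (S : Stk R), S s = w →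
    Runs (transfer s d) S (2 * w.length + 1)
      (update (update S s []) d (w.reverse ++ S d)) := by
  induction w with
  | nil =>
    intro S hS
    have h0 : update S s [] = S := by rw [← hS, update_eq_self]
    have : update (update S s []) d ([].reverse ++ S d) = S := by
      rw [h0]
      simp
    rw [this]
    exact Runs.loopN hS
  | cons x w ih =>
    intro S hS
    have h1 : (update (update S s w) d (x :: S d)) s = w := by
      rw [update_of_ne hsd, update_self]
    have h2 := ih _ h1
    have h3 : update (update (update (update S s w) d (x :: S d)) s []) d
        (w.reverse ++ (update (update S s w) d (x :: S d)) d)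
        = update (update S s []) d ((x :: w).reverse ++ S d) := by
      funext k
      by_cases hk : k = d
      · subst hk
        simp
      · by_cases hk' : k = s
        · subst hk'
          simp [update_of_ne hk]
        · simp [update_of_ne hk, update_of_ne hk']
    rw [h3] at h2
    cases x with
    | false =>
      have h4 : Runs (.push d false) (update S s w) 1
          (update (update S s w) d (false :: S d)) := by
        have := Runs.push d false (update S s w)
        rwa [update_of_ne hsd.symm] at this
      exact (Runs.loopF hS h4 h2).mono (by simp; omega)
    | true =>
      have h4 : Runs (.push d true) (update S s w) 1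
          (update (update S s w) d (true :: S d)) := by
        have := Runs.push d true (update S s w)
        rwa [update_of_ne hsd.symm] at this
      exact (Runs.loopT hS h4 h2).mono (by simp; omega)

/-- move the contents of stack `s` onto both `d` and `e` -/
def transfer2 (s d e : R) : Prog R :=
  .loop s (.push d false ++ .push e false) (.push d true ++ .push e true)

lemma transfer2_ab (w : List Bool) : ∀ (m b c : List Bool),
    Runs (transfer2 .a .m .b) (st m w b c) (3 * w.length + 1)
      (st (w.reverse ++ m) [] (w.reverse ++ b) c) := by
  induction w with
  | nil => intro m b c; exact Runs.loopN rfl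
  | cons x w ih =>
    intro m b c
    have h2 := ih (x :: m) (x :: b) c
    cases x with
    | false =>
      have h4 : Runs (.push R.m false ++ .push R.b false) (st m w b c) 2
          (st (false :: m) w (false :: b) c) := by
        have h5 := (Runs.push R.m false (st m w b c)).seq (Runs.push R.b false _)
        simpa using h5
      have h6 := Runs.loopF (k := R.a) (S := st m (false :: w) b c) rfl
        (by simpa using h4) h2
      refine (Runs.mono (t := 2 + (3 * w.length + 1) + 1) ?_ (by simp; omega))
      simpa [transfer2] using h6
    | true =>
      have h4 : Runs (.push R.m true ++ .push R.b true) (st m w b c) 2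
          (st (true :: m) w (true :: b) c) := by
        have h5 := (Runs.push R.m true (st m w b c)).seq (Runs.push R.b true _)
        simpa using h5
      have h6 := Runs.loopT (k := R.a) (S := st m (true :: w) b c) rfl
        (by simpa using h4) h2
      refine (Runs.mono (t := 2 + (3 * w.length + 1) + 1) ?_ (by simp; omega))
      simpa [transfer2] using h6

/-- erase a stack -/
def clear (s : R) : Prog R := .loop s .skip .skip

lemma clear_a (w : List Bool) : ∀ (m b c : List Bool),
    Runs (clear .a) (st m w b c) (2 * w.length + 1) (st m [] b c) := by
  induction w with
  | nil => intro m b c; exact Runs.loopN rfl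
  | cons x w ih =>
    intro m b c
    have h2 := ih m b c
    have h4 : Runs .skip (st m w b c) 1 (st m w b c) := Runs.skip _
    cases x with
    | false =>
      have h6 := Runs.loopF (k := R.a) (pT := .skip) (S := st m (false :: w) b c) rfl
        (by simpa using h4) h2
      exact h6.mono (by simp; omega)
    | true =>
      have h6 := Runs.loopT (k := R.a) (pF := .skip) (S := st m (true :: w) b c) rfl
        (by simpa using h4) h2
      exact h6.mono (by simp; omega)

/-- one step of scanning a term -/
def scanBody (d : R) : Prog R :=
  .popCase .m .skip (.push d false) (.push d true ++ (.push .c true ++ .push .c true))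

/-- move the top term of the main stack onto stack `d` (reversed), using `c` as a counter -/
def moveTerm (d : R) : Prog R :=
  .push .c true ++ .loop .c (scanBody d) (scanBody d)

lemma scan_a : ∀ (n : ℕ) (xs : List D) (r a b : List Bool), (xs.flatMap D.enc).length ≤ n →
    Runs (.loop .c (scanBody .a) (scanBody .a))
      (st (xs.flatMap D.enc ++ r) a b (List.replicate xs.length true))
      (5 * n + 1)
      (st r ((xs.flatMap D.enc).reverse ++ a) b []) := by
  intro n
  induction n with
  | zero =>
    intro xs r a b h
    cases xs with
    | nil => exact Runs.loopN rfl
    | cons x xs =>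
      have := x.size_pos
      simp [D.size] at this h
      simp [h.1] at this
  | succ n ih =>
    intro xs r a b h
    cases xs with
    | nil => exact (Runs.loopN rfl).mono (by omega)
    | cons x xs =>
      cases x with
      | nil =>
        have h1 := ih xs r (false :: a) b (by simp [D.enc] at h ⊢; omega)
        have h2 : Runs (scanBody .a) (st (false :: (xs.flatMap D.enc ++ r)) a b
            (List.replicate xs.length true)) 2
            (st (xs.flatMap D.enc ++ r) (false :: a) b (List.replicate xs.length true)) := by
          refine Runs.popF (k := R.m) (t := 1) (l := xs.flatMap D.enc ++ r) rfl ?_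
          have := Runs.push R.a false (st (xs.flatMap D.enc ++ r) a b
            (List.replicate xs.length true))
          simpa using this
        have h3 := Runs.loopT (k := R.c) (pF := scanBody .a)
          (S := st (((D.nil :: xs).flatMap D.enc) ++ r) a b
            (List.replicate (D.nil :: xs).length true))
          (l := List.replicate xs.length true) rfl (by simpa [D.enc] using h2) h1
        refine Runs.mono (t := 2 + (5 * n + 1) + 1) ?_ (by omega)
        simpa [D.enc] using h3
      | node y z =>
        have h1 := ih (y :: z :: xs) r (true :: a) b (by simp [D.enc] at h ⊢; omega)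
        have h2 : Runs (scanBody .a) (st (true :: (((y :: z :: xs).flatMap D.enc) ++ r)) a b
            (List.replicate xs.length true)) 4
            (st (((y :: z :: xs).flatMap D.enc) ++ r) (true :: a) b
              (List.replicate (y :: z :: xs).length true)) := by
          refine Runs.popT (k := R.m) (t := 3) (l := ((y :: z :: xs).flatMap D.enc) ++ r) rfl ?_
          have := (Runs.push R.a true (st (((y :: z :: xs).flatMap D.enc) ++ r) a b
            (List.replicate xs.length true))).seq
            ((Runs.push R.c true _).seq (Runs.push R.c true _))
          simpa [List.replicate_succ] using this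
        have h3 := Runs.loopT (k := R.c) (pF := scanBody .a)
          (S := st (((D.node y z :: xs).flatMap D.enc) ++ r) a b
            (List.replicate (D.node y z :: xs).length true))
          (l := List.replicate xs.length true) rfl (by simpa [D.enc] using h2) h1
        refine Runs.mono (t := 4 + (5 * n + 1) + 1) ?_ (by omega)
        simpa [D.enc] using h3

lemma scan_b : ∀ (n : ℕ) (xs : List D) (r a b : List Bool), (xs.flatMap D.enc).length ≤ n →
    Runs (.loop .c (scanBody .b) (scanBody .b))
      (st (xs.flatMap D.enc ++ r) a b (List.replicate xs.length true))
      (5 * n + 1)
      (st r a ((xs.flatMap D.enc).reverse ++ b) []) := by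
  intro n
  induction n with
  | zero =>
    intro xs r a b h
    cases xs with
    | nil => exact Runs.loopN rfl
    | cons x xs =>
      have := x.size_pos
      simp [D.size] at this h
      simp [h.1] at this
  | succ n ih =>
    intro xs r a b h
    cases xs with
    | nil => exact (Runs.loopN rfl).mono (by omega)
    | cons x xs =>
      cases x with
      | nil =>
        have h1 := ih xs r a (false :: b) (by simp [D.enc] at h ⊢; omega)
        have h2 : Runs (scanBody .b) (st (false :: (xs.flatMap D.enc ++ r)) a b
            (List.replicate xs.length true)) 2
            (st (xs.flatMap D.enc ++ r) a (false :: b) (List.replicate xs.length true)) := by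
          refine Runs.popF (k := R.m) (t := 1) (l := xs.flatMap D.enc ++ r) rfl ?_
          have := Runs.push R.b false (st (xs.flatMap D.enc ++ r) a b
            (List.replicate xs.length true))
          simpa using this
        have h3 := Runs.loopT (k := R.c) (pF := scanBody .b)
          (S := st (((D.nil :: xs).flatMap D.enc) ++ r) a b
            (List.replicate (D.nil :: xs).length true))
          (l := List.replicate xs.length true) rfl (by simpa [D.enc] using h2) h1
        refine Runs.mono (t := 2 + (5 * n + 1) + 1) ?_ (by omega)
        simpa [D.enc] using h3
      | node y z =>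
        have h1 := ih (y :: z :: xs) r a (true :: b) (by simp [D.enc] at h ⊢; omega)
        have h2 : Runs (scanBody .b) (st (true :: (((y :: z :: xs).flatMap D.enc) ++ r)) a b
            (List.replicate xs.length true)) 4
            (st (((y :: z :: xs).flatMap D.enc) ++ r) a (true :: b)
              (List.replicate (y :: z :: xs).length true)) := by
          refine Runs.popT (k := R.m) (t := 3) (l := ((y :: z :: xs).flatMap D.enc) ++ r) rfl ?_
          have := (Runs.push R.b true (st (((y :: z :: xs).flatMap D.enc) ++ r) a b
            (List.replicate xs.length true))).seq
            ((Runs.push R.c true _).seq (Runs.push R.c true _))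
          simpa [List.replicate_succ] using this
        have h3 := Runs.loopT (k := R.c) (pF := scanBody .b)
          (S := st (((D.node y z :: xs).flatMap D.enc) ++ r) a b
            (List.replicate (D.node y z :: xs).length true))
          (l := List.replicate xs.length true) rfl (by simpa [D.enc] using h2) h1
        refine Runs.mono (t := 4 + (5 * n + 1) + 1) ?_ (by omega)
        simpa [D.enc] using h3

lemma moveTerm_a (x : D) (r a b : List Bool) :
    Runs (moveTerm .a) (st (x.enc ++ r) a b []) (5 * x.size + 2) (st r (x.enc.reverse ++ a) b []) := by
  have h1 := Runs.push R.c true (st (x.enc ++ r) a b [])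
  have h2 := scan_a x.size [x] r a b (by simp [D.size])
  have h3 := h1.seq (t' := 5 * x.size + 1) (S'' := st r (x.enc.reverse ++ a) b [])
    (by simpa using h2)
  exact h3.mono (by omega)

lemma moveTerm_b (x : D) (r a b : List Bool) :
    Runs (moveTerm .b) (st (x.enc ++ r) a b []) (5 * x.size + 2) (st r a (x.enc.reverse ++ b) []) := by
  have h1 := Runs.push R.c true (st (x.enc ++ r) a b [])
  have h2 := scan_b x.size [x] r a b (by simp [D.size])
  have h3 := h1.seq (t' := 5 * x.size + 1) (S'' := st r a (x.enc.reverse ++ b) [])
    (by simpa using h2)
  exact h3.mono (by omega)

lemma transfer_am (w m b c : List Bool) :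
    Runs (transfer .a .m) (st m w b c) (2 * w.length + 1) (st (w.reverse ++ m) [] b c) := by
  have := transfer_runs .a .m (by decide) w (st m w b c) rfl
  simpa using this

lemma transfer_bm (w m a c : List Bool) :
    Runs (transfer .b .m) (st m a w c) (2 * w.length + 1) (st (w.reverse ++ m) a [] c) := by
  have := transfer_runs .b .m (by decide) w (st m a w c) rfl
  simpa using this

lemma transfer_ba (w m a c : List Bool) :
    Runs (transfer .b .a) (st m a w c) (2 * w.length + 1) (st m (w.reverse ++ a) [] c) := by
  have := transfer_runs .b .a (by decide) w (st m a w c) rfl
  simpa using this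

/-- drop the top term -/
def dropP : Prog R := moveTerm .a ++ clear .a

lemma dropP_runs (x : D) (r : List Bool) :
    Runs dropP (st (x.enc ++ r) [] [] []) (7 * x.size + 3) (st r [] [] []) := by
  have h1 := moveTerm_a x r [] []
  have h2 := clear_a (x.enc.reverse ++ []) r [] []
  refine (h1.seq h2).mono ?_
  simp [D.size]
  omega

/-- duplicate the top term -/
def dupP : Prog R := moveTerm .a ++ (transfer2 .a .m .b ++ (transfer .b .a ++ transfer .a .m))

lemma dupP_runs (x : D) (r : List Bool) :
    Runs dupP (st (x.enc ++ r) [] [] []) (12 * x.size + 5) (st (x.enc ++ (x.enc ++ r)) [] [] []) := by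
  have h1 := moveTerm_a x r [] []
  have h2 := transfer2_ab (x.enc.reverse ++ []) r [] []
  have h3 := transfer_ba (x.enc) (x.enc ++ r) [] []
  have h4 := transfer_am (x.enc.reverse) (x.enc ++ r) [] []
  have h5 := h1.seq (h2.seq ((by simpa using h3 : Runs (transfer .b .a)
      (st ((x.enc.reverse ++ []).reverse ++ r) [] ((x.enc.reverse ++ []).reverse ++ []) []) _
      (st (x.enc ++ r) x.enc.reverse [] [])).seq h4))
  refine Runs.mono (t := _) (by simpa [dupP] using h5) ?_
  simp [D.size]
  omega

/-- swap the two top terms -/
def swapP : Prog R := moveTerm .a ++ (moveTerm .b ++ (transfer .a .m ++ transfer .b .m))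

lemma swapP_runs (x y : D) (r : List Bool) :
    Runs swapP (st (x.enc ++ (y.enc ++ r)) [] [] []) (7 * x.size + 7 * y.size + 6)
      (st (y.enc ++ (x.enc ++ r)) [] [] []) := by
  have h1 := moveTerm_a x (y.enc ++ r) [] []
  have h2 := moveTerm_b y r (x.enc.reverse ++ []) []
  have h3 := transfer_am (x.enc.reverse ++ []) r (y.enc.reverse ++ []) []
  have h4 := transfer_bm (y.enc.reverse ++ []) ((x.enc.reverse ++ []).reverse ++ r) [] []
  have h5 := h1.seq (h2.seq (h3.seq h4))
  refine Runs.mono (t := _) (by simpa [swapP] using h5) ?_
  simp [D.size]
  omega

/-- push a word so that it is read in order from the top -/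
def pushWord : List Bool → Prog R
  | [] => .skip
  | b :: w => pushWord w ++ .push .m b

lemma pushWord_runs (w r : List Bool) :
    Runs (pushWord w) (st r [] [] []) (w.length + 1) (st (w ++ r) [] [] []) := by
  induction w with
  | nil => exact Runs.skip _
  | cons b w ih =>
    have := ih.seq (Runs.push R.m b _)
    refine Runs.mono (t := _) (by simpa [pushWord] using this) ?_
    simp

end basics

end Pool.Agent.Lib.helper60
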