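import Pool.Agent.Lib.helper60.Bridge

/-!
NP-hardness of the two-colouring problem for lists of triples (no triple is monochromatic), with
three distinct entries in each triple.
-/

set_option autoImplicit false

namespace Pool.Agent.Lib.helper60

open Turing Computability

/-- 3-SAT is NP-hard, formulas given by their tree code. -/
theorem sat3_hard {L : Set (List Bool)} (hL : InNP L) : ∃ f : List Bool → List H66.Cl,
    Nonempty (TM2ComputableInPolyTime (fun w : List Bool => w)
      (fun φ : List H66.Cl => (toD φ).enc) f) ∧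
    ∀ w, w ∈ L ↔ H66.Sat3 (f w) := by
  obtain ⟨f, hf, hfL⟩ := H66.cook_levin hL.toH66
  have h1 := hf.tm2_raw
  have e : (H66.enc : List H66.Cl → List Bool) = (fun φ : List H66.Cl => (toD φ).enc) := by
    funext φ
    exact ((Same.bool.prod Same.nat).prod ((Same.bool.prod Same.nat).prod
      (Same.bool.prod Same.nat))).list φ
  rw [e] at h1
  exact ⟨f, h1, hfL⟩

/-- some colouring of the naturals with two colours makes no triple monochromatic -/
def NAE (cl : List (ℕ × ℕ × ℕ)) : Prop :=
  ∃ a : ℕ → Bool, ∀ c ∈ cl, ¬ (a c.1 = a c.2.1 ∧ a c.2.1 = a c.2.2)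

/-- the entries of each triple are distinct -/
def Dist (cl : List (ℕ × ℕ × ℕ)) : Prop :=
  ∀ c ∈ cl, c.1 ≠ c.2.1 ∧ c.1 ≠ c.2.2 ∧ c.2.1 ≠ c.2.2

/-- the literals of a formula -/
def lits (φ : List H66.Cl) : List (Bool × ℕ) := φ.flatMap (fun c => [c.1, c.2.1, c.2.2])

/-- occurrence `p` -/
def occ (φ : List H66.Cl) (p : ℕ) : Bool × ℕ := (lits φ).getD p (true, 0)

/-- the reduction from 3-SAT -/
def naeOf (φ : List H66.Cl) : List (ℕ × ℕ × ℕ) :=
  [(0, 1, 2), (0, 1, 3), (0, 1, 4), (2, 3, 4)] ++
    ((List.range φ.length).flatMap (fun j =>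
      [(5 + 3 * j, 5 + 3 * j + 1, 5 + 3 * φ.length + j),
       (5 + 4 * φ.length + j, 5 + 3 * j + 2, 1),
       (5 + 3 * φ.length + j, 5 + 4 * φ.length + j, 0)]) ++
    (List.range (3 * φ.length)).flatMap (fun p => (List.range (3 * φ.length)).flatMap (fun q =>
      if (occ φ p).2 = (occ φ q).2 ∧ ¬ (occ φ p).1 = (occ φ q).1 then
        [(5 + p, 5 + q, 0)] else [])))

lemma lits_length (φ : List H66.Cl) : (lits φ).length = 3 * φ.length := by
  unfold lits
  induction φ with
  | nil => rfl
  | cons c φ ih => simp only [List.flatMap_cons, List.length_append, ih, List.length_cons,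
      List.length_nil]; ring

lemma occ_eq (φ : List H66.Cl) (j : ℕ) (hj : j < φ.length) :
    occ φ (3 * j) = φ[j].1 ∧ occ φ (3 * j + 1) = φ[j].2.1 ∧ occ φ (3 * j + 2) = φ[j].2.2 := by
  unfold occ lits
  induction φ generalizing j with
  | nil => simp at hj
  | cons c φ ih =>
    cases j with
    | zero => simp
    | succ j =>
      have hj' : j < φ.length := by simpa using hj
      have h := ih j hj'
      simp only [List.flatMap_cons, List.getElem_cons_succ]
      have e : ∀ k, ([c.1, c.2.1, c.2.2] ++ φ.flatMap fun c => [c.1, c.2.1, c.2.2]).getD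
          (3 * (j + 1) + k) (true, 0) = (φ.flatMap fun c => [c.1, c.2.1, c.2.2]).getD
          (3 * j + k) (true, 0) := by
        intro k
        have : 3 * (j + 1) + k = (3 * j + k) + 1 + 1 + 1 := by ring
        rw [this]
        rfl
      have e0 := e 0
      rw [add_zero, add_zero] at e0
      rw [e0, e 1, e 2]
      exact h

lemma naeOf_dist (φ : List H66.Cl) : Dist (naeOf φ) := by
  intro c hc
  unfold naeOf at hc
  simp only [List.cons_append, List.nil_append, List.mem_cons, List.mem_append, List.mem_flatMap,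
    List.mem_range, List.not_mem_nil, or_false] at hc
  rcases hc with rfl | rfl | rfl | rfl | ⟨j, hj, h⟩ | ⟨p, hp, q, hq, h⟩
  · simp
  · simp
  · simp
  · simp
  · rcases h with rfl | rfl | rfl <;> simp only [ne_eq] <;> omega
  · split_ifs at h with h1
    · simp only [List.mem_cons, List.not_mem_nil, or_false] at h
      subst h
      have hpq : p ≠ q := by
        rintro rfl
        exact h1.2 rfl
      simp only [ne_eq]
      omega
    · simp at h

lemma naeOf_lt (φ : List H66.Cl) : ∀ c ∈ naeOf φ, c.1 < 5 + 5 * φ.length ∧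
    c.2.1 < 5 + 5 * φ.length ∧ c.2.2 < 5 + 5 * φ.length := by
  intro c hc
  unfold naeOf at hc
  simp only [List.cons_append, List.nil_append, List.mem_cons, List.mem_append, List.mem_flatMap,
    List.mem_range, List.not_mem_nil, or_false] at hc
  rcases hc with rfl | rfl | rfl | rfl | ⟨j, hj, h⟩ | ⟨p, hp, q, hq, h⟩
  · simp only; omega
  · simp only; omega
  · simp only; omega
  · simp only; omega
  · rcases h with rfl | rfl | rfl <;> simp only <;> omega
  · split_ifs at h with h1
    · simp only [List.mem_cons, List.not_mem_nil, or_false] at h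
      subst h
      simp only
      omega
    · simp at h

/-- colouring that belongs to an assignment -/
def colOf (φ : List H66.Cl) (τ : ℕ → Bool) (v : ℕ) : Bool :=
  if v < 5 then decide (v = 0 ∨ v = 2 ∨ v = 4)
  else if v < 5 + 3 * φ.length then decide (τ (occ φ (v - 5)).2 = (occ φ (v - 5)).1)
  else if v < 5 + 4 * φ.length then
    !(decide (τ (occ φ (3 * (v - (5 + 3 * φ.length)))).2 = (occ φ (3 * (v - (5 + 3 * φ.length)))).1)
      || decide (τ (occ φ (3 * (v - (5 + 3 * φ.length)) + 1)).2 =
        (occ φ (3 * (v - (5 + 3 * φ.length)) + 1)).1))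
  else (decide (τ (occ φ (3 * (v - (5 + 4 * φ.length)))).2 =
        (occ φ (3 * (v - (5 + 4 * φ.length)))).1)
      || decide (τ (occ φ (3 * (v - (5 + 4 * φ.length)) + 1)).2 =
        (occ φ (3 * (v - (5 + 4 * φ.length)) + 1)).1))

theorem naeOf_correct (φ : List H66.Cl) : H66.Sat3 φ ↔ NAE (naeOf φ) := by
  constructor
  · rintro ⟨τ, hτ⟩
    refine ⟨colOf φ τ, ?_⟩
    have c0 : colOf φ τ 0 = true := by simp [colOf]
    have c1 : colOf φ τ 1 = false := by simp [colOf]
    have c2 : colOf φ τ 2 = true := by simp [colOf]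
    have c3 : colOf φ τ 3 = false := by simp [colOf]
    have c4 : colOf φ τ 4 = true := by simp [colOf]
    have cw : ∀ p, p < 3 * φ.length → colOf φ τ (5 + p) = decide (τ (occ φ p).2 = (occ φ p).1) := by
      intro p hp
      unfold colOf
      rw [if_neg (by omega), if_pos (by omega)]
      have : 5 + p - 5 = p := by omega
      rw [this]
    have cz : ∀ j, j < φ.length → colOf φ τ (5 + 3 * φ.length + j) =
        !(decide (τ (occ φ (3 * j)).2 = (occ φ (3 * j)).1) ||
          decide (τ (occ φ (3 * j + 1)).2 = (occ φ (3 * j + 1)).1)) := by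
      intro j hj
      unfold colOf
      rw [if_neg (by omega), if_neg (by omega), if_pos (by omega)]
      have : 5 + 3 * φ.length + j - (5 + 3 * φ.length) = j := by omega
      rw [this]
    have cz' : ∀ j, j < φ.length → colOf φ τ (5 + 4 * φ.length + j) =
        (decide (τ (occ φ (3 * j)).2 = (occ φ (3 * j)).1) ||
          decide (τ (occ φ (3 * j + 1)).2 = (occ φ (3 * j + 1)).1)) := by
      intro j hj
      unfold colOf
      rw [if_neg (by omega), if_neg (by omega), if_neg (by omega)]
      have : 5 + 4 * φ.length + j - (5 + 4 * φ.length) = j := by omega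
      rw [this]
    intro c hc
    unfold naeOf at hc
    simp only [List.cons_append, List.nil_append, List.mem_cons, List.mem_append,
      List.mem_flatMap, List.mem_range, List.not_mem_nil, or_false] at hc
    rcases hc with rfl | rfl | rfl | rfl | ⟨j, hj, h⟩ | ⟨p, hp, q, hq, h⟩
    · simp [c0, c1]
    · simp [c0, c1]
    · simp [c0, c1]
    · simp [c2, c3]
    · have hcl := hτ _ (List.getElem_mem hj)
      obtain ⟨o0, o1, o2⟩ := occ_eq φ j hj
      have w0 := cw (3 * j) (by omega)
      have w1 := cw (3 * j + 1) (by omega)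
      have w2 := cw (3 * j + 2) (by omega)
      have z := cz j hj
      have z' := cz' j hj
      rw [← add_assoc] at w1 w2
      have hcl' : τ (occ φ (3 * j)).2 = (occ φ (3 * j)).1 ∨
          τ (occ φ (3 * j + 1)).2 = (occ φ (3 * j + 1)).1 ∨
          τ (occ φ (3 * j + 2)).2 = (occ φ (3 * j + 2)).1 := by
        rw [o0, o1, o2]
        exact hcl
      rcases h with rfl | rfl | rfl
      · simp only [w0, w1, z]
        cases decide (τ (occ φ (3 * j)).2 = (occ φ (3 * j)).1) <;>
          cases decide (τ (occ φ (3 * j + 1)).2 = (occ φ (3 * j + 1)).1) <;> simp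
      · simp only [w2, z', c1]
        by_cases h0 : τ (occ φ (3 * j)).2 = (occ φ (3 * j)).1
        · rw [decide_eq_true h0, Bool.true_or]
          rintro ⟨h1, h2⟩
          rw [h2] at h1
          exact Bool.noConfusion h1
        · by_cases h1 : τ (occ φ (3 * j + 1)).2 = (occ φ (3 * j + 1)).1
          · rw [decide_eq_true h1, Bool.or_true]
            rintro ⟨h1, h2⟩
            rw [h2] at h1
            exact Bool.noConfusion h1
          · have h2 := (hcl'.resolve_left h0).resolve_left h1
            rw [decide_eq_true h2]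
            rintro ⟨_, h3⟩
            exact Bool.noConfusion h3
      · simp only [z, z', c0]
        cases (decide (τ (occ φ (3 * j)).2 = (occ φ (3 * j)).1) ||
          decide (τ (occ φ (3 * j + 1)).2 = (occ φ (3 * j + 1)).1)) <;> simp
    · split_ifs at h with h1
      · simp only [List.mem_cons, List.not_mem_nil, or_false] at h
        subst h
        simp only [cw p hp, cw q hq, c0]
        rintro ⟨h2, h3⟩
        rw [h3] at h2
        rw [decide_eq_true_iff] at h2 h3
        rw [← h1.1, h2] at h3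
        exact h1.2 h3
      · simp at h
  · rintro ⟨a, ha⟩
    have hmem : ∀ c, c ∈ naeOf φ ↔ (c = (0, 1, 2) ∨ c = (0, 1, 3) ∨ c = (0, 1, 4) ∨
        c = (2, 3, 4) ∨ (∃ j, j < φ.length ∧ (c = (5 + 3 * j, 5 + 3 * j + 1, 5 + 3 * φ.length + j) ∨
          c = (5 + 4 * φ.length + j, 5 + 3 * j + 2, 1) ∨
          c = (5 + 3 * φ.length + j, 5 + 4 * φ.length + j, 0))) ∨
        ∃ p, p < 3 * φ.length ∧ ∃ q, q < 3 * φ.length ∧
          c ∈ (if (occ φ p).2 = (occ φ q).2 ∧ ¬ (occ φ p).1 = (occ φ q).1 then
            [(5 + p, 5 + q, 0)] else [])) := by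
      intro c
      unfold naeOf
      simp only [List.cons_append, List.nil_append, List.mem_cons, List.mem_append,
        List.mem_flatMap, List.mem_range, List.not_mem_nil, or_false]
    have g1 := ha (0, 1, 2) ((hmem _).2 (Or.inl rfl))
    have g2 := ha (0, 1, 3) ((hmem _).2 (Or.inr (Or.inl rfl)))
    have g3 := ha (0, 1, 4) ((hmem _).2 (Or.inr (Or.inr (Or.inl rfl))))
    have g4 := ha (2, 3, 4) ((hmem _).2 (Or.inr (Or.inr (Or.inr (Or.inl rfl)))))
    have h01 : a 0 ≠ a 1 := by
      revert g1 g2 g3 g4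
      simp only
      cases a 0 <;> cases a 1 <;> cases a 2 <;> cases a 3 <;> cases a 4 <;> simp
    have hT : ∀ b : Bool, b ≠ a 0 → b = a 1 := by
      intro b hb
      revert h01 hb
      cases a 0 <;> cases a 1 <;> cases b <;> simp
    classical
    refine ⟨fun i => decide (∃ p, p < 3 * φ.length ∧ occ φ p = (true, i) ∧ a (5 + p) = a 0), ?_⟩
    intro c hc
    obtain ⟨j, hj, rfl⟩ := List.mem_iff_getElem.1 hc
    obtain ⟨o0, o1, o2⟩ := occ_eq φ j hj
    have hjm : ∀ c, (c = (5 + 3 * j, 5 + 3 * j + 1, 5 + 3 * φ.length + j) ∨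
          c = (5 + 4 * φ.length + j, 5 + 3 * j + 2, 1) ∨
          c = (5 + 3 * φ.length + j, 5 + 4 * φ.length + j, 0)) → c ∈ naeOf φ := by
      intro c hc
      exact (hmem c).2 (Or.inr (Or.inr (Or.inr (Or.inr (Or.inl ⟨j, hj, hc⟩)))))
    have k1 := ha _ (hjm _ (Or.inl rfl))
    have k2 := ha _ (hjm _ (Or.inr (Or.inl rfl)))
    have k3 := ha _ (hjm _ (Or.inr (Or.inr rfl)))
    simp only at k1 k2 k3
    have hex : ∃ k, k < 3 ∧ a (5 + (3 * j + k)) = a 0 := by
      by_contra hno
      push Not at hno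
      have n0 := hT _ (hno 0 (by omega))
      have n1 := hT _ (hno 1 (by omega))
      have n2 := hT _ (hno 2 (by omega))
      rw [add_zero] at n0
      rw [← add_assoc] at n1 n2
      rw [n0, n1] at k1
      rw [n2] at k2
      have z1 : a (5 + 3 * φ.length + j) = a 0 := by
        by_contra hz
        exact k1 ⟨rfl, (hT _ hz).symm⟩
      have z2 : a (5 + 4 * φ.length + j) = a 0 := by
        by_contra hz
        exact k2 ⟨hT _ hz, rfl⟩
      exact k3 ⟨z1.trans z2.symm, z2⟩
    obtain ⟨k, hk, hak⟩ := hex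
    have hlit : ∀ p, p < 3 * φ.length → a (5 + p) = a 0 →
        decide (∃ q, q < 3 * φ.length ∧ occ φ q = (true, (occ φ p).2) ∧ a (5 + q) = a 0) =
          (occ φ p).1 := by
      intro p hp hap
      rcases hb : (occ φ p).1 with _ | _
      · rw [decide_eq_false_iff_not]
        rintro ⟨q, hq, hoq, haq⟩
        have h5 := ha (5 + p, 5 + q, 0) ((hmem _).2 (Or.inr (Or.inr (Or.inr (Or.inr (Or.inr
          ⟨p, hp, q, hq, by rw [if_pos ⟨by rw [hoq], by rw [hoq, hb]; simp⟩]; simp⟩))))))
        exact h5 ⟨hap.trans haq.symm, haq⟩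
      · rw [decide_eq_true_iff]
        exact ⟨p, hp, Prod.ext hb rfl, hap⟩
    have hkk : k = 0 ∨ k = 1 ∨ k = 2 := by omega
    rcases hkk with rfl | rfl | rfl
    · left
      have := hlit (3 * j) (by omega) hak
      rw [o0] at this
      exact this
    · right; left
      have := hlit (3 * j + 1) (by omega) hak
      rw [o1] at this
      exact this
    · right; right
      have := hlit (3 * j + 2) (by omega) hak
      rw [o2] at this
      exact this

lemma PT_lits : PT lits := by
  unfold lits
  exact PT.flatMap (g := fun z : List H66.Cl × H66.Cl => [z.2.1, z.2.2.1, z.2.2.2]) PT.id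
    (PT.cons PT.snd.p1 (PT.cons PT.snd.p2.p1 (PT.cons PT.snd.p2.p2 (PT.const []))))

lemma PT_occ {α : Type} [DEnc α] {φ : α → List H66.Cl} {p : α → ℕ} (hφ : PT φ) (hp : PT p) :
    PT (fun a => occ (φ a) (p a)) :=
  PT.getD (PT_lits.comp hφ) hp (PT.const _)

theorem PT_naeOf : PT naeOf := by
  unfold naeOf
  have i3 : ∀ {α : Type} [DEnc α] {f g h : α → ℕ}, PT f → PT g → PT h →
      PT (fun a => (f a, g a, h a)) := fun hf hg hh => PT.pair hf (PT.pair hg hh)
  refine PT.append (PT.const _) (PT.append ?_ ?_)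
  · refine PT.flatMap (g := fun z : List H66.Cl × ℕ =>
      [(5 + 3 * z.2, 5 + 3 * z.2 + 1, 5 + 3 * z.1.length + z.2),
       (5 + 4 * z.1.length + z.2, 5 + 3 * z.2 + 2, 1),
       (5 + 3 * z.1.length + z.2, 5 + 4 * z.1.length + z.2, 0)]) (PT.range (PT.length PT.id)) ?_
    have l : PT (fun z : List H66.Cl × ℕ => z.1.length) := PT.length PT.fst
    have j : PT (fun z : List H66.Cl × ℕ => z.2) := PT.snd
    have a3 := PT.nadd (PT.const 5) (PT.nmul (PT.const 3) j)
    have b3 := PT.nadd (PT.nadd (PT.const 5) (PT.nmul (PT.const 3) l)) j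
    have b4 := PT.nadd (PT.nadd (PT.const 5) (PT.nmul (PT.const 4) l)) j
    exact PT.cons (i3 a3 (PT.nadd a3 (PT.const 1)) b3) (PT.cons
      (i3 b4 (PT.nadd a3 (PT.const 2)) (PT.const 1)) (PT.cons (i3 b3 b4 (PT.const 0))
        (PT.const [])))
  · refine PT.flatMap (g := fun z : List H66.Cl × ℕ =>
      (List.range (3 * z.1.length)).flatMap (fun q =>
      if (occ z.1 z.2).2 = (occ z.1 q).2 ∧ ¬ (occ z.1 z.2).1 = (occ z.1 q).1 then
        [(5 + z.2, 5 + q, 0)] else [])) (PT.range (PT.nmul (PT.const 3) (PT.length PT.id))) ?_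
    refine PT.flatMap (g := fun z : (List H66.Cl × ℕ) × ℕ =>
      if (occ z.1.1 z.1.2).2 = (occ z.1.1 z.2).2 ∧ ¬ (occ z.1.1 z.1.2).1 = (occ z.1.1 z.2).1 then
        [(5 + z.1.2, 5 + z.2, 0)] else [])
      (PT.range (PT.nmul (PT.const 3) (PT.length PT.fst))) ?_
    have f : PT (fun z : (List H66.Cl × ℕ) × ℕ => z.1.1) := PT.fst.p1
    have p : PT (fun z : (List H66.Cl × ℕ) × ℕ => z.1.2) := PT.fst.p2
    have q : PT (fun z : (List H66.Cl × ℕ) × ℕ => z.2) := PT.snd
    have op := PT_occ f p
    have oq := PT_occ f q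
    exact PT.ite (PT.dand (PT.neq op.p2 oq.p2) (PT.dnot (PT.beq op.p1 oq.p1)))
      (PT.cons (i3 (PT.nadd (PT.const 5) p) (PT.nadd (PT.const 5) q) (PT.const 0)) (PT.const []))
      (PT.const [])

/-- **The two-colouring problem for lists of triples with distinct entries is NP-hard**: each
language in NP is mapped to it by a function `f` such that `g ∘ f` is computed by a Turing machine
in polynomial time for each polynomial-time `g`. -/
theorem nae_hard {β : Type} {eb : β → List Bool} {g : List (ℕ × ℕ × ℕ) → β}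
    (hg : PT (fun cl => eb (g cl))) {L : Set (List Bool)} (hL : InNP L) :
    ∃ f : List Bool → List (ℕ × ℕ × ℕ),
      Nonempty (TM2ComputableInPolyTime (fun w : List Bool => w) eb (fun w => g (f w))) ∧
      ∀ w, Dist (f w) ∧ (w ∈ L ↔ NAE (f w)) := by
  obtain ⟨f, ⟨hf⟩, hfL⟩ := sat3_hard hL
  have h2 : Nonempty (TM2ComputableInPolyTime (fun φ : List H66.Cl => (toD φ).enc) eb
      (fun φ => g (naeOf φ))) := PT.toTM2_code (hg.comp PT_naeOf) (fun _ => rfl)
  obtain ⟨h2⟩ := h2
  refine ⟨fun w => naeOf (f w), TM2_comp (g := fun φ => g (naeOf φ)) hf h2, ?_⟩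
  intro w
  exact ⟨naeOf_dist _, (hfL w).trans (naeOf_correct _)⟩

end Pool.Agent.Lib.helper60
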