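import Mathlib

/-!
The classes P and NP of languages over `{0,1}`, in terms of the Turing machines of Mathlib.
-/

set_option autoImplicit false

namespace Pool.Agent.Lib.helper60

open Turing Computability

/-- code of a pair `(x, c)` of bit strings: each bit of `x` doubled, then `01`, then `c` -/
def encPair (p : List Bool × List Bool) : List Bool :=
  p.1.flatMap (fun b => [b, b]) ++ ([false, true] ++ p.2)

/-- `L` is decided by a deterministic Turing machine in polynomial time -/
def InP (L : Set (List Bool)) : Prop :=
  ∃ d : List Bool → Bool,
    Nonempty (TM2ComputableInPolyTime (fun w : List Bool => w) encodeBool d) ∧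
    ∀ w, w ∈ L ↔ d w = true

/-- `L` is in NP: membership of `w` is witnessed by certificates of polynomial length that a
deterministic Turing machine checks in polynomial time -/
def InNP (L : Set (List Bool)) : Prop :=
  ∃ (R : List Bool × List Bool → Bool) (p : Polynomial ℕ),
    Nonempty (TM2ComputableInPolyTime encPair encodeBool R) ∧
    ∀ w, w ∈ L ↔ ∃ c : List Bool, c.length ≤ p.eval w.length ∧ R (w, c) = true

end Pool.Agent.Lib.helper60
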