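import Pool.Agent.Lib.helper60.DTree

/-!
Polynomial-time functions between types encoded as binary trees, and closure properties.
-/

set_option autoImplicit false

namespace Pool.Agent.Lib.helper60

open Function

/-- encodings of data as binary trees -/
class DEnc (α : Type) where
  toD : α → D

export DEnc (toD)

section

variable {α β γ δ ι : Type} [DEnc α] [DEnc β] [DEnc γ] [DEnc δ] [DEnc ι]

/-- size of the code -/
def tsize (a : α) : ℕ := (toD a).size

lemma tsize_pos (a : α) : 0 < tsize a := D.size_pos _

lemma evalMono (P : Polynomial ℕ) : Monotone (fun n => P.eval n) := by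
  intro m n hmn
  induction P using Polynomial.induction_on' with
  | add p q hp hq => simp only [Polynomial.eval_add]; exact add_le_add hp hq
  | monomial k c =>
    simp only [Polynomial.eval_monomial]
    exact Nat.mul_le_mul_left _ (Nat.pow_le_pow_left hmn k)

/-- polynomially bounded in the size of the argument -/
def PB (t : α → ℕ) : Prop := ∃ P : Polynomial ℕ, ∀ a, t a ≤ P.eval (tsize a)

lemma PB.of_le {t t' : α → ℕ} (h : PB t') (hle : ∀ a, t a ≤ t' a) : PB t := by
  obtain ⟨P, hP⟩ := h
  exact ⟨P, fun a => (hle a).trans (hP a)⟩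

lemma PB.const (n : ℕ) : PB (fun _ : α => n) := ⟨Polynomial.C n, fun a => by simp⟩

lemma PB.tsize : PB (fun a : α => tsize a) := ⟨Polynomial.X, fun a => by simp⟩

lemma PB.add {t t' : α → ℕ} (h : PB t) (h' : PB t') : PB (fun a => t a + t' a) := by
  obtain ⟨P, hP⟩ := h
  obtain ⟨Q, hQ⟩ := h'
  exact ⟨P + Q, fun a => by simpa using add_le_add (hP a) (hQ a)⟩

lemma PB.mul {t t' : α → ℕ} (h : PB t) (h' : PB t') : PB (fun a => t a * t' a) := by
  obtain ⟨P, hP⟩ := h
  obtain ⟨Q, hQ⟩ := h'
  exact ⟨P * Q, fun a => by simpa using Nat.mul_le_mul (hP a) (hQ a)⟩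

lemma PB.pow {t : α → ℕ} (h : PB t) (k : ℕ) : PB (fun a => t a ^ k) := by
  obtain ⟨P, hP⟩ := h
  exact ⟨P ^ k, fun a => by simpa using Nat.pow_le_pow_left (hP a) k⟩

/-- substitution: if the size of `f a` is bounded, bounds on `t` transfer -/
lemma PB.comp {t : β → ℕ} {f : α → β} (h : PB t) (hf : PB (fun a => Lib.helper60.tsize (f a))) :
    PB (fun a => t (f a)) := by
  obtain ⟨P, hP⟩ := h
  obtain ⟨Q, hQ⟩ := hf
  exact ⟨P.comp Q, fun a => by
    rw [Polynomial.eval_comp]
    exact (hP (f a)).trans (evalMono P (hQ a))⟩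

/-- `f` is computed by a stack program in polynomial time: the program replaces the code of `a` on
top of the main stack by the code of `f a`. -/
def PT (f : α → β) : Prop :=
  ∃ (p : Prog R) (t : α → ℕ), PB t ∧ ∀ (a : α) (r : List Bool),
    Runs p (st ((toD a).enc ++ r) [] [] []) (t a) (st ((toD (f a)).enc ++ r) [] [] [])

lemma PT.size {f : α → β} (hf : PT f) : PB (fun a => Lib.helper60.tsize (f a)) := by
  obtain ⟨p, t, ht, h⟩ := hf
  refine (PB.tsize.add ht).of_le fun a => ?_
  have := (h a []).total_le
  simpa [total_st, Lib.helper60.tsize, D.size] using this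

lemma PT.congr {f g : α → β} (hf : PT f) (h : ∀ a, f a = g a) : PT g := by
  have : f = g := funext h
  rwa [← this]

/-- functions that do not change the code -/
lemma PT.recode {f : α → β} (h : ∀ a, toD (f a) = toD a) : PT f :=
  ⟨.skip, fun _ => 1, PB.const 1, fun a r => by rw [h]; exact Runs.skip _⟩

lemma PT.id : PT (fun a : α => a) := PT.recode fun _ => rfl

lemma PT.comp {g : β → γ} {f : α → β} (hg : PT g) (hf : PT f) : PT (fun a => g (f a)) := by
  have hs := hf.size
  obtain ⟨p, t, ht, h⟩ := hf
  obtain ⟨q, u, hu, h'⟩ := hg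
  exact ⟨p ++ q, fun a => t a + u (f a), ht.add (hu.comp hs), fun a r => (h a r).seq (h' (f a) r)⟩

lemma PT.const (b : β) : PT (fun _ : α => b) := by
  refine ⟨dropP ++ pushWord (toD b).enc, fun a => (7 * Lib.helper60.tsize a + 3) +
    ((toD b).enc.length + 1), ((((PB.const 7).mul PB.tsize).add (PB.const 3)).add (PB.const _)),
    fun a r => ?_⟩
  exact (dropP_runs (toD a) r).seq (pushWord_runs _ r)

instance : DEnc D := ⟨fun x => x⟩

/-- pairs -/
instance : DEnc (α × β) := ⟨fun x => D.node (toD x.1) (toD x.2)⟩

@[simp] lemma toD_pair (a : α) (b : β) : toD (a, b) = D.node (toD a) (toD b) := rfl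

@[simp] lemma tsize_pair (a : α) (b : β) : tsize (a, b) = tsize a + tsize b + 1 := by
  simp [tsize]

/-- general combination of two results -/
lemma PT.combine {f : α → β} {g : α → γ} {k : α → δ} (hf : PT f) (hg : PT g)
    (h : ∀ a, toD (k a) = D.node (toD (f a)) (toD (g a))) : PT k := by
  have hsf := hf.size
  have hsg := hg.size
  obtain ⟨p, t, ht, hp⟩ := hf
  obtain ⟨q, u, hu, hq⟩ := hg
  refine ⟨dupP ++ (p ++ (swapP ++ (q ++ (swapP ++ .push .m true)))),
    fun a => (12 * Lib.helper60.tsize a + 5) + (t a +
      ((7 * Lib.helper60.tsize (f a) + 7 * Lib.helper60.tsize a + 6) + (u a +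
        ((7 * Lib.helper60.tsize (g a) + 7 * Lib.helper60.tsize (f a) + 6) + 1)))), ?_, ?_⟩
  · exact (((PB.const 12).mul PB.tsize).add (PB.const 5)).add (ht.add
      (((((PB.const 7).mul hsf).add ((PB.const 7).mul PB.tsize)).add (PB.const 6)).add (hu.add
        (((((PB.const 7).mul hsg).add ((PB.const 7).mul hsf)).add (PB.const 6)).add (PB.const 1)))))
  · intro a r
    have h1 := dupP_runs (toD a) r
    have h2 := hp a ((toD a).enc ++ r)
    have h3 := swapP_runs (toD (f a)) (toD a) r
    have h4 := hq a ((toD (f a)).enc ++ r)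
    have h5 := swapP_runs (toD (g a)) (toD (f a)) r
    have h6 := Runs.push R.m true (st ((toD (f a)).enc ++ ((toD (g a)).enc ++ r)) [] [] [])
    have h7 := h1.seq (h2.seq (h3.seq (h4.seq (h5.seq h6))))
    rw [h a]
    simpa [D.enc, Lib.helper60.tsize] using h7

lemma PT.pair {f : α → β} {g : α → γ} (hf : PT f) (hg : PT g) : PT (fun a => (f a, g a)) :=
  PT.combine hf hg fun _ => rfl

/-- first component of a node -/
lemma PT.hdD : PT (fun x : D => match x with | .nil => D.nil | .node a _ => a) := by
  refine ⟨.popCase .m .skip (.push .m false) (swapP ++ dropP),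
    fun x => (7 * Lib.helper60.tsize x + 7 * Lib.helper60.tsize x + 6) +
      (7 * Lib.helper60.tsize x + 3) + 1,
    ((((((PB.const 7).mul PB.tsize).add ((PB.const 7).mul PB.tsize)).add (PB.const 6)).add
      (((PB.const 7).mul PB.tsize).add (PB.const 3))).add (PB.const 1)), ?_⟩
  intro x r
  cases x with
  | nil =>
    refine Runs.popF (k := R.m) (l := r) rfl ?_
    have := Runs.push R.m false (st r [] [] [])
    exact (by simpa [D.enc, toD] using this : Runs (.push R.m false) _ 1 _).mono (by omega)
  | node a b =>
    refine Runs.popT (k := R.m) (l := a.enc ++ (b.enc ++ r)) (by simp [D.enc, toD]) ?_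
    have h1 := (swapP_runs a b r).seq (dropP_runs b (a.enc ++ r))
    refine Runs.mono (t := _) (by simpa [D.enc, toD] using h1) ?_
    simp [Lib.helper60.tsize, toD]
    omega

/-- second component of a node -/
lemma PT.tlD : PT (fun x : D => match x with | .nil => D.nil | .node _ b => b) := by
  refine ⟨.popCase .m .skip (.push .m false) dropP,
    fun x => (7 * Lib.helper60.tsize x + 3) + 1,
    (((PB.const 7).mul PB.tsize).add (PB.const 3)).add (PB.const 1), ?_⟩
  intro x r
  cases x with
  | nil =>
    refine Runs.popF (k := R.m) (l := r) rfl ?_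
    have := Runs.push R.m false (st r [] [] [])
    exact (by simpa [D.enc, toD] using this : Runs (.push R.m false) _ 1 _).mono (by omega)
  | node a b =>
    refine Runs.popT (k := R.m) (l := a.enc ++ (b.enc ++ r)) (by simp [D.enc, toD]) ?_
    have h1 := dropP_runs a (b.enc ++ r)
    refine Runs.mono (t := _) (by simpa [D.enc, toD] using h1) ?_
    simp [Lib.helper60.tsize, toD]
    omega

lemma PT.fst : PT (fun x : α × β => x.1) := by
  have h := PT.hdD.comp (PT.recode (f := fun x : α × β => toD x) (fun _ => rfl))
  obtain ⟨p, t, ht, hp⟩ := h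
  exact ⟨p, t, ht, fun a r => hp a r⟩

lemma PT.snd : PT (fun x : α × β => x.2) := by
  have h := PT.tlD.comp (PT.recode (f := fun x : α × β => toD x) (fun _ => rfl))
  obtain ⟨p, t, ht, hp⟩ := h
  exact ⟨p, t, ht, fun a r => hp a r⟩

/-- booleans -/
instance : DEnc Bool := ⟨fun b => bif b then D.node .nil .nil else .nil⟩

@[simp] lemma toD_true : toD true = D.node .nil .nil := rfl
@[simp] lemma toD_false : toD false = D.nil := rfl

instance : DEnc Unit := ⟨fun _ => .nil⟩

@[simp] lemma toD_unit (u : Unit) : toD u = D.nil := rfl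

lemma tsize_bool_le (b : Bool) : tsize b ≤ 3 := by cases b <;> simp [tsize]

/-- branching on a tree -/
lemma PT.casesD {c : α → D} {f : α → γ} {g : α × D × D → γ} (hc : PT c) (hf : PT f) (hg : PT g) :
    PT (fun a => match c a with | .nil => f a | .node x y => g (a, x, y)) := by
  have hsc := hc.size
  obtain ⟨p, t, ht, hp⟩ := hc
  obtain ⟨q, u, hu, hq⟩ := hf
  obtain ⟨w, v, hv, hw⟩ := hg
  have hv' : ∃ v' : α → ℕ, PB v' ∧ ∀ a x y, c a = .node x y → v (a, x, y) ≤ v' a := by
    obtain ⟨P, hP⟩ := hv
    refine ⟨fun a => P.eval (Lib.helper60.tsize a + Lib.helper60.tsize (c a) + 1), ?_, ?_⟩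
    · obtain ⟨Q, hQ⟩ := (PB.tsize.add hsc).add (PB.const 1)
      exact ⟨P.comp Q, fun a => by rw [Polynomial.eval_comp]; exact evalMono P (hQ a)⟩
    · intro a x y hxy
      refine (hP _).trans (evalMono P ?_)
      rw [hxy]
      simp [Lib.helper60.tsize, toD]
  obtain ⟨v', hv'1, hv'2⟩ := hv'
  refine ⟨dupP ++ (p ++ .popCase .m .skip q (.push .m true ++ (swapP ++ (.push .m true ++ w)))),
    fun a => (12 * Lib.helper60.tsize a + 5) + (t a +
      ((u a + (1 + ((7 * Lib.helper60.tsize (c a) + 7 * Lib.helper60.tsize a + 6) +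
        (1 + v' a)))) + 1)), ?_, ?_⟩
  · exact (((PB.const 12).mul PB.tsize).add (PB.const 5)).add (ht.add
      ((hu.add ((PB.const 1).add (((((PB.const 7).mul hsc).add ((PB.const 7).mul PB.tsize)).add
        (PB.const 6)).add ((PB.const 1).add hv'1)))).add (PB.const 1)))
  · intro a r
    refine (dupP_runs (toD a) r).seq ((hp a ((toD a).enc ++ r)).seq ?_)
    beta_reduce
    cases hca : c a with
    | nil =>
      have h1 := hq a r
      refine Runs.mono (Runs.popF (k := R.m) (t := u a) (l := (toD a).enc ++ r) rfl
        (by simpa using h1)) (by omega)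
    | node x y =>
      have h1 := Runs.push R.m true (st (x.enc ++ (y.enc ++ ((toD a).enc ++ r))) [] [] [])
      have h2 := swapP_runs (.node x y) (toD a) r
      have h3 := Runs.push R.m true (st ((toD a).enc ++ ((D.node x y).enc ++ r)) [] [] [])
      have h4 := hw (a, x, y) r
      have h5 := h1.seq (t' := _) (S'' := _) ((by simpa [D.enc] using h2 :
        Runs swapP (update (st (x.enc ++ (y.enc ++ ((toD a).enc ++ r))) [] [] []) R.m
          (true :: (st (x.enc ++ (y.enc ++ ((toD a).enc ++ r))) [] [] []) R.m)) _
          (st ((toD a).enc ++ ((D.node x y).enc ++ r)) [] [] [])).seq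
        (h3.seq (t' := v (a, x, y)) (S'' := st ((toD (g (a, x, y))).enc ++ r) [] [] [])
          (by simpa [D.enc, toD] using h4)))
      refine Runs.mono (Runs.popT (k := R.m) (t := _) (l := x.enc ++ (y.enc ++ ((toD a).enc ++ r)))
        (by simp [toD, D.enc]) (by simpa using h5)) ?_
      have h6 := hv'2 a x y hca
      have h7 : Lib.helper60.tsize (D.node x y) = (D.node x y).size := rfl
      simp only [h7, D.size_node]
      have h8 : Lib.helper60.tsize a = (toD a).size := rfl
      simp only [h8]
      omega

lemma PT.code : PT (fun a : α => DEnc.toD a) := PT.recode fun _ => rfl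

/-- conditional -/
lemma PT.cond {c : α → Bool} {f g : α → γ} (hc : PT c) (hf : PT f) (hg : PT g) :
    PT (fun a => bif c a then f a else g a) := by
  have h := PT.casesD (g := fun x : α × D × D => f x.1) (PT.code.comp hc) hg (hf.comp PT.fst)
  refine h.congr fun a => ?_
  cases hca : c a <;> simp

lemma PT.ite {c : α → Prop} [DecidablePred c] {f g : α → γ} (hc : PT (fun a => decide (c a)))
    (hf : PT f) (hg : PT g) : PT (fun a => if c a then f a else g a) := by
  refine (PT.cond hc hf hg).congr fun a => ?_
  by_cases h : c a <;> simp [h]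

/-! ### lists -/

/-- trees of lists -/
def listToD : List α → D
  | [] => .nil
  | x :: xs => .node (toD x) (listToD xs)

instance : DEnc (List α) := ⟨listToD⟩

@[simp] lemma toD_nil : toD ([] : List α) = D.nil := rfl
@[simp] lemma toD_cons (x : α) (xs : List α) : toD (x :: xs) = D.node (toD x) (toD xs) := rfl

@[simp] lemma tsize_nil : tsize ([] : List α) = 1 := rfl
@[simp] lemma tsize_cons (x : α) (xs : List α) : tsize (x :: xs) = tsize x + tsize xs + 1 := by
  simp [tsize]

lemma PT.cons {f : α → β} {g : α → List β} (hf : PT f) (hg : PT g) : PT (fun a => f a :: g a) :=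
  PT.combine hf hg fun _ => rfl

/-- naturals in unary -/
def natToD : ℕ → D
  | 0 => .nil
  | n + 1 => .node .nil (natToD n)

instance : DEnc ℕ := ⟨natToD⟩

@[simp] lemma toD_zero : toD (0 : ℕ) = D.nil := rfl
@[simp] lemma toD_succ (n : ℕ) : toD (n + 1) = D.node .nil (toD n) := rfl

@[simp] lemma tsize_nat (n : ℕ) : tsize n = 2 * n + 1 := by
  induction n with
  | zero => rfl
  | succ n ih =>
    have : tsize (n + 1) = tsize n + 2 := by simp [tsize]; omega
    rw [this, ih]; ring

lemma PT.succ : PT (fun n : ℕ => n + 1) := by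
  refine PT.combine (f := fun _ : ℕ => D.nil) (g := fun n : ℕ => n) (PT.const _) PT.id fun n => ?_
  rfl

end

/-! ### decoding relations for the recursor-like operations -/

section decode

variable {α β γ δ ι : Type} [DEnc α] [DEnc β] [DEnc γ] [DEnc δ] [DEnc ι]

/-- case distinction on a list -/
lemma PT.listCases {l : α → List β} {f : α → γ} {g : α × β × List β → γ} (hl : PT l) (hf : PT f)
    (hg : PT g) : PT (fun a => match l a with | [] => f a | x :: xs => g (a, x, xs)) := by
  have hsc := hl.size
  obtain ⟨p, t, ht, hp⟩ := hl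
  obtain ⟨q, u, hu, hq⟩ := hf
  obtain ⟨w, v, hv, hw⟩ := hg
  have hv' : ∃ v' : α → ℕ, PB v' ∧ ∀ a x y, l a = x :: y → v (a, x, y) ≤ v' a := by
    obtain ⟨P, hP⟩ := hv
    refine ⟨fun a => P.eval (tsize a + tsize (l a) + 1), ?_, ?_⟩
    · obtain ⟨Q, hQ⟩ := (PB.tsize.add hsc).add (PB.const 1)
      exact ⟨P.comp Q, fun a => by rw [Polynomial.eval_comp]; exact evalMono P (hQ a)⟩
    · intro a x y hxy
      refine (hP _).trans (evalMono P ?_)
      rw [hxy]
      simp
  obtain ⟨v', hv'1, hv'2⟩ := hv'
  refine ⟨dupP ++ (p ++ .popCase .m .skip q (.push .m true ++ (swapP ++ (.push .m true ++ w)))),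
    fun a => (12 * tsize a + 5) + (t a +
      ((u a + (1 + ((7 * tsize (l a) + 7 * tsize a + 6) + (1 + v' a)))) + 1)), ?_, ?_⟩
  · exact (((PB.const 12).mul PB.tsize).add (PB.const 5)).add (ht.add
      ((hu.add ((PB.const 1).add (((((PB.const 7).mul hsc).add ((PB.const 7).mul PB.tsize)).add
        (PB.const 6)).add ((PB.const 1).add hv'1)))).add (PB.const 1)))
  · intro a r
    refine (dupP_runs (toD a) r).seq ((hp a ((toD a).enc ++ r)).seq ?_)
    beta_reduce
    cases hca : l a with
    | nil =>
      have h1 := hq a r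
      refine Runs.mono (Runs.popF (k := R.m) (t := u a) (l := (toD a).enc ++ r) rfl
        (by simpa using h1)) (by omega)
    | cons x y =>
      have h1 := Runs.push R.m true
        (st ((toD x).enc ++ ((toD y).enc ++ ((toD a).enc ++ r))) [] [] [])
      have h2 := swapP_runs (.node (toD x) (toD y)) (toD a) r
      have h3 := Runs.push R.m true
        (st ((toD a).enc ++ ((D.node (toD x) (toD y)).enc ++ r)) [] [] [])
      have h4 := hw (a, x, y) r
      have h5 := h1.seq (t' := _) (S'' := _) ((by simpa [D.enc] using h2 :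
        Runs swapP (update (st ((toD x).enc ++ ((toD y).enc ++ ((toD a).enc ++ r))) [] [] []) R.m
          (true :: (st ((toD x).enc ++ ((toD y).enc ++ ((toD a).enc ++ r))) [] [] []) R.m)) _
          (st ((toD a).enc ++ ((D.node (toD x) (toD y)).enc ++ r)) [] [] [])).seq
        (h3.seq (t' := v (a, x, y)) (S'' := st ((toD (g (a, x, y))).enc ++ r) [] [] [])
          (by simpa [D.enc] using h4)))
      refine Runs.mono (Runs.popT (k := R.m) (t := _)
        (l := (toD x).enc ++ ((toD y).enc ++ ((toD a).enc ++ r)))
        (by simp [D.enc]) (by simpa using h5)) ?_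
      have h6 := hv'2 a x y hca
      have h7 : tsize (x :: y) = (D.node (toD x) (toD y)).size := rfl
      simp only [h7, D.size_node]
      have h8 : tsize a = (toD a).size := rfl
      simp only [h8]
      omega

/-- case distinction on a natural number -/
lemma PT.natCases {l : α → ℕ} {f : α → γ} {g : α × ℕ → γ} (hl : PT l) (hf : PT f)
    (hg : PT g) : PT (fun a => match l a with | 0 => f a | n + 1 => g (a, n)) := by
  have hl' : PT (fun a => List.replicate (l a) ()) := by
    obtain ⟨p, t, ht, hp⟩ := hl
    refine ⟨p, t, ht, fun a r => ?_⟩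
    have : ∀ n : ℕ, toD (List.replicate n ()) = toD n := by
      intro n
      induction n with
      | zero => rfl
      | succ n ih => rw [List.replicate_succ, toD_cons, ih]; rfl
    rw [this]
    exact hp a r
  -- recode lists of units as naturals
  have hlen : PT (fun l : List Unit => l.length) := by
    refine PT.recode fun l => ?_
    induction l with
    | nil => rfl
    | cons x xs ih => rw [toD_cons, ← ih]; rfl
  have hg' : PT (fun x : α × Unit × List Unit => g (x.1, x.2.2.length)) :=
    hg.comp (PT.pair PT.fst (hlen.comp (PT.snd.comp PT.snd)))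
  refine (PT.listCases hl' hf hg').congr fun a => ?_
  cases h : l a with
  | zero => simp
  | succ n => simp [List.replicate_succ]

end decode

/-! ### iteration -/

/-- length of the right spine -/
def D.spine : D → ℕ
  | .nil => 0
  | .node _ b => b.spine + 1

section iterate

variable {α β γ δ ι σ : Type} [DEnc α] [DEnc β] [DEnc γ] [DEnc δ] [DEnc ι] [DEnc σ]

@[simp] lemma spine_list (l : List α) : (toD l).spine = l.length := by
  induction l with
  | nil => rfl
  | cons x xs ih => simp [D.spine, ih]

@[simp] lemma spine_nat (n : ℕ) : (toD n).spine = n := by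
  induction n with
  | zero => rfl
  | succ n ih => simp [D.spine, ih]

/-- body of the iteration loop -/
def iterBody (p : Prog R) : Prog R :=
  .popCase .m .skip .skip
    (.popCase .m .skip .skip
      (dropP ++ (swapP ++ (p ++ (swapP ++ (.push .m true ++ .push .b true))))))

/-- the iteration program -/
def iterP (p : Prog R) : Prog R :=
  .push .b true ++ .loop .b (iterBody p) (iterBody p)

lemma iter_loop {step : σ → σ} {p : Prog R} {t : σ → ℕ}
    (hp : ∀ (a : σ) (r : List Bool),
      Runs p (st ((toD a).enc ++ r) [] [] []) (t a) (st ((toD (step a)).enc ++ r) [] [] []))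
    (T : ℕ) (r : List Bool) : ∀ (n : D) (s : σ),
      (∀ i < n.spine, t (step^[i] s) + 21 * n.size + 7 * tsize (step^[i] s) +
        7 * tsize (step^[i+1] s) + 20 ≤ T) →
      Runs (.loop .b (iterBody p) (iterBody p)) (st (true :: (n.enc ++ ((toD s).enc ++ r))) [] [true] [])
        (n.spine * (T + 1) + 5) (st ((toD (step^[n.spine] s)).enc ++ r) [] [] [])
  | .nil, s, _ => by
    have h1 : Runs (.popCase .m .skip .skip
      (dropP ++ (swapP ++ (p ++ (swapP ++ (.push .m true ++ .push .b true))))))
        (st (false :: ((toD s).enc ++ r)) [] [] []) 2 (st ((toD s).enc ++ r) [] [] []) :=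
      Runs.popF (k := R.m) (l := (toD s).enc ++ r) rfl (by simpa using Runs.skip _)
    have h2 : Runs (iterBody p) (st (true :: ((D.nil).enc ++ ((toD s).enc ++ r))) [] [] []) 3
        (st ((toD s).enc ++ r) [] [] []) :=
      Runs.popT (k := R.m) (l := (D.nil).enc ++ ((toD s).enc ++ r)) rfl
        (by simpa [D.enc] using h1)
    have h3 := Runs.loopT (k := R.b) (pF := iterBody p) (pT := iterBody p) (l := [])
      (S := st (true :: ((D.nil).enc ++ ((toD s).enc ++ r))) [] [true] []) rfl
      (by simpa using h2) (Runs.loopN rfl)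
    exact h3.mono (by simp [D.spine])
  | .node x n, s, hT => by
    have h0 := hT 0 (by simp [D.spine])
    simp only [iterate_zero, id_eq, zero_add, iterate_one] at h0
    have h1 := dropP_runs x (n.enc ++ ((toD s).enc ++ r))
    have h2 := swapP_runs n (toD s) r
    have h3 := hp s (n.enc ++ r)
    have h4 := swapP_runs (toD (step s)) n r
    have h5 := Runs.push R.m true (st (n.enc ++ ((toD (step s)).enc ++ r)) [] [] [])
    have h6 := Runs.push R.b true (st (true :: (n.enc ++ ((toD (step s)).enc ++ r))) [] [] [])
    have h7 := h1.seq (h2.seq (h3.seq (h4.seq (h5.seq (t' := 1)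
      (S'' := st (true :: (n.enc ++ ((toD (step s)).enc ++ r))) [] [true] [])
      (by simpa using h6)))))
    have h8 := Runs.popT (k := R.m) (pN := .skip) (pF := .skip)
      (S := st (true :: (x.enc ++ (n.enc ++ ((toD s).enc ++ r)))) [] [] [])
      (l := x.enc ++ (n.enc ++ ((toD s).enc ++ r))) rfl (by simpa using h7)
    have h9 := Runs.popT (k := R.m) (pN := .skip) (pF := .skip)
      (S := st (true :: ((D.node x n).enc ++ ((toD s).enc ++ r))) [] [] [])
      (l := true :: (x.enc ++ (n.enc ++ ((toD s).enc ++ r)))) (by simp [D.enc])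
      (by simpa using h8)
    have ih := iter_loop hp T r n (step s) (by
      intro i hi
      have := hT (i + 1) (by simp only [D.spine]; omega)
      simp only [iterate_succ_apply] at this ⊢
      simp only [D.size_node] at this
      omega)
    have h10 := Runs.loopT (k := R.b) (pF := iterBody p) (pT := iterBody p) (l := [])
      (S := st (true :: ((D.node x n).enc ++ ((toD s).enc ++ r))) [] [true] []) rfl
      (by simpa [iterBody] using h9) (by simpa using ih)
    refine Runs.mono (by simpa [D.spine, iterate_succ_apply] using h10) ?_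
    simp only [D.size_node] at h0
    simp only [D.spine, tsize] at h0 ⊢
    have e : (n.spine + 1) * (T + 1) = n.spine * (T + 1) + T + 1 := by ring
    rw [e]
    omega

/-- **Bounded iteration.** -/
theorem PT.iterateD {count : ι → D} {init : ι → σ} {step : σ → σ} (hc : PT count) (hi : PT init)
    (hs : PT step) (hb : ∃ t : ι → ℕ, PB t ∧
      ∀ x i, i ≤ (count x).spine → tsize (step^[i] (init x)) ≤ t x) :
    PT (fun x => step^[(count x).spine] (init x)) := by
  obtain ⟨p, u, hu, hp⟩ := hs
  obtain ⟨q, v, hv, hq⟩ := hc.pair hi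
  obtain ⟨bnd, hbnd, hbd⟩ := hb
  obtain ⟨P, hP⟩ := hu
  have hcs := hc.size
  have hsp : ∀ n : D, n.spine ≤ n.size := by
    intro n
    induction n with
    | nil => simp [D.spine]
    | node a b _ ih => simp [D.spine]; omega
  let T : ι → ℕ := fun x => P.eval (bnd x) + 21 * tsize (count x) + 7 * bnd x + 7 * bnd x + 20
  have hT : PB T := by
    have h1 : PB (fun x => P.eval (bnd x)) := by
      obtain ⟨Q, hQ⟩ := hbnd
      exact ⟨P.comp Q, fun a => by rw [Polynomial.eval_comp]; exact evalMono P (hQ a)⟩
    exact (((h1.add ((PB.const 21).mul hcs)).add ((PB.const 7).mul hbnd)).add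
      ((PB.const 7).mul hbnd)).add (PB.const 20)
  refine ⟨q ++ iterP p, fun x => v x + (1 + (tsize (count x) * (T x + 1) + 5)),
    hv.add ((PB.const 1).add ((hcs.mul (hT.add (PB.const 1))).add (PB.const 5))), ?_⟩
  intro x r
  have h1 := hq x r
  have h2 := Runs.push R.b true (st (true :: ((count x).enc ++ ((toD (init x)).enc ++ r))) [] [] [])
  have h3 := iter_loop hp (T x) r (count x) (init x) (by
    intro i hi
    have h4 := hbd x i hi.le
    have h5 := hbd x (i + 1) hi
    have h6 := (hP (step^[i] (init x))).trans (evalMono P h4)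
    have h7 : tsize (count x) = (count x).size := rfl
    simp only [T, h7]
    simp only at h6
    omega)
  have h4 := h2.seq (t' := _) (S'' := _) (by simpa using h3)
  have h5 := h1.seq (t' := _) (S'' := _) (by simpa [D.enc, toD, iterP] using h4 :
    Runs (iterP p) (st ((toD ((count x), (init x))).enc ++ r) [] [] []) _ _)
  refine h5.mono ?_
  have h8 : (count x).spine * (T x + 1) ≤ tsize (count x) * (T x + 1) :=
    Nat.mul_le_mul_right _ (hsp _)
  beta_reduce
  omega

lemma PT.iterateNat {count : ι → ℕ} {init : ι → σ} {step : σ → σ} (hc : PT count) (hi : PT init)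
    (hs : PT step) (hb : ∃ t : ι → ℕ, PB t ∧
      ∀ x i, i ≤ count x → tsize (step^[i] (init x)) ≤ t x) :
    PT (fun x => step^[count x] (init x)) := by
  have := PT.iterateD (count := fun x => toD (count x)) (PT.code.comp hc) hi hs
    (by simpa using hb)
  simpa using this

lemma PT.iterateList {count : ι → List β} {init : ι → σ} {step : σ → σ} (hc : PT count)
    (hi : PT init) (hs : PT step) (hb : ∃ t : ι → ℕ, PB t ∧
      ∀ x i, i ≤ (count x).length → tsize (step^[i] (init x)) ≤ t x) :
    PT (fun x => step^[(count x).length] (init x)) := by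
  have := PT.iterateD (count := fun x => toD (count x)) (PT.code.comp hc) hi hs
    (by simpa using hb)
  simpa using this

/-- **Folding over a list.** -/
theorem PT.foldl {l : ι → List β} {init : ι → σ} {g : ι × σ × β → σ} (hl : PT l) (hi : PT init)
    (hg : PT g) (hb : ∃ t : ι → ℕ, PB t ∧
      ∀ x l₁ l₂, l₁ ++ l₂ = l x → tsize (l₁.foldl (fun s b => g (x, s, b)) (init x)) ≤ t x) :
    PT (fun x => (l x).foldl (fun s b => g (x, s, b)) (init x)) := by
  let stp : ι × List β × σ → ι × List β × σ := fun y =>
    match y.2.1 with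
    | [] => y
    | b :: tl => (y.1, tl, g (y.1, y.2.2, b))
  have hstp : PT stp := by
    have h1 : PT (fun z : (ι × List β × σ) × β × List β =>
        (z.1.1, z.2.2, g (z.1.1, z.1.2.2, z.2.1))) :=
      PT.pair (PT.fst.comp PT.fst) (PT.pair (PT.snd.comp PT.snd)
        (hg.comp (PT.pair (PT.fst.comp PT.fst) (PT.pair (PT.snd.comp (PT.snd.comp PT.fst))
          (PT.fst.comp PT.snd)))))
    exact PT.listCases (l := fun y : ι × List β × σ => y.2.1) (PT.fst.comp PT.snd) PT.id h1
  have hit : ∀ (i : ℕ) (x : ι) (l' : List β) (s : σ), i ≤ l'.length →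
      stp^[i] (x, l', s) = (x, l'.drop i, (l'.take i).foldl (fun s b => g (x, s, b)) s) := by
    intro i
    induction i with
    | zero => intro x l' s _; simp
    | succ i ih =>
      intro x l' s h
      cases l' with
      | nil => simp at h
      | cons b tl =>
        rw [iterate_succ_apply]
        have : stp (x, b :: tl, s) = (x, tl, g (x, s, b)) := rfl
        rw [this, ih x tl _ (by simpa using h)]
        simp
  have htl : ∀ (l' : List β) (i : ℕ), tsize (l'.drop i) ≤ tsize l' := by
    intro l'
    induction l' with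
    | nil => intro i; simp
    | cons b tl ih =>
      intro i
      cases i with
      | zero => simp
      | succ i =>
        have := ih i
        simp only [List.drop_succ_cons, tsize_cons]
        omega
  obtain ⟨t, ht, hbd⟩ := hb
  have h2 := PT.iterateList (count := l) (init := fun x => (x, l x, init x)) hl
    (PT.pair PT.id (PT.pair hl hi)) hstp
    ⟨fun x => tsize x + (tsize (l x) + t x + 1) + 1,
      (PB.tsize.add ((hl.size.add ht).add (PB.const 1))).add (PB.const 1), by
      intro x i hi'
      rw [hit i x (l x) (init x) hi']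
      have h3 := hbd x ((l x).take i) ((l x).drop i) (List.take_append_drop i (l x))
      have h4 := htl (l x) i
      simp only [tsize_pair]
      omega⟩
  refine ((PT.snd.comp PT.snd).comp h2).congr fun x => ?_
  simp only [hit (l x).length x (l x) (init x) le_rfl, List.take_length]

end iterate

end Pool.Agent.Lib.helper60
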