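import Pool.Agent.Lib.helper60.NPLib
import Pool.Agent.Lib.helper66.CookLevin
import Pool.Agent.Lib.helper60.CNF

/-!
Conversion between two codings of pairs of bit strings, and NP-hardness of satisfiability for the
coding of formulas of this library.
-/

set_option autoImplicit false

namespace Pool.Agent.Lib.helper60

open Turing Computability Function

namespace Conv

/-- stacks of the converter -/
inductive K3 : Type
  | inp : K3
  | aux : K3
  | out : K3
  deriving DecidableEq

instance : Fintype K3 := ⟨{.inp, .aux, .out}, by intro x; cases x <;> simp⟩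

/-- labels of the converter -/
inductive L3 : Type
  | A : L3
  | B : L3
  | C : L3
  deriving DecidableEq

instance : Fintype L3 := ⟨{.A, .B, .C}, by intro x; cases x <;> simp⟩

/-- stack alphabets of the converter -/
@[reducible] def Γ3 : K3 → Type
  | .inp => Option Bool
  | .aux => Bool
  | .out => Bool

/-- states of the converter -/
abbrev S3 : Type := Option (Option Bool)

/-- the bit stored in the state -/
def bitOf (v : S3) : Bool := (v.getD none).getD false

/-- the program of the converter -/
def prog3 : L3 → TM2.Stmt Γ3 L3 S3
  | .A => .pop .inp (fun _ o => o) <|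
      .branch (fun v => decide (v = some none))
        (.push .aux (fun _ => false) <| .push .aux (fun _ => true) <| .load (fun _ => none) <|
          .goto (fun _ => .B)) <|
        .push .aux bitOf <| .push .aux bitOf <| .load (fun _ => none) <| .goto (fun _ => .A)
  | .B => .pop .inp (fun _ o => o) <|
      .branch (fun v => v.isNone) (.goto (fun _ => .C)) <|
        .push .aux bitOf <| .load (fun _ => none) <| .goto (fun _ => .B)
  | .C => .pop .aux (fun _ o => o.map some) <|
      .branch (fun v => v.isNone) .halt <|
        .push .out bitOf <| .load (fun _ => none) <| .goto (fun _ => .C)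

/-- stacks -/
def s3 (a : List (Option Bool)) (b c : List Bool) : ∀ k, List (Γ3 k)
  | .inp => a
  | .aux => b
  | .out => c

lemma cfg_congr {l l' : Option L3} {v v' : S3} {T T' : ∀ k, List (Γ3 k)} (h1 : l = l')
    (h2 : v = v') (h3 : ∀ k, T k = T' k) :
    (⟨l, v, T⟩ : TM2.Cfg Γ3 L3 S3) = ⟨l', v', T'⟩ := by
  subst h1
  subst h2
  have : T = T' := funext h3
  subst this
  rfl

lemma stepA (b : Bool) (a : List (Option Bool)) (x y : List Bool) :
    TM2.step prog3 ⟨some .A, none, s3 (some b :: a) x y⟩ =
      some ⟨some .A, none, s3 a (b :: b :: x) y⟩ :=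
  congrArg some (cfg_congr rfl rfl (by intro k; cases k <;> rfl))

lemma stepA' (a : List (Option Bool)) (x y : List Bool) :
    TM2.step prog3 ⟨some .A, none, s3 (none :: a) x y⟩ =
      some ⟨some .B, none, s3 a (true :: false :: x) y⟩ :=
  congrArg some (cfg_congr rfl rfl (by intro k; cases k <;> rfl))

lemma stepB (b : Bool) (a : List (Option Bool)) (x y : List Bool) :
    TM2.step prog3 ⟨some .B, none, s3 (some b :: a) x y⟩ =
      some ⟨some .B, none, s3 a (b :: x) y⟩ :=
  congrArg some (cfg_congr rfl rfl (by intro k; cases k <;> rfl))

lemma stepB' (x y : List Bool) :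
    TM2.step prog3 ⟨some .B, none, s3 [] x y⟩ = some ⟨some .C, none, s3 [] x y⟩ :=
  congrArg some (cfg_congr rfl rfl (by intro k; cases k <;> rfl))

lemma stepC (b : Bool) (x y : List Bool) :
    TM2.step prog3 ⟨some .C, none, s3 [] (b :: x) y⟩ = some ⟨some .C, none, s3 [] x (b :: y)⟩ :=
  congrArg some (cfg_congr rfl rfl (by intro k; cases k <;> rfl))

lemma stepC' (y : List Bool) :
    TM2.step prog3 ⟨some .C, none, s3 [] [] y⟩ = some ⟨none, none, s3 [] [] y⟩ :=
  congrArg some (cfg_congr rfl rfl (by intro k; cases k <;> rfl))

lemma runA (w : List Bool) : ∀ (a : List (Option Bool)) (x y : List Bool),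
    stepsN (TM2.step prog3) (w.length + 1)
      ⟨some .A, none, s3 (w.map some ++ none :: a) x y⟩
      ⟨some .B, none, s3 a (true :: false :: ((w.flatMap (fun b => [b, b])).reverse ++ x)) y⟩ := by
  induction w with
  | nil => intro a x y; exact stepsN_one (stepA' a x y)
  | cons b w ih =>
    intro a x y
    have h := ih a (b :: b :: x) y
    have e : (((b :: w).flatMap (fun b => [b, b])).reverse ++ x) =
        ((w.flatMap (fun b => [b, b])).reverse ++ (b :: b :: x)) := by simp
    rw [e]
    exact stepsN_succ (stepA b _ x y) h

lemma runB (w : List Bool) : ∀ (x y : List Bool),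
    stepsN (TM2.step prog3) (w.length + 1)
      ⟨some .B, none, s3 (w.map some) x y⟩ ⟨some .C, none, s3 [] (w.reverse ++ x) y⟩ := by
  induction w with
  | nil => intro x y; exact stepsN_one (stepB' x y)
  | cons b w ih =>
    intro x y
    have h := ih (b :: x) y
    have e : ((b :: w).reverse ++ x) = (w.reverse ++ (b :: x)) := by simp
    rw [e]
    exact stepsN_succ (stepB b _ x y) h

lemma runC (w : List Bool) : ∀ (y : List Bool),
    stepsN (TM2.step prog3) (w.length + 1)
      ⟨some .C, none, s3 [] w y⟩ ⟨none, none, s3 [] [] (w.reverse ++ y)⟩ := by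
  induction w with
  | nil => intro y; exact stepsN_one (stepC' y)
  | cons b w ih =>
    intro y
    have h := ih (b :: y)
    have e : ((b :: w).reverse ++ y) = (w.reverse ++ (b :: y)) := by simp
    rw [e]
    exact stepsN_succ (stepC b w y) h

/-- the converter -/
def conv3 : FinTM2 where
  K := K3
  k₀ := .inp
  k₁ := .out
  Γ := Γ3
  Λ := L3
  main := .A
  σ := S3
  initialState := none
  m := prog3

lemma conv3_init (w : List (Option Bool)) :
    initList conv3 w = ⟨some L3.A, none, s3 w [] []⟩ := by
  unfold initList
  exact cfg_congr rfl rfl (by intro k; cases k <;> rfl)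

lemma conv3_halt (w : List Bool) : haltList conv3 w = ⟨none, none, s3 [] [] w⟩ := by
  unfold haltList
  exact cfg_congr rfl rfl (by intro k; cases k <;> rfl)

lemma conv3_run (p : List Bool × List Bool) :
    stepsN (TM2.step prog3) ((p.1.length + 1) + ((p.2.length + 1) + ((encPair p).length + 1)))
      (initList conv3 (H66.pairCode p)) (haltList conv3 (encPair p)) := by
  rw [conv3_init, conv3_halt]
  have h1 := runA p.1 (p.2.map some) [] []
  have h2 := runB p.2 (true :: false :: ((p.1.flatMap (fun b => [b, b])).reverse ++ [])) []
  have h3 := runC (encPair p).reverse []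
  have e : p.2.reverse ++ (true :: false :: ((p.1.flatMap (fun b => [b, b])).reverse ++ [])) =
      (encPair p).reverse := by simp [encPair]
  rw [e] at h2
  rw [List.length_reverse, List.reverse_reverse, List.append_nil] at h3
  exact stepsN_trans h1 (stepsN_trans h2 h3)

end Conv

open Conv in
/-- the coding of pairs with a separator can be converted into the coding by bits -/
theorem pairCode_to_encPair : Nonempty (TM2ComputableInPolyTime H66.pairCode encPair
    (fun p : List Bool × List Bool => p)) := by
  have key : ∀ (p : List Bool × List Bool), Nonempty (TM2OutputsInTime conv3 (H66.pairCode p)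
      (some (encPair p)) ((3 * Polynomial.X + 4 : Polynomial ℕ).eval (H66.pairCode p).length)) := by
    intro p
    refine ⟨⟨⟨_, conv3_run p⟩, ?_⟩⟩
    have e1 : (H66.pairCode p).length = p.1.length + 1 + p.2.length := by
      simp [H66.pairCode]
      omega
    have e2 : (encPair p).length = 2 * p.1.length + 2 + p.2.length := by
      have : (p.1.flatMap (fun b => [b, b])).length = 2 * p.1.length := by
        induction p.1 with
        | nil => rfl
        | cons b w ih => simp only [List.flatMap_cons, List.length_append, List.length_cons,
            List.length_nil, ih]; ring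
      simp only [encPair, List.length_append, this, List.length_cons, List.length_nil]
      omega
    simp only [Polynomial.eval_add, Polynomial.eval_mul, Polynomial.eval_X, Polynomial.eval_ofNat]
    rw [e1, e2]
    omega
  have key2 : ∀ (p : List Bool × List Bool) (u : List (Option Bool)) (v : List Bool),
      u = H66.pairCode p → v = encPair p →
      Nonempty (TM2OutputsInTime conv3 u (some v)
        ((3 * Polynomial.X + 4 : Polynomial ℕ).eval (H66.pairCode p).length)) := by
    rintro p u v rfl rfl
    exact key p
  exact ⟨{ tm := conv3
           inputAlphabet := Equiv.refl (Option Bool)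
           outputAlphabet := Equiv.refl Bool
           time := 3 * Polynomial.X + 4
           outputsFun := fun p => (key2 p _ _ (List.map_id _) (List.map_id _)).some }⟩

/-- the two definitions of NP agree (one direction) -/
theorem InNP.toH66 {L : Set (List Bool)} (h : InNP L) : H66.InNP L := by
  obtain ⟨R, p, ⟨hR⟩, hL⟩ := h
  obtain ⟨hc⟩ := pairCode_to_encPair
  exact ⟨p, R, TM2_comp hc hR, hL⟩

end Pool.Agent.Lib.helper60
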