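import Mathlib

/-!
Structured programs on finitely many stacks of bits, with a cost semantics, and their
translation into the `Turing.TM2` machines of Mathlib.
-/

set_option autoImplicit false

namespace Pool.Agent.Lib.helper60

open Turing StateTransition Function

/-- Structured programs on stacks of bits indexed by `K`.
`popCase k pN pF pT` pops stack `k` and runs `pN` if it was empty, `pF` / `pT` if the popped bit
was `false` / `true`. `loop k pF pT` pops stack `k` and runs `pF` / `pT`, again and again,
until stack `k` is found empty. -/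
inductive Prog (K : Type) : Type where
  | skip : Prog K
  | push : K → Bool → Prog K
  | seq : Prog K → Prog K → Prog K
  | popCase : K → Prog K → Prog K → Prog K → Prog K
  | loop : K → Prog K → Prog K → Prog K

variable {K : Type}

/-- sequential composition is written `++` -/
instance : Append (Prog K) := ⟨Prog.seq⟩

/-- the stacks -/
abbrev Stk (K : Type) := K → List Bool

/-- `Exec p S t S'`: started with stacks `S`, the program `p` ends with stacks `S'` after exactly
`t` steps. -/
inductive Exec [DecidableEq K] : Prog K → Stk K → ℕ → Stk K → Prop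
  | skip (S : Stk K) : Exec .skip S 1 S
  | push (k : K) (b : Bool) (S : Stk K) : Exec (.push k b) S 1 (update S k (b :: S k))
  | seq {p q : Prog K} {S S' S'' : Stk K} {t t' : ℕ} :
      Exec p S t S' → Exec q S' t' S'' → Exec (p ++ q) S (t + t') S''
  | popN {k : K} {pN pF pT : Prog K} {S S' : Stk K} {t : ℕ} :
      S k = [] → Exec pN S t S' → Exec (.popCase k pN pF pT) S (t + 1) S'
  | popF {k : K} {pN pF pT : Prog K} {S S' : Stk K} {t : ℕ} {l : List Bool} :
      S k = false :: l → Exec pF (update S k l) t S' → Exec (.popCase k pN pF pT) S (t + 1) S'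
  | popT {k : K} {pN pF pT : Prog K} {S S' : Stk K} {t : ℕ} {l : List Bool} :
      S k = true :: l → Exec pT (update S k l) t S' → Exec (.popCase k pN pF pT) S (t + 1) S'
  | loopN {k : K} {pF pT : Prog K} {S : Stk K} :
      S k = [] → Exec (.loop k pF pT) S 1 S
  | loopF {k : K} {pF pT : Prog K} {S S' S'' : Stk K} {t t' : ℕ} {l : List Bool} :
      S k = false :: l → Exec pF (update S k l) t S' → Exec (.loop k pF pT) S' t' S'' →
      Exec (.loop k pF pT) S (t + t' + 1) S''
  | loopT {k : K} {pF pT : Prog K} {S S' S'' : Stk K} {t t' : ℕ} {l : List Bool} :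
      S k = true :: l → Exec pT (update S k l) t S' → Exec (.loop k pF pT) S' t' S'' →
      Exec (.loop k pF pT) S (t + t' + 1) S''

/-- `Runs p S t S'`: started with stacks `S`, the program `p` ends with stacks `S'` after at most
`t` steps. -/
def Runs [DecidableEq K] (p : Prog K) (S : Stk K) (t : ℕ) (S' : Stk K) : Prop :=
  ∃ t' ≤ t, Exec p S t' S'

section rules

variable [DecidableEq K]

lemma Runs.mono {p : Prog K} {S S' : Stk K} {t t' : ℕ} (h : Runs p S t S') (htt : t ≤ t') :
    Runs p S t' S' := by
  obtain ⟨u, hu, he⟩ := h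
  exact ⟨u, hu.trans htt, he⟩

lemma Runs.skip (S : Stk K) : Runs .skip S 1 S := ⟨1, le_rfl, Exec.skip S⟩

lemma Runs.push (k : K) (b : Bool) (S : Stk K) :
    Runs (.push k b) S 1 (update S k (b :: S k)) := ⟨1, le_rfl, Exec.push k b S⟩

lemma Runs.seq {p q : Prog K} {S S' S'' : Stk K} {t t' : ℕ}
    (h : Runs p S t S') (h' : Runs q S' t' S'') : Runs (p ++ q) S (t + t') S'' := by
  obtain ⟨u, hu, he⟩ := h
  obtain ⟨u', hu', he'⟩ := h'
  exact ⟨u + u', by omega, Exec.seq he he'⟩

lemma Runs.popN {k : K} {pN pF pT : Prog K} {S S' : Stk K} {t : ℕ}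
    (hS : S k = []) (h : Runs pN S t S') : Runs (.popCase k pN pF pT) S (t + 1) S' := by
  obtain ⟨u, hu, he⟩ := h
  exact ⟨u + 1, by omega, Exec.popN hS he⟩

lemma Runs.popF {k : K} {pN pF pT : Prog K} {S S' : Stk K} {t : ℕ} {l : List Bool}
    (hS : S k = false :: l) (h : Runs pF (update S k l) t S') :
    Runs (.popCase k pN pF pT) S (t + 1) S' := by
  obtain ⟨u, hu, he⟩ := h
  exact ⟨u + 1, by omega, Exec.popF hS he⟩

lemma Runs.popT {k : K} {pN pF pT : Prog K} {S S' : Stk K} {t : ℕ} {l : List Bool}
    (hS : S k = true :: l) (h : Runs pT (update S k l) t S') :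
    Runs (.popCase k pN pF pT) S (t + 1) S' := by
  obtain ⟨u, hu, he⟩ := h
  exact ⟨u + 1, by omega, Exec.popT hS he⟩

lemma Runs.loopN {k : K} {pF pT : Prog K} {S : Stk K} (hS : S k = []) :
    Runs (.loop k pF pT) S 1 S := ⟨1, le_rfl, Exec.loopN hS⟩

lemma Runs.loopF {k : K} {pF pT : Prog K} {S S' S'' : Stk K} {t t' : ℕ} {l : List Bool}
    (hS : S k = false :: l) (h : Runs pF (update S k l) t S')
    (h' : Runs (.loop k pF pT) S' t' S'') : Runs (.loop k pF pT) S (t + t' + 1) S'' := by
  obtain ⟨u, hu, he⟩ := h
  obtain ⟨u', hu', he'⟩ := h'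
  exact ⟨u + u' + 1, by omega, Exec.loopF hS he he'⟩

lemma Runs.loopT {k : K} {pF pT : Prog K} {S S' S'' : Stk K} {t t' : ℕ} {l : List Bool}
    (hS : S k = true :: l) (h : Runs pT (update S k l) t S')
    (h' : Runs (.loop k pF pT) S' t' S'') : Runs (.loop k pF pT) S (t + t' + 1) S'' := by
  obtain ⟨u, hu, he⟩ := h
  obtain ⟨u', hu', he'⟩ := h'
  exact ⟨u + u' + 1, by omega, Exec.loopT hS he he'⟩

end rules

/-! ### Total length of the stacks grows at most by the number of steps -/

section length

variable [DecidableEq K] [Fintype K]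

/-- total length of the stacks -/
def total (S : Stk K) : ℕ := ∑ k, (S k).length

lemma total_update (S : Stk K) (k : K) (l : List Bool) :
    total (update S k l) + (S k).length = total S + l.length := by
  unfold total
  rw [← Finset.add_sum_erase Finset.univ (fun j => (update S k l j).length) (Finset.mem_univ k),
    ← Finset.add_sum_erase Finset.univ (fun j => (S j).length) (Finset.mem_univ k)]
  have : ∑ x ∈ Finset.univ.erase k, (update S k l x).length
      = ∑ x ∈ Finset.univ.erase k, (S x).length := by
    apply Finset.sum_congr rfl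
    intro x hx
    rw [update_of_ne (Finset.ne_of_mem_erase hx)]
  rw [this]
  simp only [update_self]
  ring

lemma Exec.total_le {p : Prog K} {S S' : Stk K} {t : ℕ} (h : Exec p S t S') :
    total S' ≤ total S + t := by
  induction h with
  | skip S => omega
  | push k b S =>
    have := total_update S k (b :: S k)
    simp at this
    omega
  | seq _ _ ih1 ih2 => omega
  | popN _ _ ih => omega
  | popF hS _ ih =>
    rename_i k pN pF pT S S' t l _
    have := total_update S k l
    rw [hS] at this
    simp at this
    omega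
  | popT hS _ ih =>
    rename_i k pN pF pT S S' t l _
    have := total_update S k l
    rw [hS] at this
    simp at this
    omega
  | loopN _ => omega
  | loopF hS _ _ ih1 ih2 =>
    rename_i k pF pT S S' S'' t t' l _ _
    have := total_update S k l
    rw [hS] at this
    simp at this
    omega
  | loopT hS _ _ ih1 ih2 =>
    rename_i k pF pT S S' S'' t t' l _ _
    have := total_update S k l
    rw [hS] at this
    simp at this
    omega

lemma Runs.total_le {p : Prog K} {S S' : Stk K} {t : ℕ} (h : Runs p S t S') :
    total S' ≤ total S + t := by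
  obtain ⟨u, hu, he⟩ := h
  exact he.total_le.trans (by omega)

end length

/-! ### Translation into `TM2` machines -/

/-- labels of the machine of a program -/
def Lab : Prog K → Type
  | .skip => Unit
  | .push _ _ => Unit
  | .seq p q => Lab p ⊕ Lab q
  | .popCase _ pN pF pT => Unit ⊕ (Lab pN ⊕ (Lab pF ⊕ Lab pT))
  | .loop _ pF pT => Unit ⊕ (Lab pF ⊕ Lab pT)

/-- there are finitely many labels -/
@[instance_reducible, instance] def labFintype : (p : Prog K) → Fintype (Lab p)
  | .skip => inferInstanceAs (Fintype Unit)
  | .push _ _ => inferInstanceAs (Fintype Unit)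
  | .seq p q =>
    letI := labFintype p
    letI := labFintype q
    inferInstanceAs (Fintype (Lab p ⊕ Lab q))
  | .popCase _ pN pF pT =>
    letI := labFintype pN
    letI := labFintype pF
    letI := labFintype pT
    inferInstanceAs (Fintype (Unit ⊕ (Lab pN ⊕ (Lab pF ⊕ Lab pT))))
  | .loop _ pF pT =>
    letI := labFintype pF
    letI := labFintype pT
    inferInstanceAs (Fintype (Unit ⊕ (Lab pF ⊕ Lab pT)))

/-- entry label -/
def entry : (p : Prog K) → Lab p
  | .skip => ()
  | .push _ _ => ()
  | .seq p _ => Sum.inl (entry p)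
  | .popCase _ _ _ _ => Sum.inl ()
  | .loop _ _ _ => Sum.inl ()

/-- the statements of the machine of a program; the internal state holds the last popped bit and is
reset to `none` before each jump -/
def comp : (p : Prog K) → {Λ : Type} → (Lab p → Λ) → Λ → Lab p →
    TM2.Stmt (fun _ : K => Bool) Λ (Option Bool)
  | .skip, _, _, ex, _ => .goto (fun _ => ex)
  | .push k b, _, _, ex, _ => .push k (fun _ => b) (.goto (fun _ => ex))
  | .seq p q, _, emb, ex, l =>
    match l with
    | Sum.inl l => comp p (fun a => emb (Sum.inl a)) (emb (Sum.inr (entry q))) l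
    | Sum.inr l => comp q (fun a => emb (Sum.inr a)) ex l
  | .popCase k pN pF pT, _, emb, ex, l =>
    match l with
    | Sum.inl _ => .pop k (fun _ o => o) <|
        .branch (fun v => v.isNone) (.load (fun _ => none)
          (.goto (fun _ => emb (Sum.inr (Sum.inl (entry pN)))))) <|
        .branch (fun v => v.getD false) (.load (fun _ => none)
          (.goto (fun _ => emb (Sum.inr (Sum.inr (Sum.inr (entry pT))))))) <|
        (.load (fun _ => none) (.goto (fun _ => emb (Sum.inr (Sum.inr (Sum.inl (entry pF)))))))
    | Sum.inr (Sum.inl l) => comp pN (fun a => emb (Sum.inr (Sum.inl a))) ex l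
    | Sum.inr (Sum.inr (Sum.inl l)) => comp pF (fun a => emb (Sum.inr (Sum.inr (Sum.inl a)))) ex l
    | Sum.inr (Sum.inr (Sum.inr l)) => comp pT (fun a => emb (Sum.inr (Sum.inr (Sum.inr a)))) ex l
  | .loop k pF pT, _, emb, ex, l =>
    match l with
    | Sum.inl _ => .pop k (fun _ o => o) <|
        .branch (fun v => v.isNone) (.load (fun _ => none) (.goto (fun _ => ex))) <|
        .branch (fun v => v.getD false) (.load (fun _ => none)
          (.goto (fun _ => emb (Sum.inr (Sum.inr (entry pT)))))) <|
        (.load (fun _ => none) (.goto (fun _ => emb (Sum.inr (Sum.inl (entry pF))))))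
    | Sum.inr (Sum.inl l) => comp pF (fun a => emb (Sum.inr (Sum.inl a))) (emb (Sum.inl ())) l
    | Sum.inr (Sum.inr l) => comp pT (fun a => emb (Sum.inr (Sum.inr a))) (emb (Sum.inl ())) l

/-- `n` steps of a partial step function -/
def stepsN {σ : Type} (f : σ → Option σ) (n : ℕ) (a b : σ) : Prop :=
  (flip bind f)^[n] (some a) = some b

lemma stepsN_zero {σ : Type} (f : σ → Option σ) (a : σ) : stepsN f 0 a a := rfl

lemma stepsN_one {σ : Type} {f : σ → Option σ} {a b : σ} (h : f a = some b) : stepsN f 1 a b := by
  simpa [stepsN, flip] using h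

lemma stepsN_trans {σ : Type} {f : σ → Option σ} {a b c : σ} {m n : ℕ}
    (h : stepsN f m a b) (h' : stepsN f n b c) : stepsN f (m + n) a c := by
  unfold stepsN at *
  rw [add_comm, Function.iterate_add_apply, h, h']

lemma stepsN_succ {σ : Type} {f : σ → Option σ} {a b c : σ} {n : ℕ}
    (h : f a = some b) (h' : stepsN f n b c) : stepsN f (n + 1) a c := by
  rw [add_comm]
  exact stepsN_trans (stepsN_one h) h'

theorem comp_correct [DecidableEq K] {p : Prog K} {S S' : Stk K} {t : ℕ} (h : Exec p S t S') :
    ∀ {Λ : Type} (emb : Lab p → Λ) (ex : Λ)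
      (M : Λ → TM2.Stmt (fun _ : K => Bool) Λ (Option Bool))
      (_ : ∀ l, M (emb l) = comp p emb ex l),
      stepsN (TM2.step M) t ⟨some (emb (entry p)), none, S⟩ ⟨some ex, none, S'⟩ := by
  induction h with
  | skip S =>
    intro Λ emb ex M hM
    apply stepsN_one
    have h1 := hM (entry (.skip : Prog K))
    simp only [TM2.step, h1, comp, TM2.stepAux]
  | push k b S =>
    intro Λ emb ex M hM
    apply stepsN_one
    have h1 := hM (entry (.push k b : Prog K))
    simp only [TM2.step, h1, comp, TM2.stepAux]
  | seq _ _ ih1 ih2 =>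
    intro Λ emb ex M hM
    exact stepsN_trans
      (ih1 (fun a => emb (Sum.inl a)) _ M (fun l => hM (Sum.inl l)))
      (ih2 (fun a => emb (Sum.inr a)) _ M (fun l => hM (Sum.inr l)))
  | popN hS _ ih =>
    rename_i k pN pF pT S S' t _
    intro Λ emb ex M hM
    have h1 := hM (Sum.inl ())
    refine stepsN_succ (b := ⟨some (emb (Sum.inr (Sum.inl (entry pN)))), none, S⟩) ?_
      (ih (fun a => emb (Sum.inr (Sum.inl a))) ex M (fun l => hM (Sum.inr (Sum.inl l))))
    have h2 : update S k [] = S := by rw [← hS, update_eq_self]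
    simp only [TM2.step, entry, h1, comp, TM2.stepAux, hS, List.head?_nil, Option.isNone_none,
      cond_true, List.tail_nil, h2]
  | popF hS _ ih =>
    rename_i k pN pF pT S S' t l _
    intro Λ emb ex M hM
    have h1 := hM (Sum.inl ())
    refine stepsN_succ
      (b := ⟨some (emb (Sum.inr (Sum.inr (Sum.inl (entry pF))))), none, update S k l⟩) ?_
      (ih (fun a => emb (Sum.inr (Sum.inr (Sum.inl a)))) ex M
        (fun l => hM (Sum.inr (Sum.inr (Sum.inl l)))))
    simp only [TM2.step, entry, h1, comp, TM2.stepAux, hS, List.head?_cons, Option.isNone_some,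
      cond_false, List.tail_cons, Option.getD_some]
  | popT hS _ ih =>
    rename_i k pN pF pT S S' t l _
    intro Λ emb ex M hM
    have h1 := hM (Sum.inl ())
    refine stepsN_succ
      (b := ⟨some (emb (Sum.inr (Sum.inr (Sum.inr (entry pT))))), none, update S k l⟩) ?_
      (ih (fun a => emb (Sum.inr (Sum.inr (Sum.inr a)))) ex M
        (fun l => hM (Sum.inr (Sum.inr (Sum.inr l)))))
    simp only [TM2.step, entry, h1, comp, TM2.stepAux, hS, List.head?_cons, Option.isNone_some,
      cond_false, cond_true, List.tail_cons, Option.getD_some]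
  | loopN hS =>
    rename_i k pF pT S
    intro Λ emb ex M hM
    have h1 := hM (Sum.inl ())
    apply stepsN_one
    have h2 : update S k [] = S := by rw [← hS, update_eq_self]
    simp only [TM2.step, entry, h1, comp, TM2.stepAux, hS, List.head?_nil, Option.isNone_none,
      cond_true, List.tail_nil, h2]
  | loopF hS _ _ ih1 ih2 =>
    rename_i k pF pT S S' S'' t t' l _ _
    intro Λ emb ex M hM
    have h1 := hM (Sum.inl ())
    refine stepsN_succ
      (b := ⟨some (emb (Sum.inr (Sum.inl (entry pF)))), none, update S k l⟩) ?_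
      (stepsN_trans (ih1 (fun a => emb (Sum.inr (Sum.inl a))) (emb (Sum.inl ())) M
        (fun l => hM (Sum.inr (Sum.inl l)))) (ih2 emb ex M hM))
    simp only [TM2.step, entry, h1, comp, TM2.stepAux, hS, List.head?_cons, Option.isNone_some,
      cond_false, List.tail_cons, Option.getD_some]
  | loopT hS _ _ ih1 ih2 =>
    rename_i k pF pT S S' S'' t t' l _ _
    intro Λ emb ex M hM
    have h1 := hM (Sum.inl ())
    refine stepsN_succ
      (b := ⟨some (emb (Sum.inr (Sum.inr (entry pT)))), none, update S k l⟩) ?_
      (stepsN_trans (ih1 (fun a => emb (Sum.inr (Sum.inr a))) (emb (Sum.inl ())) M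
        (fun l => hM (Sum.inr (Sum.inr l)))) (ih2 emb ex M hM))
    simp only [TM2.step, entry, h1, comp, TM2.stepAux, hS, List.head?_cons, Option.isNone_some,
      cond_false, cond_true, List.tail_cons, Option.getD_some]

/-- stacks empty except stack `k`, which holds `w` -/
def only [DecidableEq K] (k : K) (w : List Bool) : Stk K := fun j => if j = k then w else []

/-- the bundled machine of a program -/
def machine [DecidableEq K] [Fintype K] (k₀ k₁ : K) (p : Prog K) : FinTM2 where
  K := K
  k₀ := k₀
  k₁ := k₁
  Γ := fun _ => Bool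
  Λ := Option (Lab p)
  main := some (entry p)
  σ := Option Bool
  initialState := none
  m := fun l => match l with
    | none => TM2.Stmt.halt
    | some l => comp p some none l

/-- a program run gives a machine run -/
theorem machine_runs [DecidableEq K] [Fintype K] (k₀ k₁ : K) (p : Prog K) {w w' : List Bool}
    {t : ℕ} (h : Runs p (only k₀ w) t (only k₁ w')) :
    Nonempty (TM2OutputsInTime (machine k₀ k₁ p) w (some w') (t + 1)) := by
  obtain ⟨u, hu, he⟩ := h
  have h1 := comp_correct he some none (machine k₀ k₁ p).m (fun l => rfl)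
  have h2 : stepsN (TM2.step (machine k₀ k₁ p).m) (u + 1)
      ⟨some (some (entry p)), none, only k₀ w⟩ ⟨none, none, only k₁ w'⟩ :=
    stepsN_trans h1 (stepsN_one rfl)
  have e1 : initList (machine k₀ k₁ p) w = ⟨some (some (entry p)), none, only k₀ w⟩ := by
    unfold initList
    congr 1
  have e2 : haltList (machine k₀ k₁ p) w' = ⟨none, none, only k₁ w'⟩ := by
    unfold haltList
    congr 1
  have h3 : (flip bind (TM2.step (machine k₀ k₁ p).m))^[u + 1]
      (some (initList (machine k₀ k₁ p) w)) = some (haltList (machine k₀ k₁ p) w') := by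
    unfold stepsN at h2
    rw [e2]
    refine Eq.trans ?_ h2
    rw [e1]
  exact ⟨{ steps := u + 1, evals_in_steps := h3, steps_le_m := Nat.succ_le_succ hu }⟩

end Pool.Agent.Lib.helper60
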